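import Pool.Agent.Q62.CS.Stm

/-!
Elementary facts for the lemmas G1, G2 of project CS: the frequency as a mean of indicators, blocks of
the infinite codeword, windows inside of blocks.
-/

open Filter Topology Finset

namespace Pool.Agent.Q130.CS
open Pool.Agent.Q62.CS

open scoped Classical in
/-- indicator of the window `V` at `j` -/
noncomputable def gg {α : Type} (z : ℕ → α) {n : ℕ} (V : Fin n → α) (j : ℕ) : ℝ :=
  if (∀ i : Fin n, z (j + i) = V i) then 1 else 0

theorem gg_nonneg {α : Type} (z : ℕ → α) {n : ℕ} (V : Fin n → α) (j : ℕ) : 0 ≤ gg z V j := by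
  unfold gg; split_ifs <;> norm_num

theorem gg_le_one {α : Type} (z : ℕ → α) {n : ℕ} (V : Fin n → α) (j : ℕ) : gg z V j ≤ 1 := by
  unfold gg; split_ifs <;> norm_num

theorem frq_eq {α : Type} (z : ℕ → α) {n : ℕ} (V : Fin n → α) (T : ℕ) :
    frq z V T = (∑ j ∈ range T, gg z V j) / T := by
  unfold frq gg
  rw [Finset.card_filter]
  push_cast
  rfl

theorem len_pos : ∀ k, k < len k
  | 0 => by simp [len]
  | (k + 1) => by
      have h := len_pos k
      have h2 : 2 ≤ rad k := by
        unfold rad
        calc 2 = 2 ^ 1 := by norm_num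
          _ ≤ 2 ^ (k + 2) := Nat.pow_le_pow_right (by norm_num) (by omega)
      have h3 : 2 * len k ≤ rad k * len k := Nat.mul_le_mul_right _ h2
      show k + 1 < rad k * len k
      omega

/-- sum over blocks -/
theorem sum_blocks (g : ℕ → ℝ) (M : ℕ) : ∀ T, ∑ j ∈ range (T * M), g j =
    ∑ t ∈ range T, ∑ p ∈ range M, g (t * M + p)
  | 0 => by simp
  | (T + 1) => by
      rw [Finset.sum_range_succ, ← sum_blocks g M T, Nat.add_mul, one_mul,
        Finset.sum_range_add]

/-- windows inside of a block -/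
theorem man_blk (w : ℕ → ZMod 2) (k t q : ℕ) (hq : q < 2 * len k) :
    man w (t * (2 * len k) + q) = man (ext k (blk k w t)) q := by
  have hq2 : q / 2 < len k := by omega
  unfold man Q62.CS.ext
  rw [dif_pos hq2]
  have e1 : (t * (2 * len k) + q) / 2 = t * len k + q / 2 := by
    have : t * (2 * len k) = 2 * (t * len k) := by ring
    rw [this]; omega
  have e2 : ((t * (2 * len k) + q : ℕ) : ZMod 2) = (q : ZMod 2) := by
    have h2 : (2 : ZMod 2) = 0 := by decide
    push_cast
    rw [h2]; ring
  rw [e1, e2]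
  rfl

theorem gg_blk (w : ℕ → ZMod 2) (k t p : ℕ) {n : ℕ} (V : Fin n → ZMod 2)
    (hp : p + n ≤ 2 * len k) :
    gg (man w) V (t * (2 * len k) + p) = gg (man (ext k (blk k w t))) V p := by
  unfold gg
  have : (∀ i : Fin n, man w (t * (2 * len k) + p + i) = V i) ↔
      ∀ i : Fin n, man (ext k (blk k w t)) (p + i) = V i := by
    refine forall_congr' fun i => ?_
    rw [Nat.add_assoc, man_blk w k t (p + i) (by have := i.2; omega)]
  by_cases h : ∀ i : Fin n, man (Q62.CS.ext k (blk k w t)) (p + i) = V i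
  · rw [if_pos (this.mpr h), if_pos h]
  · rw [if_neg (fun h' => h (this.mp h')), if_neg h]

end Pool.Agent.Q130.CS
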