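import Pool.Agent.Q130.CS.G1

/-! Lemma C0 of project CS (digits of a Cantor series). -/

open Filter Topology Finset

namespace Pool.Agent.Q130.CS
open Pool.Agent.Q62.CS

theorem orb_nonneg (Q : ℕ → ℕ) (x : ℝ) (n : ℕ) : 0 ≤ orb Q x n := Int.fract_nonneg _

theorem orb_lt_one (Q : ℕ → ℕ) (x : ℝ) (n : ℕ) : orb Q x n < 1 := Int.fract_lt_one _

theorem orb_succ (Q : ℕ → ℕ) (x : ℝ) (n : ℕ) : orb Q x (n + 1) = Int.fract ((Q n : ℝ) * orb Q x n) := by
  unfold orb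
  rw [Finset.prod_range_succ]
  set a := ∏ i ∈ range n, (Q i : ℝ) with ha
  have h1 : a * (Q n : ℝ) * x = (Q n : ℝ) * Int.fract (a * x) + ((Q n : ℤ) * ⌊a * x⌋ : ℤ) := by
    have := Int.fract_add_floor (a * x)
    push_cast
    calc a * (Q n : ℝ) * x = (Q n : ℝ) * (a * x) := by ring
      _ = (Q n : ℝ) * (Int.fract (a * x) + ⌊a * x⌋) := by rw [this]
      _ = _ := by ring
  rw [h1, Int.fract_add_intCast]

theorem dig_add (Q : ℕ → ℕ) (x : ℝ) (n : ℕ) :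
    (Q n : ℝ) * orb Q x n = dig Q x n + orb Q x (n + 1) := by
  have h0 : 0 ≤ (Q n : ℝ) * orb Q x n := mul_nonneg (Nat.cast_nonneg _) (orb_nonneg _ _ _)
  rw [orb_succ]
  unfold dig
  have h1 : ((⌊(Q n : ℝ) * orb Q x n⌋₊ : ℕ) : ℝ) = ((⌊(Q n : ℝ) * orb Q x n⌋ : ℤ) : ℝ) := by
    rw [← Int.natCast_floor_eq_floor h0]
    push_cast
    rfl
  rw [h1]
  have := Int.fract_add_floor ((Q n : ℝ) * orb Q x n)
  linarith

theorem dig_lt (Q : ℕ → ℕ) (hQ : ∀ n, 2 ≤ Q n) (x : ℝ) (n : ℕ) : dig Q x n < Q n := by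
  have h0 : 0 ≤ (Q n : ℝ) * orb Q x n := mul_nonneg (Nat.cast_nonneg _) (orb_nonneg _ _ _)
  have hQ0 : (0 : ℝ) < Q n := by have := hQ n; positivity
  unfold dig
  rw [Nat.floor_lt h0]
  calc (Q n : ℝ) * orb Q x n < (Q n : ℝ) * 1 := mul_lt_mul_of_pos_left (orb_lt_one _ _ _) hQ0
    _ = Q n := mul_one _

theorem t_C0 : S_C0 := by
  intro Q hQ x _ _
  refine ⟨fun n => dig_lt Q hQ x n, fun n => ⟨orb_nonneg Q x n, orb_lt_one Q x n⟩, ?_⟩
  intro n l
  induction l with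
  | zero => simp
  | succ l ih =>
    rw [Finset.sum_range_succ, ih]
    have hpos : ∀ m : ℕ, (∏ k ∈ range m, (Q (n + k) : ℝ)) ≠ 0 := by
      intro m
      refine Finset.prod_ne_zero_iff.2 fun k _ => ?_
      have := hQ (n + k)
      positivity
    have h1 := dig_add Q x (n + l)
    have h2 := hpos l
    have h3 : (Q (n + l) : ℝ) ≠ 0 := by have := hQ (n + l); positivity
    have h4 : orb Q x (n + l) = (dig Q x (n + l) + orb Q x (n + l + 1)) / Q (n + l) := by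
      rw [eq_div_iff h3, mul_comm]; exact h1
    rw [Finset.prod_range_succ, show n + (l + 1) = n + l + 1 by ring, h4]
    field_simp
    ring

end Pool.Agent.Q130.CS
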