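import Pool.Agent.Q130.CS.Bas

/-! Lemma G3 of project CS (upper bound for the entropy of the windows). -/

open Filter Topology Finset

namespace Pool.Agent.Q130.CS
open Pool.Agent.Q62.CS

theorem pmf_lim {α : Type} [Fintype α] (z : ℕ → α) {n : ℕ} (mu : (Fin n → α) → ℝ)
    (h : ∀ V : Fin n → α, Tendsto (frq z V) atTop (𝓝 (mu V))) : Pmf mu := by
  classical
  constructor
  · intro V
    refine ge_of_tendsto' (h V) fun T => ?_
    rw [frq_eq]
    exact div_nonneg (Finset.sum_nonneg fun j _ => gg_nonneg _ _ _) (Nat.cast_nonneg _)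
  · have h1 : Tendsto (fun T => ∑ V : Fin n → α, frq z V T) atTop (𝓝 (∑ V, mu V)) :=
      tendsto_finsetSum _ fun V _ => h V
    refine tendsto_nhds_unique h1 ?_
    refine tendsto_const_nhds.congr' ?_
    filter_upwards [eventually_gt_atTop 0] with T hT
    have hT0 : (T : ℝ) ≠ 0 := by positivity
    simp_rw [frq_eq]
    rw [← Finset.sum_div, Finset.sum_comm]
    have : ∀ j ∈ range T, ∑ V : Fin n → α, gg z V j = 1 := by
      intro j _
      rw [Finset.sum_eq_single (fun i : Fin n => z (j + i))]
      · unfold gg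
        rw [if_pos (fun i => rfl)]
      · intro V _ hV
        unfold gg
        rw [if_neg]
        intro h
        exact hV (funext fun i => (h i).symm)
      · intro h; exact absurd (Finset.mem_univ _) h
    rw [Finset.sum_congr rfl this, Finset.sum_const, Finset.card_range, nsmul_eq_mul, mul_one,
      div_self hT0]

theorem frq_zero {α : Type} (z : ℕ → α) {n : ℕ} (V : Fin n → α)
    (h : ∀ j, ¬ ∀ i : Fin n, z (j + i) = V i) (T : ℕ) : frq z V T = 0 := by
  rw [frq_eq]
  have : ∀ j ∈ range T, gg z V j = 0 := by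
    intro j _
    unfold gg
    rw [if_neg (h j)]
  rw [Finset.sum_congr rfl this, Finset.sum_const_zero, zero_div]

theorem half (w : ℕ → ZMod 2) (c : ZMod 2) (L : ℝ)
    (h : Tendsto (frq (man w) (fun _ : Fin 1 => c)) atTop (𝓝 L)) : L = 1 / 2 := by
  have hsub : Tendsto (fun T : ℕ => frq (man w) (fun _ : Fin 1 => c) (T * 2)) atTop (𝓝 L) :=
    h.comp (tendsto_id.atTop_mul_const' (by norm_num))
  refine tendsto_nhds_unique hsub ?_
  refine tendsto_const_nhds.congr' ?_
  filter_upwards [eventually_gt_atTop 0] with T hT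
  have hT0 : (T : ℝ) ≠ 0 := by positivity
  rw [frq_eq, sum_blocks]
  have : ∀ t ∈ range T, ∑ p ∈ range 2, gg (man w) (fun _ : Fin 1 => c) (t * 2 + p) = 1 := by
    intro t _
    rw [Finset.sum_range_succ, Finset.sum_range_one]
    have m0 : man w (t * 2 + 0 + ((0 : Fin 1) : ℕ)) = w t := by
      unfold man
      have h2 : (2 : ZMod 2) = 0 := by decide
      have e : (t * 2 + 0 + ((0 : Fin 1) : ℕ)) / 2 = t := by simp
      rw [e]; push_cast; rw [h2]; simp
    have m1 : man w (t * 2 + 1 + ((0 : Fin 1) : ℕ)) = w t + 1 := by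
      unfold man
      have h2 : (2 : ZMod 2) = 0 := by decide
      have e : (t * 2 + 1 + ((0 : Fin 1) : ℕ)) / 2 = t := by
        show (t * 2 + 1 + 0) / 2 = t
        omega
      rw [e]; push_cast; rw [h2]; simp
    have i0 : (∀ i : Fin 1, man w (t * 2 + 0 + i) = c) ↔ w t = c := by
      rw [Fin.forall_fin_one, m0]
    have i1 : (∀ i : Fin 1, man w (t * 2 + 1 + i) = c) ↔ w t + 1 = c := by
      rw [Fin.forall_fin_one, m1]
    unfold gg
    have key : ∀ x c : ZMod 2, (x = c ∧ ¬ x + 1 = c) ∨ (¬ x = c ∧ x + 1 = c) := by decide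
    rcases key (w t) c with ⟨h1, h2⟩ | ⟨h1, h2⟩
    · rw [if_pos (i0.2 h1), if_neg (fun h => h2 (i1.1 h)), add_zero]
    · rw [if_neg (fun h => h1 (i0.1 h)), if_pos (i1.2 h2), zero_add]
  rw [Finset.sum_congr rfl this, Finset.sum_const, Finset.card_range, nsmul_eq_mul, mul_one]
  push_cast
  field_simp

theorem t_G3 (a2 : S_A2) (d0 : S_D0) : S_G3 := by
  classical
  intro w hw mu hmu
  refine ⟨?_, half w 1 _ (hmu 1 _), half w 0 _ (hmu 1 _)⟩
  intro n k
  set M := 2 * len k with hM
  have hM0 : 0 < M := by have := len_pos k; omega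
  have hblk : ∀ t, blk k w t ∈ C k := fun t => (d0.2.2 w hw k t).2
  have hC0 : 0 < (C k).card := Finset.card_pos.2 ⟨_, hblk 0⟩
  set L := n / M + 2 with hL
  have hbd : ∀ φ < M, ∀ i < n, (φ + i) / M < L := by
    intro φ hφ i hi
    rw [Nat.div_lt_iff_lt_mul hM0, hL]
    have h1 := Nat.div_add_mod n M
    have h2 := Nat.mod_lt n hM0
    calc φ + i < M + (M * (n / M) + M) := by omega
      _ = (n / M + 2) * M := by ring
  -- the coding map
  let Φ : ℕ × (Fin L → (Fin (len k) → ZMod 2)) → (Fin n → ZMod 2) := fun x i =>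
    man (Q62.CS.ext k (if h : (x.1 + i) / M < L then x.2 ⟨(x.1 + i) / M, h⟩ else 0)) ((x.1 + i) % M)
  let S : Finset (Fin n → ZMod 2) :=
    (range M ×ˢ Fintype.piFinset (fun _ : Fin L => C k)).image Φ
  have hcard : S.card ≤ M * (C k).card ^ L := by
    refine Finset.card_image_le.trans ?_
    rw [Finset.card_product, Finset.card_range, Fintype.card_piFinset]
    simp
  have hin : ∀ j, (fun i : Fin n => man w (j + i)) ∈ S := by
    intro j
    refine Finset.mem_image.2 ⟨(j % M, fun s => blk k w (j / M + s)), ?_, ?_⟩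
    · rw [Finset.mem_product]
      refine ⟨Finset.mem_range.2 (Nat.mod_lt j hM0), ?_⟩
      rw [Fintype.mem_piFinset]
      intro s
      exact hblk _
    · funext i
      have h1 := hbd (j % M) (Nat.mod_lt j hM0) i i.2
      show man (Q62.CS.ext k (if h : (j % M + i) / M < L then
        blk k w (j / M + ((⟨(j % M + i) / M, h⟩ : Fin L) : ℕ)) else 0)) ((j % M + i) % M) =
          man w (j + i)
      rw [dif_pos h1]
      rw [← man_blk w k (j / M + (j % M + i) / M) ((j % M + i) % M) (Nat.mod_lt _ hM0), ← hM]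
      congr 1
      have e1 := Nat.div_add_mod j M
      have e2 := Nat.div_add_mod (j % M + (i : ℕ)) M
      calc (j / M + (j % M + i) / M) * M + (j % M + i) % M =
            M * (j / M) + (M * ((j % M + i) / M) + (j % M + i) % M) := by ring
        _ = j + i := by rw [e2]; omega
  have hS0 : 0 < S.card := Finset.card_pos.2 ⟨_, hin 0⟩
  have hz : ∀ V, V ∉ S → mu n V = 0 := by
    intro V hV
    refine tendsto_nhds_unique (hmu n V) ?_
    refine tendsto_const_nhds.congr fun T => ?_
    refine (frq_zero (man w) V (fun j h => hV ?_) T).symm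
    rw [← funext h]
    exact hin j
  have h1 := a2 (mu n) S (pmf_lim (man w) (mu n) (hmu n)) hz
  refine h1.trans ?_
  have hSr : (0 : ℝ) < S.card := by exact_mod_cast hS0
  have hMr : (0 : ℝ) < (M : ℕ) := by exact_mod_cast hM0
  have hCr : (0 : ℝ) < (C k).card := by exact_mod_cast hC0
  have hlogC : 0 ≤ Real.log (C k).card := Real.log_nonneg (by exact_mod_cast hC0)
  calc Real.log S.card ≤ Real.log ((M : ℝ) * (C k).card ^ L) :=
        Real.log_le_log hSr (by exact_mod_cast hcard)
    _ = Real.log M + L * Real.log (C k).card := by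
        rw [Real.log_mul hMr.ne' (by positivity), Real.log_pow]
    _ ≤ Real.log (2 * len k) + ((n : ℝ) / (2 * len k) + 2) * Real.log (C k).card := by
        have e1 : ((M : ℕ) : ℝ) = 2 * len k := by rw [hM]; push_cast; rfl
        rw [e1]
        have e2 : (L : ℝ) ≤ (n : ℝ) / (2 * len k) + 2 := by
          rw [hL]; push_cast
          have : ((n / M : ℕ) : ℝ) ≤ (n : ℝ) / (M : ℕ) := Nat.cast_div_le
          rw [e1] at this
          linarith
        have := mul_le_mul_of_nonneg_right e2 hlogC
        linarith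

end Pool.Agent.Q130.CS
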