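import Pool.Agent.Q130.CS.C0
import Pool.Agent.Q130.CS.G3

/-! Lemmas C1 and C2 of project CS (digit frequencies of normal numbers; uniform normality). -/

open Filter Topology Finset

namespace Pool.Agent.Q130.CS
open Pool.Agent.Q62.CS

theorem sum_gg {α : Type} [Fintype α] (z : ℕ → α) {n : ℕ} (f : (Fin n → α) → ℝ) (j : ℕ) :
    ∑ V, gg z V j * f V = f (fun i : Fin n => z (j + i)) := by
  classical
  rw [Finset.sum_eq_single (fun i : Fin n => z (j + i))]
  · unfold gg
    rw [if_pos (fun i => rfl), one_mul]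
  · intro V _ hV
    unfold gg
    rw [if_neg, zero_mul]
    intro h
    exact hV (funext fun i => (h i).symm)
  · intro h; exact absurd (Finset.mem_univ _) h

theorem uu_nonneg {α : Type} (val : α → ℕ) {B n : ℕ} (V : Fin n → α) (D : Fin n → Fin B) :
    0 ≤ uu val V D := by
  unfold uu
  split_ifs
  · exact inv_nonneg.2 (Finset.prod_nonneg fun i _ => Nat.cast_nonneg _)
  · exact le_rfl

theorem uu_pos {α : Type} (val : α → ℕ) (hv : ∀ a, 2 ≤ val a) {B n : ℕ} (V : Fin n → α)
    (D : Fin n → Fin B) (h : ∀ i, (D i : ℕ) < val (V i)) : 0 < uu val V D := by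
  unfold uu
  rw [if_pos h]
  exact inv_pos.2 (Finset.prod_pos fun i _ => by have := hv (V i); positivity)

theorem QD_eq {α : Type} [Fintype α] (val : α → ℕ) {B : ℕ} (z : ℕ → α) {n : ℕ}
    (D : Fin n → Fin B) (T : ℕ) : QD (fun j => val (z j)) (fun i => (D i : ℕ)) T / T =
      ∑ V, frq z V T * uu val V D := by
  have h1 : QD (fun j => val (z j)) (fun i => (D i : ℕ)) T =
      ∑ j ∈ range T, uu val (fun i : Fin n => z (j + i)) D := rfl
  rw [h1]
  have h2 : ∀ j ∈ range T, uu val (fun i : Fin n => z (j + i)) D = ∑ V, gg z V j * uu val V D :=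
    fun j _ => (sum_gg z (fun V => uu val V D) j).symm
  rw [Finset.sum_congr rfl h2, Finset.sum_comm, Finset.sum_div]
  refine Finset.sum_congr rfl fun V _ => ?_
  rw [frq_eq, ← Finset.sum_mul]
  ring

theorem ND_eq (Q : ℕ → ℕ) (x : ℝ) {B : ℕ} (ds : ℕ → Fin B) (hds : ∀ j, (ds j : ℕ) = dig Q x j)
    {n : ℕ} (D : Fin n → Fin B) (T : ℕ) :
    ND Q (fun i => (D i : ℕ)) x T / T = frq ds D T := by
  classical
  unfold ND frq
  refine congrArg (fun s : Finset ℕ => (s.card : ℝ) / T) ?_
  ext j
  simp only [Finset.mem_filter]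
  refine and_congr_right fun _ => forall_congr' fun i => ?_
  rw [← hds]
  exact ⟨fun h => Fin.ext h, fun h => by rw [h]⟩

theorem t_C1 (_c0 : S_C0) : S_C1 := by
  classical
  intro α _ B val z mu hG x hx
  have hQ : ∀ n, 2 ≤ (fun j => val (z j)) n := fun n => hG.two _
  set Q : ℕ → ℕ := fun j => val (z j) with hQd
  let ds : ℕ → Fin B := fun j => ⟨dig Q x j, lt_of_lt_of_le (dig_lt Q hQ x j) (hG.leB _)⟩
  have hds : ∀ j, (ds j : ℕ) = dig Q x j := fun j => rfl
  refine ⟨ds, hds, fun j => dig_lt Q hQ x j, ?_⟩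
  intro n D
  have hmu0 : ∀ V : Fin n → α, 0 ≤ mu n V := (pmf_lim z (mu n) (hG.lim n)).1
  have hlim : Tendsto (fun T : ℕ => QD Q (fun i => (D i : ℕ)) T / T) atTop
      (𝓝 (∑ V, mu n V * uu val V D)) := by
    have h1 : Tendsto (fun T => ∑ V, frq z V T * uu val V D) atTop
        (𝓝 (∑ V, mu n V * uu val V D)) :=
      tendsto_finsetSum _ fun V _ => (hG.lim n V).mul_const _
    exact h1.congr fun T => (QD_eq val z D T).symm
  have hnn : 0 ≤ ∑ V, mu n V * uu val V D :=
    Finset.sum_nonneg fun V _ => mul_nonneg (hmu0 V) (uu_nonneg val V D)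
  rcases hnn.lt_or_eq with hpos | hzero
  · have hinf : Tendsto (QD Q (fun i => (D i : ℕ))) atTop atTop := by
      have h1 := hlim.pos_mul_atTop hpos tendsto_natCast_atTop_atTop
      refine h1.congr' ?_
      filter_upwards [eventually_gt_atTop 0] with T hT
      have : (T : ℝ) ≠ 0 := by positivity
      field_simp
    have h1 := hx.2.2 n (fun i => (D i : ℕ)) hinf
    have h2 := h1.mul hlim
    rw [one_mul] at h2
    refine h2.congr' ?_
    filter_upwards [hinf.eventually_gt_atTop 0] with T hT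
    rw [← ND_eq Q x ds hds D T, div_mul_div_cancel₀ hT.ne']
  · rw [← hzero]
    refine tendsto_const_nhds.congr fun T => ?_
    refine (frq_zero ds D (fun j h => ?_) T).symm
    have h1 := (Finset.sum_eq_zero_iff_of_nonneg (fun V _ => mul_nonneg (hmu0 V)
      (uu_nonneg val V D))).1 hzero.symm (fun i : Fin n => z (j + i)) (Finset.mem_univ _)
    have h2 := hG.pos n (fun i : Fin n => z (j + i)) ⟨j, fun i => rfl⟩
    have h3 : uu val (fun i : Fin n => z (j + i)) D = 0 := by
      rcases mul_eq_zero.1 h1 with h | h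
      · exact absurd h h2.ne'
      · exact h
    have h4 : 0 < uu val (fun i : Fin n => z (j + i)) D := by
      refine uu_pos val hG.two _ _ fun i => ?_
      rw [← h i]
      exact dig_lt Q hQ x (j + i)
    exact h4.ne' h3

theorem t_C2 : S_C2 := by
  classical
  intro α _ B val z mu hG x hx0 hx1 ds hds hjoint
  have hQ : ∀ n, 2 ≤ (fun j => val (z j)) n := fun n => hG.two _
  refine ⟨hx0, hx1, ?_⟩
  set Q : ℕ → ℕ := fun j => val (z j) with hQd
  intro l D B' hinf
  -- a nonzero term
  obtain ⟨j, hj1, hj2⟩ : ∃ j, (∀ i : Fin l, Q (j + i) = B' i) ∧ ∀ i : Fin l, D i < Q (j + i) := by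
    by_contra hcon
    push Not at hcon
    have : ∀ T, QDB Q D B' T = 0 := by
      intro T
      unfold QDB
      refine Finset.sum_eq_zero fun j _ => if_neg ?_
      rintro ⟨h1, h2⟩
      obtain ⟨i, hi⟩ := hcon j h1
      exact absurd (h2 i) (not_lt.2 hi)
    obtain ⟨T, hT⟩ := (hinf.eventually_gt_atTop 0).exists
    rw [this T] at hT
    exact lt_irrefl _ hT
  let V : Fin l → α := fun i => z (j + i)
  have hBV : ∀ i, B' i = val (V i) := fun i => (hj1 i).symm
  have hDB : ∀ i, D i < B' i := fun i => by rw [hBV]; exact hj2 i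
  let D' : Fin l → Fin B := fun i => ⟨D i, lt_of_lt_of_le (hj2 i) (hG.leB _)⟩
  have hwin : ∀ j', (∀ i : Fin l, Q (j' + i) = B' i) ↔ ∀ i : Fin l, z (j' + i) = V i := by
    intro j'
    refine forall_congr' fun i => ?_
    rw [hBV]
    exact ⟨fun h => hG.inj h, fun h => by show val (z (j' + i)) = val (V i); rw [h]⟩
  have huu : uu val V D' = (∏ i : Fin l, (B' i : ℝ))⁻¹ := by
    unfold uu
    rw [if_pos (fun i => by show D i < val (V i); rw [← hBV]; exact hDB i)]
    simp_rw [hBV]
  have e1 : ∀ T : ℕ, QDB Q D B' T / T = frq z V T * uu val V D' := by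
    intro T
    have h1 : QDB Q D B' T = (∑ j ∈ range T, gg z V j) * uu val V D' := by
      unfold QDB
      rw [Finset.sum_mul]
      refine Finset.sum_congr rfl fun j' _ => ?_
      unfold gg
      by_cases h : ∀ i : Fin l, z (j' + i) = V i
      · have h2 := (hwin j').2 h
        rw [if_pos ⟨h2, fun i => by rw [h2 i]; exact hDB i⟩, if_pos h, one_mul, huu]
      · rw [if_neg (fun h2 => h ((hwin j').1 h2.1)), if_neg h, zero_mul]
    rw [h1, frq_eq]
    ring
  have e2 : ∀ T : ℕ, NDB Q D B' x T / T =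
      frq (fun j => (z j, ds j)) (fun i => (V i, D' i)) T := by
    intro T
    unfold NDB frq
    refine congrArg (fun s : Finset ℕ => (s.card : ℝ) / T) ?_
    ext j'
    simp only [Finset.mem_filter, Prod.mk.injEq]
    refine and_congr_right fun _ => ?_
    rw [hwin j', forall_and]
    refine and_congr_right fun _ => forall_congr' fun i => ?_
    rw [← hds]
    constructor
    · intro h; exact Fin.ext h
    · intro h; rw [h]
  have hpos : 0 < mu l V * uu val V D' := by
    refine mul_pos (hG.pos l V ⟨j, fun i => rfl⟩) (uu_pos val hG.two V D' fun i => ?_)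
    show D i < val (V i)
    rw [← hBV]; exact hDB i
  have l1 : Tendsto (fun T : ℕ => QDB Q D B' T / T) atTop (𝓝 (mu l V * uu val V D')) :=
    ((hG.lim l V).mul_const _).congr fun T => (e1 T).symm
  have l2 : Tendsto (fun T : ℕ => NDB Q D B' x T / T) atTop (𝓝 (mu l V * uu val V D')) :=
    (hjoint l V D').congr fun T => (e2 T).symm
  have l3 := l2.div l1 hpos.ne'
  rw [div_self hpos.ne'] at l3
  refine l3.congr' ?_
  filter_upwards [eventually_gt_atTop 0] with T hT
  have : (T : ℝ) ≠ 0 := by positivity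
  show NDB Q D B' x T / T / (QDB Q D B' T / T) = _
  rw [div_div_div_cancel_right₀ this]

end Pool.Agent.Q130.CS
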