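import Pool.Agent.Q130.CS.C1

/-! Lemma C3 of project CS (distribution normality). -/

open Filter Topology Finset

namespace Pool.Agent.Q130.CS
open Pool.Agent.Q62.CS

/-- mixed radix value -/
def nv : (l : ℕ) → (Fin l → ℕ) → (Fin l → ℕ) → ℕ
  | 0, _, _ => 0
  | (l + 1), b, D => D 0 * (∏ i : Fin l, b i.succ) + nv l (fun i => b i.succ) (fun i => D i.succ)

theorem nv_lt : ∀ (l : ℕ) (b D : Fin l → ℕ), (∀ i, D i < b i) → nv l b D < ∏ i, b i
  | 0, b, D, _ => by simp [nv]
  | (l + 1), b, D, h => by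
      have h1 := nv_lt l (fun i => b i.succ) (fun i => D i.succ) (fun i => h i.succ)
      rw [Fin.prod_univ_succ]
      unfold nv
      calc D 0 * (∏ i : Fin l, b i.succ) + nv l (fun i => b i.succ) (fun i => D i.succ)
          < D 0 * (∏ i : Fin l, b i.succ) + ∏ i : Fin l, b i.succ := Nat.add_lt_add_left h1 _
        _ = (D 0 + 1) * ∏ i : Fin l, b i.succ := by ring
        _ ≤ b 0 * ∏ i : Fin l, b i.succ := Nat.mul_le_mul_right _ (h 0)

theorem nv_inj : ∀ (l : ℕ) (b D D' : Fin l → ℕ), (∀ i, D i < b i) → (∀ i, D' i < b i) →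
    nv l b D = nv l b D' → D = D'
  | 0, b, D, D', _, _, _ => funext fun i => i.elim0
  | (l + 1), b, D, D', h, h', he => by
      have h1 := nv_lt l (fun i => b i.succ) (fun i => D i.succ) (fun i => h i.succ)
      have h2 := nv_lt l (fun i => b i.succ) (fun i => D' i.succ) (fun i => h' i.succ)
      have hP : 0 < ∏ i : Fin l, b i.succ := lt_of_le_of_lt (Nat.zero_le _) h1
      unfold nv at he
      have e0 : D 0 = D' 0 := by
        have a1 : (D 0 * (∏ i : Fin l, b i.succ) + nv l (fun i => b i.succ) (fun i => D i.succ)) /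
            (∏ i : Fin l, b i.succ) = D 0 := by
          rw [mul_comm, Nat.mul_add_div hP, Nat.div_eq_of_lt h1, add_zero]
        have a2 : (D' 0 * (∏ i : Fin l, b i.succ) + nv l (fun i => b i.succ) (fun i => D' i.succ)) /
            (∏ i : Fin l, b i.succ) = D' 0 := by
          rw [mul_comm, Nat.mul_add_div hP, Nat.div_eq_of_lt h2, add_zero]
        rw [← a1, he, a2]
      rw [e0] at he
      have h3 := nv_inj l _ _ _ (fun i => h i.succ) (fun i => h' i.succ) (Nat.add_left_cancel he)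
      funext i
      refine Fin.cases e0 (fun i => ?_) i
      exact congrFun h3 i

theorem orb_nv (Q : ℕ → ℕ) (x : ℝ) : ∀ (l n : ℕ), orb Q x n * ∏ i : Fin l, (Q (n + i) : ℝ) =
    nv l (fun i => Q (n + i)) (fun i => dig Q x (n + i)) + orb Q x (n + l)
  | 0, n => by simp [nv]
  | (l + 1), n => by
      have ih := orb_nv Q x l (n + 1)
      have hi : ∀ i : Fin l, n + ((i.succ : Fin (l + 1)) : ℕ) = n + 1 + i := by
        intro i; rw [Fin.val_succ]; ring
      have h1 := dig_add Q x n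
      rw [Fin.prod_univ_succ]
      unfold nv
      simp only [hi, Fin.val_zero, add_zero]
      push_cast
      calc orb Q x n * ((Q n : ℝ) * ∏ i : Fin l, (Q (n + 1 + i) : ℝ))
          = ((Q n : ℝ) * orb Q x n) * ∏ i : Fin l, (Q (n + 1 + i) : ℝ) := by ring
        _ = dig Q x n * ∏ i : Fin l, (Q (n + 1 + i) : ℝ) +
            orb Q x (n + 1) * ∏ i : Fin l, (Q (n + 1 + i) : ℝ) := by rw [h1]; ring
        _ = _ := by rw [ih, show n + 1 + l = n + (l + 1) by ring]; ring

section
variable {α : Type} [Fintype α] {B : ℕ} {val : α → ℕ} {z : ℕ → α} {mu : ∀ n, (Fin n → α) → ℝ}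

open scoped Classical in
/-- counting bound with an error of `2 ^ (-l)` -/
theorem ubound (hG : Gen B val z mu) (ds : ℕ → Fin B)
    (hjoint : ∀ n (V : Fin n → α) (D : Fin n → Fin B),
      Tendsto (frq (fun j => (z j, ds j)) (fun i => (V i, D i))) atTop (𝓝 (mu n V * uu val V D)))
    (l : ℕ) (τ : ℝ) (E : ℕ → Prop) (K : (Fin l → α) → Finset (Fin l → Fin B))
    (hK : ∀ V, ∀ D ∈ K V, ∀ i, (D i : ℕ) < val (V i))
    (hcard : ∀ V, ((K V).card : ℝ) ≤ τ * (∏ i, (val (V i) : ℝ)) + 1)
    (hE : ∀ n, E n → (fun i : Fin l => ds (n + i)) ∈ K (fun i : Fin l => z (n + i)))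
    (ε : ℝ) (hε : 0 < ε) :
    ∀ᶠ T : ℕ in atTop, (∑ n ∈ range T, if E n then (1 : ℝ) else 0) / T ≤ τ + 1 / 2 ^ l + ε := by
  have hmu := pmf_lim z (mu l) (hG.lim l)
  have hlim : Tendsto (fun T => ∑ V, ∑ D ∈ K V, frq (fun j => (z j, ds j)) (fun i => (V i, D i)) T)
      atTop (𝓝 (∑ V, ∑ D ∈ K V, mu l V * uu val V D)) :=
    tendsto_finsetSum _ fun V _ => tendsto_finsetSum _ fun D _ => hjoint l V D
  have hP : ∀ V : Fin l → α, (2 : ℝ) ^ l ≤ ∏ i, (val (V i) : ℝ) := by
    intro V
    calc (2 : ℝ) ^ l = ∏ i : Fin l, (2 : ℝ) := by simp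
      _ ≤ ∏ i, (val (V i) : ℝ) := Finset.prod_le_prod (fun i _ => by norm_num)
          (fun i _ => by exact_mod_cast hG.two (V i))
  have hbound : ∑ V, ∑ D ∈ K V, mu l V * uu val V D ≤ τ + 1 / 2 ^ l := by
    have h1 : ∀ V ∈ (Finset.univ : Finset (Fin l → α)), ∑ D ∈ K V, mu l V * uu val V D ≤
        mu l V * (τ + 1 / 2 ^ l) := by
      intro V _
      rw [← Finset.mul_sum]
      refine mul_le_mul_of_nonneg_left ?_ (hmu.1 V)
      have hP0 : (0 : ℝ) < ∏ i, (val (V i) : ℝ) := lt_of_lt_of_le (by positivity) (hP V)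
      have h2 : ∀ D ∈ K V, uu val V D = (∏ i, (val (V i) : ℝ))⁻¹ := by
        intro D hD
        unfold uu
        rw [if_pos (hK V D hD)]
      rw [Finset.sum_congr rfl h2, Finset.sum_const, nsmul_eq_mul, ← div_eq_mul_inv,
        div_le_iff₀ hP0]
      refine (hcard V).trans ?_
      have h3 : 1 ≤ 1 / 2 ^ l * ∏ i, (val (V i) : ℝ) := by
        rw [one_div, ← div_eq_inv_mul, le_div_iff₀ (by positivity), one_mul]
        exact hP V
      linarith
    calc _ ≤ ∑ V, mu l V * (τ + 1 / 2 ^ l) := Finset.sum_le_sum h1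
      _ = τ + 1 / 2 ^ l := by rw [← Finset.sum_mul, hmu.2, one_mul]
  have hev := hlim.eventually_lt_const (show _ < τ + 1 / 2 ^ l + ε by linarith)
  filter_upwards [hev] with T hT
  refine le_trans ?_ hT.le
  have e1 : ∑ V, ∑ D ∈ K V, frq (fun j => (z j, ds j)) (fun i => (V i, D i)) T =
      (∑ n ∈ range T, ∑ V, ∑ D ∈ K V, gg (fun j => (z j, ds j)) (fun i => (V i, D i)) n) / T := by
    simp_rw [frq_eq]
    rw [Finset.sum_comm' (t' := Finset.univ) (s' := fun _ => range T) (by simp)]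
    rw [Finset.sum_div]
    refine Finset.sum_congr rfl fun V _ => ?_
    rw [← Finset.sum_div, Finset.sum_comm]
  rw [e1]
  refine div_le_div_of_nonneg_right (Finset.sum_le_sum fun n _ => ?_) (Nat.cast_nonneg _)
  by_cases h : E n
  · rw [if_pos h]
    have h1 : (1 : ℝ) = gg (fun j => (z j, ds j))
        (fun i : Fin l => (z (n + i), ds (n + i))) n := by
      unfold gg
      rw [if_pos (fun i => rfl)]
    rw [h1]
    calc _ ≤ ∑ D ∈ K (fun i : Fin l => z (n + i)),
          gg (fun j => (z j, ds j)) (fun i => (z (n + i), D i)) n :=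
          Finset.single_le_sum (f := fun D : Fin l → Fin B =>
            gg (fun j => (z j, ds j)) (fun i => (z (n + i), D i)) n)
            (fun D _ => gg_nonneg _ _ _) (hE n h)
      _ ≤ _ := Finset.single_le_sum (f := fun V : Fin l → α => ∑ D ∈ K V,
            gg (fun j => (z j, ds j)) (fun i => (V i, D i)) n)
            (fun V _ => Finset.sum_nonneg fun D _ => gg_nonneg _ _ _) (Finset.mem_univ _)
  · rw [if_neg h]
    exact Finset.sum_nonneg fun V _ => Finset.sum_nonneg fun D _ => gg_nonneg _ _ _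

end

theorem t_C3 (_c0 : S_C0) : S_C3 := by
  classical
  intro α _ B val z mu hG x hx0 hx1 ds hds hjoint
  have hQ : ∀ n, 2 ≤ (fun j => val (z j)) n := fun n => hG.two _
  refine ⟨hx0, hx1, ?_⟩
  set Q : ℕ → ℕ := fun j => val (z j) with hQd
  -- windows and the orbit
  have horb : ∀ (l n : ℕ), orb Q x n * ∏ i : Fin l, (val (z (n + i)) : ℝ) =
      nv l (fun i : Fin l => val (z (n + i))) (fun i : Fin l => ((ds (n + i) : Fin B) : ℕ)) +
        orb Q x (n + l) := by
    intro l n
    have h1 := orb_nv Q x l n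
    simp_rw [hds]
    exact h1
  have hdlt : ∀ n, (ds n : ℕ) < val (z n) := fun n => by rw [hds]; exact dig_lt Q hQ x n
  have hPpos : ∀ (l : ℕ) (V : Fin l → α), (0 : ℝ) < ∏ i, (val (V i) : ℝ) := fun l V =>
    Finset.prod_pos fun i _ => by have := hG.two (V i); positivity
  -- the two counting bounds
  have up : ∀ t : ℝ, 0 ≤ t → t ≤ 1 → ∀ (l : ℕ) (ε : ℝ), 0 < ε → ∀ᶠ T : ℕ in atTop,
      (∑ n ∈ range T, if orb Q x n < t then (1 : ℝ) else 0) / T ≤ t + 1 / 2 ^ l + ε := by
    intro t ht0 ht1 l ε hε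
    refine ubound hG ds hjoint l t (fun n => orb Q x n < t)
      (fun V => univ.filter (fun D : Fin l → Fin B => (∀ i, (D i : ℕ) < val (V i)) ∧
        ((nv l (fun i => val (V i)) (fun i => (D i : ℕ)) : ℕ) : ℝ) < t * ∏ i, (val (V i) : ℝ)))
      (fun V D hD => (Finset.mem_filter.1 hD).2.1) ?_ ?_ ε hε
    · intro V
      have h0 : 0 ≤ t * ∏ i, (val (V i) : ℝ) := mul_nonneg ht0 (hPpos l V).le
      refine le_trans ?_ (Nat.ceil_lt_add_one h0).le
      have := Finset.card_le_card_of_injOn (s := univ.filter (fun D : Fin l → Fin B =>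
        (∀ i, (D i : ℕ) < val (V i)) ∧
        ((nv l (fun i => val (V i)) (fun i => (D i : ℕ)) : ℕ) : ℝ) < t * ∏ i, (val (V i) : ℝ)))
        (t := range ⌈t * ∏ i, (val (V i) : ℝ)⌉₊)
        (fun D : Fin l → Fin B => nv l (fun i => val (V i)) (fun i => (D i : ℕ))) (by
          intro D hD
          have h1 := (Finset.mem_filter.1 (Finset.mem_coe.1 hD)).2.2
          exact Finset.mem_coe.2 (Finset.mem_range.2 (Nat.lt_ceil.2 h1))) (by
          intro D hD D' hD' he
          have h1 := (Finset.mem_filter.1 (Finset.mem_coe.1 hD)).2.1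
          have h2 := (Finset.mem_filter.1 (Finset.mem_coe.1 hD')).2.1
          have h3 := nv_inj l _ _ _ h1 h2 he
          funext i
          exact Fin.ext (congrFun h3 i))
      rw [Finset.card_range] at this
      exact_mod_cast this
    · intro n hn
      rw [Finset.mem_filter]
      refine ⟨Finset.mem_univ _, fun i => hdlt _, ?_⟩
      have h1 := horb l n
      have h2 := orb_nonneg Q x (n + l)
      have h3 : orb Q x n * ∏ i : Fin l, (val (z (n + i)) : ℝ) <
          t * ∏ i : Fin l, (val (z (n + i)) : ℝ) :=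
        mul_lt_mul_of_pos_right hn (hPpos l (fun i : Fin l => z (n + i)))
      linarith
  have lo : ∀ t : ℝ, 0 ≤ t → t ≤ 1 → ∀ (l : ℕ) (ε : ℝ), 0 < ε → ∀ᶠ T : ℕ in atTop,
      (∑ n ∈ range T, if t ≤ orb Q x n then (1 : ℝ) else 0) / T ≤ (1 - t) + 1 / 2 ^ l + ε := by
    intro t ht0 ht1 l ε hε
    refine ubound hG ds hjoint l (1 - t) (fun n => t ≤ orb Q x n)
      (fun V => univ.filter (fun D : Fin l → Fin B => (∀ i, (D i : ℕ) < val (V i)) ∧
        t * ∏ i, (val (V i) : ℝ) < ((nv l (fun i => val (V i)) (fun i => (D i : ℕ)) : ℕ) : ℝ) + 1))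
      (fun V D hD => (Finset.mem_filter.1 hD).2.1) ?_ ?_ ε hε
    · intro V
      set P : ℕ := ∏ i, val (V i) with hPd
      have hPc : ∏ i, (val (V i) : ℝ) = (P : ℝ) := by rw [hPd]; push_cast; rfl
      have hP0 := hPpos l V
      rw [hPc] at hP0 ⊢
      have h0 : 0 ≤ t * (P : ℝ) := mul_nonneg ht0 hP0.le
      have := Finset.card_le_card_of_injOn (s := univ.filter (fun D : Fin l → Fin B =>
        (∀ i, (D i : ℕ) < val (V i)) ∧
        t * (P : ℝ) < ((nv l (fun i => val (V i)) (fun i => (D i : ℕ)) : ℕ) : ℝ) + 1))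
        (t := Finset.Ico ⌊t * (P : ℝ)⌋₊ P)
        (fun D : Fin l → Fin B => nv l (fun i => val (V i)) (fun i => (D i : ℕ))) (by
          intro D hD
          obtain ⟨h1, h2⟩ := (Finset.mem_filter.1 (Finset.mem_coe.1 hD)).2
          refine Finset.mem_coe.2 (Finset.mem_Ico.2 ⟨?_, nv_lt l _ _ h1⟩)
          have h3 : ⌊t * (P : ℝ)⌋₊ < nv l (fun i => val (V i)) (fun i => (D i : ℕ)) + 1 := by
            rw [Nat.floor_lt h0]
            push_cast
            exact h2
          exact Nat.lt_succ_iff.1 h3) (by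
          intro D hD D' hD' he
          have h1 := (Finset.mem_filter.1 (Finset.mem_coe.1 hD)).2.1
          have h2 := (Finset.mem_filter.1 (Finset.mem_coe.1 hD')).2.1
          have h3 := nv_inj l _ _ _ h1 h2 he
          funext i
          exact Fin.ext (congrFun h3 i))
      rw [Nat.card_Ico] at this
      have hfl : ⌊t * (P : ℝ)⌋₊ ≤ P := by
        have h1 : t * (P : ℝ) ≤ P := by nlinarith
        exact_mod_cast (Nat.floor_le h0).trans h1
      have h2 := Nat.lt_floor_add_one (t * (P : ℝ))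
      have h3 : ((P - ⌊t * (P : ℝ)⌋₊ : ℕ) : ℝ) ≤ (1 - t) * P + 1 := by
        rw [Nat.cast_sub hfl]
        linarith
      refine le_trans ?_ h3
      exact_mod_cast this
    · intro n hn
      rw [Finset.mem_filter]
      refine ⟨Finset.mem_univ _, fun i => hdlt _, ?_⟩
      have h1 := horb l n
      have h2 := orb_lt_one Q x (n + l)
      have h3 : t * ∏ i : Fin l, (val (z (n + i)) : ℝ) ≤
          orb Q x n * ∏ i : Fin l, (val (z (n + i)) : ℝ) :=
        mul_le_mul_of_nonneg_right hn (hPpos l (fun i : Fin l => z (n + i))).le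
      linarith
  -- the distribution of the orbit
  have hlim : ∀ t : ℝ, 0 ≤ t → t ≤ 1 → Tendsto (fun T : ℕ =>
      (∑ n ∈ range T, if orb Q x n < t then (1 : ℝ) else 0) / T) atTop (𝓝 t) := by
    intro t ht0 ht1
    rw [Metric.tendsto_nhds]
    intro ε hε
    obtain ⟨l, hl⟩ := exists_pow_lt_of_lt_one (show 0 < ε / 3 by linarith)
      (show (1 / 2 : ℝ) < 1 by norm_num)
    have hl' : (1 : ℝ) / 2 ^ l < ε / 3 := by rw [← one_div_pow]; exact hl
    filter_upwards [up t ht0 ht1 l (ε / 3) (by linarith), lo t ht0 ht1 l (ε / 3) (by linarith),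
      eventually_gt_atTop 0] with T h1 h2 hT
    have hT0 : (T : ℝ) ≠ 0 := by positivity
    have h3 : (∑ n ∈ range T, if orb Q x n < t then (1 : ℝ) else 0) / T +
        (∑ n ∈ range T, if t ≤ orb Q x n then (1 : ℝ) else 0) / T = 1 := by
      rw [← add_div, ← Finset.sum_add_distrib, div_eq_one_iff_eq hT0]
      have : ∀ n ∈ range T, ((if orb Q x n < t then (1 : ℝ) else 0) +
          (if t ≤ orb Q x n then (1 : ℝ) else 0)) = 1 := by
        intro n _
        by_cases h : orb Q x n < t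
        · rw [if_pos h, if_neg (not_le.2 h), add_zero]
        · rw [if_neg h, if_pos (not_lt.1 h), zero_add]
      rw [Finset.sum_congr rfl this]
      simp
    rw [Real.dist_eq, abs_lt]
    constructor <;> linarith
  have hlim1 : ∀ t : ℝ, 0 ≤ t → t ≤ 1 → Tendsto (fun T : ℕ =>
      (∑ n ∈ range T, if orb Q x (n + 1) < t then (1 : ℝ) else 0) / T) atTop (𝓝 t) := by
    intro t ht0 ht1
    have hd : Tendsto (fun T : ℕ =>
        (∑ n ∈ range T, if orb Q x (n + 1) < t then (1 : ℝ) else 0) / T -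
        (∑ n ∈ range T, if orb Q x n < t then (1 : ℝ) else 0) / T) atTop (𝓝 0) := by
      have hs : Tendsto (fun T : ℕ => ((1 : ℕ) : ℝ) / T) atTop (𝓝 0) :=
        tendsto_const_div_atTop_nhds_zero_nat _
      refine squeeze_zero_norm (fun T => ?_) hs
      rw [← sub_div, norm_div, Real.norm_eq_abs, Real.norm_eq_abs,
        abs_of_nonneg (Nat.cast_nonneg T : (0 : ℝ) ≤ T)]
      refine div_le_div_of_nonneg_right ?_ (Nat.cast_nonneg T)
      exact shift_diff (fun n => if orb Q x n < t then (1 : ℝ) else 0)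
        (fun n => by split_ifs <;> norm_num) (fun n => by split_ifs <;> norm_num) 1 T
    have := hd.add (hlim t ht0 ht1)
    simpa using this
  intro a b ha hab hb
  have h1 := (hlim1 b (ha.trans hab) hb).sub (hlim1 a ha (hab.trans hb))
  refine h1.congr fun T => ?_
  rw [← sub_div, ← Finset.sum_sub_distrib]
  congr 1
  rw [Finset.card_filter]
  push_cast
  refine Finset.sum_congr rfl fun n _ => ?_
  by_cases h2 : orb Q x (n + 1) < a
  · rw [if_pos (lt_of_lt_of_le h2 hab), if_pos h2, if_neg (fun h => absurd h.1 (not_le.2 h2)),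
      sub_self]
  · by_cases h3 : orb Q x (n + 1) < b
    · rw [if_pos h3, if_neg h2, if_pos ⟨not_lt.1 h2, h3⟩, sub_zero]
    · rw [if_neg h3, if_neg h2, if_neg (fun h => h3 h.2), sub_zero]

end Pool.Agent.Q130.CS
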