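import Pool.Agent.Q130.CS.F1

/-! Lemma D0 of project CS (structure of the parity checks). -/

open Filter Topology Finset

namespace Pool.Agent.Q130.CS
open Pool.Agent.Q62.CS

theorem IsC_congr (k : ℕ) (u u' : ℕ → ZMod 2) (h : ∀ n < len k, u n = u' n) (hu : IsC k u) :
    IsC k u' := by
  intro m hm a r har hr
  rw [← hu m hm a r har hr]
  refine Finset.sum_congr rfl fun j hj => ?_
  refine (h _ ?_).symm
  have hj' := Finset.mem_range.1 hj
  have h1 : j * len m + r < len (m + 1) := by
    rw [len_succ]
    calc j * len m + r < j * len m + len m := by omega
      _ = (j + 1) * len m := by ring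
      _ ≤ rad m * len m := Nat.mul_le_mul_right _ hj'
      _ = len m * rad m := by ring
  calc a * len (m + 1) + j * len m + r < a * len (m + 1) + len (m + 1) := by omega
    _ = (a + 1) * len (m + 1) := by ring
    _ ≤ len k := har

theorem t_D0 : S_D0 := by
  refine ⟨?_, fun k u u' h hu => IsC_congr k u u' h hu, ?_⟩
  · intro k u
    constructor
    · intro h
      refine ⟨?_, ?_⟩
      · intro j hj m hm a r har hr
        obtain ⟨L, hL⟩ := len_dvd (show m + 1 ≤ k from hm)
        have h1 := h m (by omega) (j * L + a) r (by
          calc (j * L + a + 1) * len (m + 1) = j * len k + (a + 1) * len (m + 1) := by rw [hL]; ring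
            _ ≤ j * len k + len k := by omega
            _ = (j + 1) * len k := by ring
            _ ≤ rad k * len k := Nat.mul_le_mul_right _ hj
            _ = len (k + 1) := by rw [len_succ]; ring) hr
        rw [← h1]
        refine Finset.sum_congr rfl fun i _ => ?_
        show u _ = u _
        congr 1
        rw [hL]; ring
      · intro r hr
        have h1 := h k (by omega) 0 r (by rw [Nat.zero_add, one_mul]) hr
        rw [← h1]
        refine Finset.sum_congr rfl fun i _ => ?_
        congr 1
        ring
    · rintro ⟨h1, h2⟩ m hm a r har hr
      rcases Nat.lt_or_ge m k with hmk | hmk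
      · obtain ⟨L, hL⟩ := len_dvd (show m + 1 ≤ k from hmk)
        have hl1 := len_pos' (m + 1)
        have hL0 : 0 < L := by
          rcases Nat.eq_zero_or_pos L with h | h
          · rw [h, mul_zero] at hL; have := len_pos' k; omega
          · exact h
        have ha : a + 1 ≤ L * rad k := by
          rw [len_succ k, hL, mul_assoc, mul_comm (a + 1)] at har
          exact Nat.le_of_mul_le_mul_left har hl1
        have hj : a / L < rad k := by
          rw [Nat.div_lt_iff_lt_mul hL0, mul_comm]
          omega
        have h3 := h1 (a / L) hj m hmk (a % L) r (by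
          have : a % L + 1 ≤ L := Nat.mod_lt a hL0
          calc (a % L + 1) * len (m + 1) ≤ L * len (m + 1) := Nat.mul_le_mul_right _ this
            _ = len k := by rw [hL]; ring) hr
        rw [← h3]
        refine Finset.sum_congr rfl fun i _ => ?_
        show u _ = u _
        congr 1
        have e := Nat.div_add_mod a L
        calc a * len (m + 1) + i * len m + r = (L * (a / L) + a % L) * len (m + 1) + i * len m + r := by
              rw [e]
          _ = _ := by rw [hL]; ring
      · have hmk' : m = k := by omega
        subst hmk'
        have ha : a = 0 := by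
          have h3 : (a + 1) * len (m + 1) ≤ 1 * len (m + 1) := by rw [one_mul]; exact har
          have := Nat.le_of_mul_le_mul_right h3 (len_pos' (m + 1))
          omega
        subst ha
        rw [← h2 r hr]
        refine Finset.sum_congr rfl fun i _ => ?_
        congr 1
        ring
  · intro w hw k t
    have h1 : IsC k (fun r => w (t * len k + r)) := by
      intro m hm a r har hr
      obtain ⟨L, hL⟩ := len_dvd (show m + 1 ≤ k from hm)
      rw [← hw m (t * L + a) r hr]
      refine Finset.sum_congr rfl fun i _ => ?_
      show w _ = w _
      congr 1
      rw [hL]; ring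
    refine ⟨h1, ?_⟩
    classical
    unfold C
    rw [Finset.mem_filter]
    refine ⟨Finset.mem_univ _, ?_⟩
    refine IsC_congr k _ _ (fun n hn => ?_) h1
    unfold Q62.CS.ext
    rw [dif_pos hn]
    rfl

end Pool.Agent.Q130.CS
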