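import Pool.Agent.Q130.CS.D0

/-! Lemma D1 of project CS (number of codewords). -/

open Filter Topology Finset

namespace Pool.Agent.Q130.CS
open Pool.Agent.Q62.CS

/-- subblock of a codeword -/
def sb (k a : ℕ) (v : Fin (len (k + 1)) → ZMod 2) : Fin (len k) → ZMod 2 :=
  fun r => Q62.CS.ext (k + 1) v (a * len k + r)

theorem mem_C (k : ℕ) (v : Fin (len k) → ZMod 2) : v ∈ C k ↔ IsC k (Q62.CS.ext k v) := by
  classical
  unfold C
  rw [Finset.mem_filter]
  simp

theorem ext_sb (k a r : ℕ) (v : Fin (len (k + 1)) → ZMod 2) (hr : r < len k) :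
    Q62.CS.ext k (sb k a v) r = Q62.CS.ext (k + 1) v (a * len k + r) := by
  rw [show Q62.CS.ext k (sb k a v) r = sb k a v ⟨r, hr⟩ from dif_pos hr]
  rfl

theorem mem_C_succ (k : ℕ) (v : Fin (len (k + 1)) → ZMod 2) : v ∈ C (k + 1) ↔
    (∀ a < rad k, sb k a v ∈ C k) ∧
      ∀ r < len k, ∑ a ∈ range (rad k), Q62.CS.ext (k + 1) v (a * len k + r) = 0 := by
  rw [mem_C, (t_D0.1 k _)]
  refine and_congr_left fun _ => forall_congr' fun a => forall_congr' fun ha => ?_
  rw [mem_C]
  constructor
  · exact IsC_congr k _ _ fun n hn => (ext_sb k a n v hn).symm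
  · exact IsC_congr k _ _ fun n hn => ext_sb k a n v hn

theorem C_zero_mem (k : ℕ) : (0 : Fin (len k) → ZMod 2) ∈ C k := by
  rw [mem_C]
  intro m _ a r _ _
  refine Finset.sum_eq_zero fun j _ => ?_
  unfold Q62.CS.ext
  split_ifs <;> rfl

theorem C_add_mem (k : ℕ) (v v' : Fin (len k) → ZMod 2) (hv : v ∈ C k) (hv' : v' ∈ C k) :
    v + v' ∈ C k := by
  rw [mem_C] at *
  intro m hm a r har hr
  have h1 : ∀ n, Q62.CS.ext k (v + v') n = Q62.CS.ext k v n + Q62.CS.ext k v' n := by
    intro n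
    unfold Q62.CS.ext
    by_cases h : n < len k
    · rw [dif_pos h, dif_pos h, dif_pos h]; rfl
    · rw [dif_neg h, dif_neg h, dif_neg h, add_zero]
  simp_rw [h1]
  rw [Finset.sum_add_distrib, hv m hm a r har hr, hv' m hm a r har hr, add_zero]

theorem C_sum_mem (k : ℕ) {ι : Type} (s : Finset ι) (y : ι → Fin (len k) → ZMod 2)
    (h : ∀ i ∈ s, y i ∈ C k) : ∑ i ∈ s, y i ∈ C k := by
  classical
  induction s using Finset.induction_on with
  | empty => rw [Finset.sum_empty]; exact C_zero_mem k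
  | insert i s hi ih =>
    rw [Finset.sum_insert hi]
    exact C_add_mem k _ _ (h i (Finset.mem_insert_self _ _))
      (ih fun j hj => h j (Finset.mem_insert_of_mem hj))

theorem C_card_succ (k : ℕ) : (C (k + 1)).card = (C k).card ^ (rad k - 1) := by
  classical
  obtain ⟨R, hR⟩ : ∃ R, rad k = R + 1 := ⟨rad k - 1, by have := rad_ge k; omega⟩
  have hlk := len_pos' k
  have hR1 : rad k - 1 = R := by omega
  rw [hR1]
  have hpi : (Fintype.piFinset (fun _ : Fin R => C k)).card = (C k).card ^ R := by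
    rw [Fintype.card_piFinset]; simp
  rw [← hpi]
  refine Finset.card_bij (fun v _ => fun a : Fin R => sb k a v) ?_ ?_ ?_
  · intro v hv
    rw [Fintype.mem_piFinset]
    intro a
    exact ((mem_C_succ k v).1 hv).1 a (by omega)
  · intro v hv v' hv' h
    have h1 : ∀ a, a < R → ∀ r, r < len k → Q62.CS.ext (k + 1) v (a * len k + r) =
        Q62.CS.ext (k + 1) v' (a * len k + r) := by
      intro a ha r hr
      exact congrFun (congrFun h ⟨a, ha⟩) ⟨r, hr⟩
    have h2 : ∀ r, r < len k → Q62.CS.ext (k + 1) v (R * len k + r) =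
        Q62.CS.ext (k + 1) v' (R * len k + r) := by
      intro r hr
      have e1 := ((mem_C_succ k v).1 hv).2 r hr
      have e2 := ((mem_C_succ k v').1 hv').2 r hr
      rw [hR, Finset.sum_range_succ] at e1 e2
      have e3 : ∑ a ∈ range R, Q62.CS.ext (k + 1) v (a * len k + r) =
          ∑ a ∈ range R, Q62.CS.ext (k + 1) v' (a * len k + r) :=
        Finset.sum_congr rfl fun a ha => h1 a (Finset.mem_range.1 ha) r hr
      rw [e3, ← e2] at e1
      exact add_left_cancel e1
    funext n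
    have hn := n.2
    have ha : (n : ℕ) / len k < R + 1 := by
      rw [Nat.div_lt_iff_lt_mul hlk, ← hR]
      calc (n : ℕ) < len (k + 1) := hn
        _ = rad k * len k := by rw [len_succ]; ring
    have h3 : Q62.CS.ext (k + 1) v ((n : ℕ) / len k * len k + (n : ℕ) % len k) =
        Q62.CS.ext (k + 1) v' ((n : ℕ) / len k * len k + (n : ℕ) % len k) := by
      rcases Nat.lt_or_ge ((n : ℕ) / len k) R with h4 | h4
      · exact h1 _ h4 _ (Nat.mod_lt _ hlk)
      · have : (n : ℕ) / len k = R := by omega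
        rw [this]
        exact h2 _ (Nat.mod_lt _ hlk)
    rw [Nat.div_add_mod'] at h3
    unfold Q62.CS.ext at h3
    rw [dif_pos hn, dif_pos hn] at h3
    exact h3
  · intro y hy
    rw [Fintype.mem_piFinset] at hy
    let v : Fin (len (k + 1)) → ZMod 2 := fun n =>
      if h : (n : ℕ) / len k < R then y ⟨(n : ℕ) / len k, h⟩ ⟨(n : ℕ) % len k, Nat.mod_lt _ hlk⟩
        else (∑ a, y a) ⟨(n : ℕ) % len k, Nat.mod_lt _ hlk⟩
    have hdiv : ∀ a r, r < len k → (a * len k + r) / len k = a := by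
      intro a r hr
      rw [mul_comm, Nat.mul_add_div hlk, Nat.div_eq_of_lt hr, add_zero]
    have hmod : ∀ a r, r < len k → (a * len k + r) % len k = r := by
      intro a r hr
      rw [mul_comm, Nat.mul_add_mod, Nat.mod_eq_of_lt hr]
    have hv1 : ∀ (a : ℕ) (ha : a < R) (r : ℕ) (hr : r < len k),
        Q62.CS.ext (k + 1) v (a * len k + r) = y ⟨a, ha⟩ ⟨r, hr⟩ := by
      intro a ha r hr
      have hlt := pos_lt_of k a r (by omega) hr
      unfold Q62.CS.ext
      rw [dif_pos hlt]
      show (if h : (a * len k + r) / len k < R then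
        y ⟨(a * len k + r) / len k, h⟩ ⟨(a * len k + r) % len k, Nat.mod_lt _ hlk⟩
        else (∑ a, y a) ⟨(a * len k + r) % len k, Nat.mod_lt _ hlk⟩) = y ⟨a, ha⟩ ⟨r, hr⟩
      rw [dif_pos (by rw [hdiv a r hr]; exact ha)]
      have f1 : (⟨(a * len k + r) / len k, by rw [hdiv a r hr]; exact ha⟩ : Fin R) = ⟨a, ha⟩ :=
        Fin.ext (hdiv a r hr)
      have f2 : (⟨(a * len k + r) % len k, Nat.mod_lt _ hlk⟩ : Fin (len k)) = ⟨r, hr⟩ :=
        Fin.ext (hmod a r hr)
      rw [f1, f2]
    have hv2 : ∀ (r : ℕ) (hr : r < len k),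
        Q62.CS.ext (k + 1) v (R * len k + r) = (∑ a, y a) ⟨r, hr⟩ := by
      intro r hr
      have hlt := pos_lt_of k R r (by omega) hr
      unfold Q62.CS.ext
      rw [dif_pos hlt]
      show (if h : (R * len k + r) / len k < R then
        y ⟨(R * len k + r) / len k, h⟩ ⟨(R * len k + r) % len k, Nat.mod_lt _ hlk⟩
        else (∑ a, y a) ⟨(R * len k + r) % len k, Nat.mod_lt _ hlk⟩) = (∑ a, y a) ⟨r, hr⟩
      rw [dif_neg (by rw [hdiv R r hr]; omega)]
      have f2 : (⟨(R * len k + r) % len k, Nat.mod_lt _ hlk⟩ : Fin (len k)) = ⟨r, hr⟩ :=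
        Fin.ext (hmod R r hr)
      rw [f2]
    refine ⟨v, ?_, ?_⟩
    · rw [mem_C_succ]
      refine ⟨?_, ?_⟩
      · intro a ha
        rcases Nat.lt_or_ge a R with h4 | h4
        · have : sb k a v = y ⟨a, h4⟩ := by
            funext r
            exact hv1 a h4 r r.2
          rw [this]
          exact hy _
        · have ha' : a = R := by omega
          subst ha'
          have : sb k a v = ∑ b, y b := by
            funext r
            exact hv2 r r.2
          rw [this]
          exact C_sum_mem k _ _ fun b _ => hy b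
      · intro r hr
        rw [hR, Finset.sum_range_succ, hv2 r hr, Finset.sum_range]
        have : ∑ a : Fin R, Q62.CS.ext (k + 1) v (a * len k + r) = ∑ a : Fin R, y a ⟨r, hr⟩ :=
          Finset.sum_congr rfl fun a _ => hv1 a a.2 r hr
        rw [this, Finset.sum_apply]
        exact CharTwo.add_self_eq_zero _
    · funext a r
      exact hv1 a a.2 r r.2
where
  pos_lt_of (k a i : ℕ) (ha : a < rad k) (hi : i < len k) : a * len k + i < len (k + 1) := by
    rw [len_succ]
    calc a * len k + i < a * len k + len k := by omega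
      _ = (a + 1) * len k := by ring
      _ ≤ rad k * len k := Nat.mul_le_mul_right _ ha
      _ = len k * rad k := by ring

theorem C_card_pos (k : ℕ) : 0 < (C k).card := Finset.card_pos.2 ⟨_, C_zero_mem k⟩

theorem C_card_zero : (C 0).card = 2 := by
  have : C 0 = Finset.univ := by
    ext v
    rw [mem_C]
    simp only [Finset.mem_univ, iff_true]
    intro m hm
    omega
  rw [this, Finset.card_univ]
  show Fintype.card (Fin 1 → ZMod 2) = 2
  simp [ZMod.card]

/-- the entropy per letter -/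
noncomputable def aa (k : ℕ) : ℝ := Real.log (C k).card / (2 * len k)

theorem aa_succ (k : ℕ) : aa (k + 1) = (1 - 1 / 2 ^ (k + 2)) * aa k := by
  unfold aa
  have h1 : ((rad k - 1 : ℕ) : ℝ) = 2 ^ (k + 2) - 1 := by
    rw [Nat.cast_sub (rad_pos k)]
    unfold rad; push_cast; ring
  have h2 : ((len (k + 1) : ℕ) : ℝ) = 2 ^ (k + 2) * len k := by
    rw [len_succ]; unfold rad; push_cast; ring
  have h3 : (len k : ℝ) ≠ 0 := by have := len_pos' k; positivity
  rw [C_card_succ, Nat.cast_pow, Real.log_pow, h1, h2]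
  field_simp

theorem aa_low (k : ℕ) : Real.log 2 / 2 * (1 / 2 + 1 / 2 ^ (k + 1)) ≤ aa k := by
  induction k with
  | zero =>
    unfold aa
    rw [C_card_zero]
    simp [len]
    norm_num
  | succ k ih =>
    rw [aa_succ]
    have hx : (0 : ℝ) < 1 / 2 ^ k := by positivity
    have hx1 : (1 : ℝ) / 2 ^ k ≤ 1 := by
      rw [div_le_one (by positivity)]
      exact one_le_pow₀ (by norm_num)
    have e1 : (1 : ℝ) / 2 ^ (k + 2) = 1 / 2 ^ k / 4 := by rw [pow_add]; field_simp; norm_num
    have e2 : (1 : ℝ) / 2 ^ (k + 1) = 1 / 2 ^ k / 2 := by rw [pow_add]; field_simp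
    rw [e1]
    rw [e2] at ih
    set x := (1 : ℝ) / 2 ^ k with hxd
    have hlog : 0 < Real.log 2 := Real.log_pos (by norm_num)
    have h1 : (0 : ℝ) ≤ 1 - x / 4 := by linarith
    calc Real.log 2 / 2 * (1 / 2 + x / 4) ≤ Real.log 2 / 2 * ((1 - x / 4) * (1 / 2 + x / 2)) := by
          refine mul_le_mul_of_nonneg_left ?_ (by positivity)
          nlinarith
      _ = (1 - x / 4) * (Real.log 2 / 2 * (1 / 2 + x / 2)) := by ring
      _ ≤ (1 - x / 4) * aa k := mul_le_mul_of_nonneg_left ih h1

theorem t_D1 (_d0 : S_D0) : S_D1 := by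
  refine ⟨C_card_pos, ?_⟩
  have hlog : 0 < Real.log 2 := Real.log_pos (by norm_num)
  have hlow : ∀ k, Real.log 2 / 4 ≤ aa k := by
    intro k
    refine le_trans ?_ (aa_low k)
    have : (0 : ℝ) < 1 / 2 ^ (k + 1) := by positivity
    nlinarith
  have hanti : Antitone aa := by
    refine antitone_nat_of_succ_le fun k => ?_
    rw [aa_succ]
    have h1 : 0 ≤ aa k := le_trans (by positivity) (hlow k)
    have h2 : (0 : ℝ) < 1 / 2 ^ (k + 2) := by positivity
    nlinarith
  have hbdd : BddBelow (Set.range aa) := ⟨Real.log 2 / 4, by rintro _ ⟨k, rfl⟩; exact hlow k⟩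
  refine ⟨⨅ k, aa k, ?_, tendsto_atTop_ciInf hanti hbdd⟩
  exact lt_of_lt_of_le (by positivity) (le_ciInf hlow)

end Pool.Agent.Q130.CS
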