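import Pool.Agent.Q130.CS.D3
import Pool.Agent.Q130.CS.D0

/-! Lemma D2 of project CS (decoding). -/

open Filter Topology Finset

namespace Pool.Agent.Q130.CS
open Pool.Agent.Q62.CS

theorem er_shift (x : ℕ → ℕ) (N a : ℕ) :
    (fun i => er x (a * N + i)) = er (fun i => x (a * (2 * N) + i)) := by
  funext i
  unfold er
  rw [show 2 * (a * N + i) = a * (2 * N) + 2 * i by ring,
    show a * (2 * N) + 2 * i + 1 = a * (2 * N) + (2 * i + 1) by ring]

theorem dec (k : ℕ) : ∀ (x : ℕ → ℕ) (v v' : ℕ → ZMod 2), IsC k v → IsC k v' →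
    (∀ i < 2 * len k, x i < val (man v i)) → (∀ i < 2 * len k, x i < val (man v' i)) →
    ∀ r < len k, ¬ und k (er x) r → v r = v' r := by
  classical
  induction k with
  | zero =>
    intro x v v' _ _ hx hx' r hr hu
    have hr0 : r = 0 := by have : len 0 = 1 := rfl; omega
    subst hr0
    have h2 : 2 * len 0 = 2 := rfl
    have a0 := hx 0 (by omega)
    have a1 := hx 1 (by omega)
    have b0 := hx' 0 (by omega)
    have b1 := hx' 1 (by omega)
    have hm0 : ∀ u : ℕ → ZMod 2, man u 0 = u 0 := by
      intro u
      show u (0 / 2) + ((0 : ℕ) : ZMod 2) = u 0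
      simp
    have hm1 : ∀ u : ℕ → ZMod 2, man u 1 = u 0 + 1 := by
      intro u
      show u (1 / 2) + ((1 : ℕ) : ZMod 2) = u 0 + 1
      simp
    rw [hm0] at a0 b0
    rw [hm1] at a1 b1
    have hu' : ¬ (x 0 < 2 ∧ x 1 < 2) := hu
    have key : ∀ c : ZMod 2, ∀ m : ℕ, m < val c → ¬ m < 2 → c = 1 := by
      intro c m h1 h3
      unfold Q62.CS.val at h1
      split_ifs at h1 with h
      · exact h
      · exact absurd h1 h3
    by_cases h0 : x 0 < 2
    · have h1 : ¬ x 1 < 2 := fun h => hu' ⟨h0, h⟩
      have c1 := key _ _ a1 h1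
      have c2 := key _ _ b1 h1
      exact add_right_cancel (c1.trans c2.symm)
    · exact (key _ _ a0 h0).trans (key _ _ b0 h0).symm
  | succ k ih =>
    intro x v v' hv hv' hx hx' p hp hu
    obtain ⟨s1, s2⟩ := (t_D0.1 k v).1 hv
    obtain ⟨s1', s2'⟩ := (t_D0.1 k v').1 hv'
    have ha1 : p / len k < rad k := by
      rw [Nat.div_lt_iff_lt_mul (len_pos' k)]
      rw [len_succ] at hp
      rw [mul_comm]; exact hp
    have hr1 : p % len k < len k := Nat.mod_lt _ (len_pos' k)
    -- subblocks
    have hsubb : ∀ a < rad k, ¬ und k (fun i => er x (a * len k + i)) (p % len k) →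
        v (a * len k + p % len k) = v' (a * len k + p % len k) := by
      intro a ha hua
      rw [er_shift] at hua
      refine ih (fun i => x (a * (2 * len k) + i)) (fun r => v (a * len k + r))
        (fun r => v' (a * len k + r)) (s1 a ha) (s1' a ha) ?_ ?_ _ hr1 hua
      · intro i hi
        rw [← man_shift]
        exact hx _ (pos_lt2 k a i ha hi)
      · intro i hi
        rw [← man_shift]
        exact hx' _ (pos_lt2 k a i ha hi)
    have hpe : p / len k * len k + p % len k = p := Nat.div_add_mod' p (len k)
    by_cases hA : und k (fun i => er x (p / len k * len k + i)) (p % len k)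
    · have hB : ∀ b < rad k, b ≠ p / len k → ¬ und k (fun i => er x (b * len k + i)) (p % len k) := by
        intro b hb hba hub
        exact hu ⟨hA, b, hb, hba, hub⟩
      have e1 := s2 (p % len k) hr1
      have e2 := s2' (p % len k) hr1
      have ham : p / len k ∈ range (rad k) := Finset.mem_range.2 ha1
      rw [← Finset.add_sum_erase _ _ ham] at e1 e2
      have e3 : ∑ b ∈ (range (rad k)).erase (p / len k), v (b * len k + p % len k) =
          ∑ b ∈ (range (rad k)).erase (p / len k), v' (b * len k + p % len k) := by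
        refine Finset.sum_congr rfl fun b hb => ?_
        obtain ⟨h1, h2⟩ := Finset.mem_erase.1 hb
        exact hsubb b (Finset.mem_range.1 h2) (hB b (Finset.mem_range.1 h2) h1)
      rw [e3, ← e2] at e1
      have := add_right_cancel e1
      rw [hpe] at this
      exact this
    · have := hsubb _ ha1 hA
      rw [hpe] at this
      exact this

theorem t_D2 (_d0 : S_D0) : S_D2 := fun k => dec k

end Pool.Agent.Q130.CS
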