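import Pool.Agent.Q130.CS.F1

/-! Lemma D3 of project CS (erasure probability of the iterated parity check decoder). -/

open Filter Topology Finset

namespace Pool.Agent.Q130.CS
open Pool.Agent.Q62.CS

theorem man_shift (w : ℕ → ZMod 2) (N t q : ℕ) :
    man w (t * (2 * N) + q) = man (fun r => w (t * N + r)) q := by
  unfold man
  have e1 : (t * (2 * N) + q) / 2 = t * N + q / 2 := by
    have : t * (2 * N) = 2 * (t * N) := by ring
    rw [this]; omega
  have e2 : ((t * (2 * N) + q : ℕ) : ZMod 2) = (q : ZMod 2) := by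
    have h2 : (2 : ZMod 2) = 0 := by decide
    push_cast
    rw [h2]; ring
  rw [e1, e2]

theorem pos_lt (k a i : ℕ) (ha : a < rad k) (hi : i < len k) : a * len k + i < len (k + 1) := by
  rw [len_succ]
  calc a * len k + i < a * len k + len k := by omega
    _ = (a + 1) * len k := by ring
    _ ≤ rad k * len k := Nat.mul_le_mul_right _ ha
    _ = len k * rad k := by ring

theorem pos_lt2 (k a i : ℕ) (ha : a < rad k) (hi : i < 2 * len k) :
    a * (2 * len k) + i < 2 * len (k + 1) := by
  rw [len_succ]
  calc a * (2 * len k) + i < a * (2 * len k) + 2 * len k := by omega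
    _ = (a + 1) * (2 * len k) := by ring
    _ ≤ rad k * (2 * len k) := Nat.mul_le_mul_right _ ha
    _ = 2 * (len k * rad k) := by ring

theorem und_congr : ∀ (k : ℕ) (e e' : ℕ → Prop), (∀ i < len k, (e i ↔ e' i)) →
    ∀ r < len k, (und k e r ↔ und k e' r)
  | 0, e, e', h, r, hr => h r hr
  | (k + 1), e, e', h, p, hp => by
      have h1 : p / len k < rad k := by
        rw [Nat.div_lt_iff_lt_mul (len_pos' k)]
        rw [len_succ] at hp
        rw [mul_comm]; exact hp
      have h2 : p % len k < len k := Nat.mod_lt _ (len_pos' k)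
      unfold und
      refine and_congr ?_ (exists_congr fun a => and_congr_right fun ha => and_congr_right fun _ => ?_)
      · exact und_congr k _ _ (fun i hi => h _ (pos_lt k _ i h1 hi)) _ h2
      · exact und_congr k _ _ (fun i hi => h _ (pos_lt k _ i ha hi)) _ h2

/-- subblock of a digit block -/
def sub (k a : ℕ) (x : Fin (2 * len (k + 1)) → Fin 16) : Fin (2 * len k) → Fin 16 :=
  fun i => exd (k + 1) x (a * (2 * len k) + i)

theorem exd_sub (k a i : ℕ) (x : Fin (2 * len (k + 1)) → Fin 16) (hi : i < 2 * len k) :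
    exd k (sub k a x) i = exd (k + 1) x (a * (2 * len k) + i) := by
  unfold exd sub
  rw [dif_pos hi]
  rfl

theorem er_sub (k a : ℕ) (x : Fin (2 * len (k + 1)) → Fin 16) (i : ℕ) (hi : i < len k) :
    er (fun n => (exd (k + 1) x n : ℕ)) (a * len k + i) ↔ er (fun n => (exd k (sub k a x) n : ℕ)) i := by
  unfold er
  simp only
  rw [exd_sub k a (2 * i) x (by omega), exd_sub k a (2 * i + 1) x (by omega),
    show 2 * (a * len k + i) = a * (2 * len k) + 2 * i by ring,
    show a * (2 * len k) + 2 * i + 1 = a * (2 * len k) + (2 * i + 1) by ring]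

open scoped Classical in
theorem prodcard (k : ℕ) (S : ℕ → Finset (Fin (2 * len k) → Fin 16)) :
    (univ.filter (fun x : Fin (2 * len (k + 1)) → Fin 16 => ∀ a < rad k, sub k a x ∈ S a)).card =
      ∏ a ∈ range (rad k), (S a).card := by
  rw [Finset.prod_range, ← Fintype.card_piFinset (fun a : Fin (rad k) => S a)]
  have hM : 0 < 2 * len k := by have := len_pos' k; omega
  refine Finset.card_bij (fun x _ => fun a : Fin (rad k) => sub k a x) ?_ ?_ ?_
  · intro x hx
    rw [Fintype.mem_piFinset]
    intro a
    exact (Finset.mem_filter.1 hx).2 a a.2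
  · intro x _ x' _ h
    funext n
    have hn := n.2
    have ha : (n : ℕ) / (2 * len k) < rad k := by
      rw [Nat.div_lt_iff_lt_mul hM]
      calc (n : ℕ) < 2 * len (k + 1) := hn
        _ = rad k * (2 * len k) := by rw [len_succ]; ring
    have h1 := congrFun (congrFun h ⟨(n : ℕ) / (2 * len k), ha⟩) ⟨(n : ℕ) % (2 * len k), Nat.mod_lt _ hM⟩
    have h2 : exd (k + 1) x ((n : ℕ) / (2 * len k) * (2 * len k) + (n : ℕ) % (2 * len k)) =
        exd (k + 1) x' ((n : ℕ) / (2 * len k) * (2 * len k) + (n : ℕ) % (2 * len k)) := h1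
    rw [Nat.div_add_mod'] at h2
    unfold exd at h2
    rw [dif_pos hn, dif_pos hn] at h2
    exact h2
  · intro y hy
    rw [Fintype.mem_piFinset] at hy
    let x : Fin (2 * len (k + 1)) → Fin 16 := fun n =>
      if h : (n : ℕ) / (2 * len k) < rad k then
        y ⟨(n : ℕ) / (2 * len k), h⟩ ⟨(n : ℕ) % (2 * len k), Nat.mod_lt _ hM⟩ else 0
    have hx : ∀ a : Fin (rad k), sub k a x = y a := by
      intro a
      funext i
      have hlt := pos_lt2 k a i a.2 i.2
      have e1 : ((a : ℕ) * (2 * len k) + (i : ℕ)) / (2 * len k) = a := by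
        rw [mul_comm, Nat.mul_add_div hM, Nat.div_eq_of_lt i.2, add_zero]
      have e2 : ((a : ℕ) * (2 * len k) + (i : ℕ)) % (2 * len k) = i := by
        rw [mul_comm, Nat.mul_add_mod, Nat.mod_eq_of_lt i.2]
      unfold sub exd
      rw [dif_pos hlt]
      show (if h : ((a : ℕ) * (2 * len k) + (i : ℕ)) / (2 * len k) < rad k then
        y ⟨((a : ℕ) * (2 * len k) + (i : ℕ)) / (2 * len k), h⟩
          ⟨((a : ℕ) * (2 * len k) + (i : ℕ)) % (2 * len k), Nat.mod_lt _ hM⟩ else 0) = y a i
      rw [dif_pos (by rw [e1]; exact a.2)]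
      have f1 : (⟨((a : ℕ) * (2 * len k) + (i : ℕ)) / (2 * len k), by rw [e1]; exact a.2⟩ :
        Fin (rad k)) = a := Fin.ext e1
      have f2 : (⟨((a : ℕ) * (2 * len k) + (i : ℕ)) % (2 * len k), Nat.mod_lt _ hM⟩ :
        Fin (2 * len k)) = i := Fin.ext e2
      rw [f1, f2]
    refine ⟨x, ?_, ?_⟩
    · rw [Finset.mem_filter]
      refine ⟨Finset.mem_univ _, fun a ha => ?_⟩
      have := hx ⟨a, ha⟩
      have h2 : sub k a x = y ⟨a, ha⟩ := this
      rw [h2]
      exact hy ⟨a, ha⟩
    · funext a
      exact hx a

open scoped Classical in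
/-- compatible digit blocks -/
noncomputable def CP (k : ℕ) (v : ℕ → ZMod 2) : Finset (Fin (2 * len k) → Fin 16) :=
  univ.filter (fun x => ∀ i, (x i : ℕ) < val (man v i))

open scoped Classical in
/-- compatible digit blocks with unrecovered position -/
noncomputable def UD (k : ℕ) (v : ℕ → ZMod 2) (r : ℕ) : Finset (Fin (2 * len k) → Fin 16) :=
  univ.filter (fun x => (∀ i, (x i : ℕ) < val (man v i)) ∧
    und k (er (fun n => (exd k x n : ℕ))) r)

theorem mem_CP (k : ℕ) (v : ℕ → ZMod 2) (x : Fin (2 * len k) → Fin 16) :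
    x ∈ CP k v ↔ ∀ i < 2 * len k, (exd k x i : ℕ) < val (man v i) := by
  classical
  unfold CP
  rw [Finset.mem_filter]
  constructor
  · rintro ⟨-, h⟩ i hi
    unfold exd
    rw [dif_pos hi]
    exact h ⟨i, hi⟩
  · intro h
    refine ⟨Finset.mem_univ _, fun i => ?_⟩
    have := h i i.2
    unfold exd at this
    rw [dif_pos i.2] at this
    exact this

theorem mem_UD (k : ℕ) (v : ℕ → ZMod 2) (r : ℕ) (x : Fin (2 * len k) → Fin 16) :
    x ∈ UD k v r ↔ x ∈ CP k v ∧ und k (er (fun n => (exd k x n : ℕ))) r := by
  classical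
  unfold UD CP
  rw [Finset.mem_filter, Finset.mem_filter]
  tauto

theorem CP_succ (k : ℕ) (v : ℕ → ZMod 2) (x : Fin (2 * len (k + 1)) → Fin 16) :
    x ∈ CP (k + 1) v ↔ ∀ a < rad k, sub k a x ∈ CP k (fun r => v (a * len k + r)) := by
  have hM : 0 < 2 * len k := by have := len_pos' k; omega
  rw [mem_CP]
  constructor
  · intro h a ha
    rw [mem_CP]
    intro i hi
    rw [exd_sub k a i x hi, ← man_shift]
    exact h _ (pos_lt2 k a i ha hi)
  · intro h n hn
    have ha : n / (2 * len k) < rad k := by
      rw [Nat.div_lt_iff_lt_mul hM]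
      rw [len_succ] at hn
      calc n < 2 * (len k * rad k) := hn
        _ = rad k * (2 * len k) := by ring
    have h1 := (mem_CP _ _ _).1 (h _ ha) (n % (2 * len k)) (Nat.mod_lt _ hM)
    rw [exd_sub k _ _ x (Nat.mod_lt _ hM), ← man_shift, Nat.div_add_mod'] at h1
    exact h1

theorem CP_card : ∀ (k : ℕ) (v : ℕ → ZMod 2), (CP k v).card = 32 ^ len k
  | 0, v => by
      classical
      have h1 : CP 0 v = Fintype.piFinset (fun i : Fin (2 * len 0) =>
          univ.filter (fun d : Fin 16 => (d : ℕ) < val (man v i))) := by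
        ext x
        rw [mem_CP, Fintype.mem_piFinset]
        constructor
        · intro h i
          rw [Finset.mem_filter]
          refine ⟨Finset.mem_univ _, ?_⟩
          have := h i i.2
          unfold exd at this
          rw [dif_pos i.2] at this
          exact this
        · intro h i hi
          have := (Finset.mem_filter.1 (h ⟨i, hi⟩)).2
          unfold exd
          rw [dif_pos hi]
          exact this
      rw [h1, Fintype.card_piFinset]
      have h2 : ∀ c : ZMod 2, (univ.filter (fun d : Fin 16 => (d : ℕ) < val c)).card = val c := by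
        decide
      simp_rw [h2]
      show ∏ i : Fin 2, val (man v i) = 32 ^ 1
      rw [Fin.prod_univ_two]
      show val (v 0 + ((0 : ℕ) : ZMod 2)) * val (v 0 + ((1 : ℕ) : ZMod 2)) = 32 ^ 1
      have : ∀ c : ZMod 2, val (c + ((0 : ℕ) : ZMod 2)) * val (c + ((1 : ℕ) : ZMod 2)) = 32 ^ 1 := by
        decide
      exact this (v 0)
  | (k + 1), v => by
      classical
      have h1 : CP (k + 1) v = univ.filter (fun x : Fin (2 * len (k + 1)) → Fin 16 =>
          ∀ a < rad k, sub k a x ∈ CP k (fun r => v (a * len k + r))) := by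
        ext x
        rw [CP_succ, Finset.mem_filter]
        simp
      rw [h1, prodcard k (fun a => CP k (fun r => v (a * len k + r)))]
      rw [Finset.prod_congr rfl (fun a _ => CP_card k _), Finset.prod_const, Finset.card_range,
        ← pow_mul, len_succ]

theorem UD_card : ∀ (k : ℕ) (v : ℕ → ZMod 2) (r : ℕ), r < len k →
    (UD k v r).card * 2 ^ (k + 3) ≤ 32 ^ len k
  | 0, v, r, hr => by
      classical
      have hr0 : r = 0 := by have : len 0 = 1 := rfl; omega
      subst hr0
      have h1 : UD 0 v 0 ⊆ Fintype.piFinset (fun i : Fin (2 * len 0) =>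
          univ.filter (fun d : Fin 16 => (d : ℕ) < 2)) := by
        intro x hx
        have h2 := ((mem_UD _ _ _ _).1 hx).2
        have h3 : (exd 0 x (2 * 0) : ℕ) < 2 ∧ (exd 0 x (2 * 0 + 1) : ℕ) < 2 := h2
        rw [Fintype.mem_piFinset]
        intro i
        rw [Finset.mem_filter]
        refine ⟨Finset.mem_univ _, ?_⟩
        have e : ∀ i : Fin (2 * len 0), exd 0 x i = x i := by
          intro i
          unfold exd
          rw [dif_pos i.2]
        rw [← e i]
        have hi : (i : ℕ) = 0 ∨ (i : ℕ) = 1 := by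
          have := i.2
          have h5 : 2 * len 0 = 2 := rfl
          omega
        rcases hi with hi | hi
        · rw [hi]; exact h3.1
        · rw [hi]; exact h3.2
      have h2 := Finset.card_le_card h1
      rw [Fintype.card_piFinset] at h2
      have h3 : (univ.filter (fun d : Fin 16 => (d : ℕ) < 2)).card = 2 := by decide
      rw [h3] at h2
      have h4 : ∏ _i : Fin (2 * len 0), 2 = 4 := by decide
      rw [h4] at h2
      show (UD 0 v 0).card * 2 ^ 3 ≤ 32 ^ 1
      omega
  | (k + 1), v, p, hp => by
      classical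
      set a := p / len k with ha
      set r := p % len k with hr
      have ha1 : a < rad k := by
        rw [ha, Nat.div_lt_iff_lt_mul (len_pos' k)]
        rw [len_succ] at hp
        rw [mul_comm]; exact hp
      have hr1 : r < len k := Nat.mod_lt _ (len_pos' k)
      let S : ℕ → ℕ → Finset (Fin (2 * len k) → Fin 16) := fun b c =>
        if c = a ∨ c = b then UD k (fun r => v (c * len k + r)) r
          else CP k (fun r => v (c * len k + r))
      let Y : ℕ → Finset (Fin (2 * len (k + 1)) → Fin 16) := fun b =>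
        univ.filter (fun x => ∀ c < rad k, sub k c x ∈ S b c)
      have hsub : UD (k + 1) v p ⊆ ((range (rad k)).erase a).biUnion Y := by
        intro x hx
        obtain ⟨h1, h2⟩ := (mem_UD _ _ _ _).1 hx
        rw [CP_succ] at h1
        obtain ⟨h3, b, hb, hba, h4⟩ := h2
        rw [Finset.mem_biUnion]
        refine ⟨b, Finset.mem_erase.2 ⟨hba, Finset.mem_range.2 hb⟩, ?_⟩
        rw [Finset.mem_filter]
        refine ⟨Finset.mem_univ _, fun c hc => ?_⟩
        show sub k c x ∈ (if c = a ∨ c = b then _ else _)
        by_cases hcc : c = a ∨ c = b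
        · rw [if_pos hcc, mem_UD]
          refine ⟨h1 c hc, ?_⟩
          rw [← und_congr k (fun i => er (fun n => (exd (k + 1) x n : ℕ)) (c * len k + i)) _
            (fun i hi => er_sub k c x i hi) r hr1]
          rcases hcc with h | h
          · rw [h]; exact h3
          · rw [h]; exact h4
        · rw [if_neg hcc]
          exact h1 c hc
      set Pw := 32 ^ len k with hPw
      have hY : ∀ b ∈ (range (rad k)).erase a, (Y b).card * 2 ^ (2 * k + 6) ≤ 32 ^ len (k + 1) := by
        intro b hb
        obtain ⟨hba, hb⟩ := Finset.mem_erase.1 hb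
        have e1 : (Y b).card = ∏ c ∈ range (rad k), (S b c).card := prodcard k (S b)
        have ham : a ∈ range (rad k) := Finset.mem_range.2 ha1
        have hbm : b ∈ (range (rad k)).erase a := Finset.mem_erase.2 ⟨hba, hb⟩
        rw [e1, ← Finset.mul_prod_erase _ _ ham, ← Finset.mul_prod_erase _ _ hbm]
        have f1 : (S b a).card * 2 ^ (k + 3) ≤ Pw := by
          show (if a = a ∨ a = b then _ else _ : Finset _).card * _ ≤ _
          rw [if_pos (Or.inl rfl)]
          exact UD_card k _ r hr1
        have f2 : (S b b).card * 2 ^ (k + 3) ≤ Pw := by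
          show (if b = a ∨ b = b then _ else _ : Finset _).card * _ ≤ _
          rw [if_pos (Or.inr rfl)]
          exact UD_card k _ r hr1
        have f3 : ∏ c ∈ ((range (rad k)).erase a).erase b, (S b c).card ≤ Pw ^ (rad k - 2) := by
          have : (((range (rad k)).erase a).erase b).card = rad k - 2 := by
            rw [Finset.card_erase_of_mem hbm, Finset.card_erase_of_mem ham, Finset.card_range]
            omega
          rw [← this]
          refine Finset.prod_le_pow_card _ _ _ fun c hc => ?_
          obtain ⟨h1, h2⟩ := Finset.mem_erase.1 hc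
          obtain ⟨h3, h4⟩ := Finset.mem_erase.1 h2
          show (if c = a ∨ c = b then _ else _ : Finset _).card ≤ _
          rw [if_neg (by tauto), CP_card]
        have hr2 : rad k = (rad k - 2) + 2 := by have := rad_ge k; omega
        calc (S b a).card * ((S b b).card * ∏ c ∈ ((range (rad k)).erase a).erase b, (S b c).card) *
              2 ^ (2 * k + 6)
            = ((S b a).card * 2 ^ (k + 3)) * ((S b b).card * 2 ^ (k + 3)) *
              ∏ c ∈ ((range (rad k)).erase a).erase b, (S b c).card := by
              rw [show 2 * k + 6 = (k + 3) + (k + 3) by ring, pow_add]; ring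
          _ ≤ Pw * Pw * Pw ^ (rad k - 2) := Nat.mul_le_mul (Nat.mul_le_mul f1 f2) f3
          _ = Pw ^ rad k := by
              conv_rhs => rw [hr2, pow_add]
              ring
          _ = 32 ^ len (k + 1) := by rw [hPw, ← pow_mul, len_succ]
      have hcard : (UD (k + 1) v p).card * 2 ^ (2 * k + 6) ≤ rad k * 32 ^ len (k + 1) := by
        calc (UD (k + 1) v p).card * 2 ^ (2 * k + 6)
            ≤ (∑ b ∈ (range (rad k)).erase a, (Y b).card) * 2 ^ (2 * k + 6) := by
              refine Nat.mul_le_mul_right _ ((Finset.card_le_card hsub).trans ?_)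
              exact Finset.card_biUnion_le
          _ = ∑ b ∈ (range (rad k)).erase a, (Y b).card * 2 ^ (2 * k + 6) := by
              rw [Finset.sum_mul]
          _ ≤ ∑ b ∈ (range (rad k)).erase a, 32 ^ len (k + 1) := Finset.sum_le_sum hY
          _ ≤ ∑ b ∈ range (rad k), 32 ^ len (k + 1) :=
              Finset.sum_le_sum_of_subset (Finset.erase_subset _ _)
          _ = rad k * 32 ^ len (k + 1) := by simp
      have h5 : (UD (k + 1) v p).card * 2 ^ (k + 1 + 3) * 2 ^ (k + 2) ≤
          32 ^ len (k + 1) * 2 ^ (k + 2) := by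
        calc (UD (k + 1) v p).card * 2 ^ (k + 1 + 3) * 2 ^ (k + 2) =
              (UD (k + 1) v p).card * 2 ^ (2 * k + 6) := by
              rw [mul_assoc, ← pow_add]; congr 2; ring
          _ ≤ rad k * 32 ^ len (k + 1) := hcard
          _ = 32 ^ len (k + 1) * 2 ^ (k + 2) := by unfold rad; ring
      exact Nat.le_of_mul_le_mul_right h5 (by positivity)

theorem t_D3 : S_D3 := by
  intro k v
  refine ⟨?_, ?_⟩
  · exact CP_card k v
  · intro r hr
    exact UD_card k v r hr

end Pool.Agent.Q130.CS
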