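import Pool.Agent.Q130.CS.D1
import Pool.Agent.Q130.CS.D2

/-! Lemma D4 of project CS (entropy of the digits). -/

open Filter Topology Finset

namespace Pool.Agent.Q130.CS
open Pool.Agent.Q62.CS

theorem mem_JX (k : ℕ) (j : (Fin (len k) → ZMod 2) × (Fin (2 * len k) → Fin 16)) :
    j ∈ JX k ↔ j.1 ∈ C k ∧ j.2 ∈ CP k (Q62.CS.ext k j.1) := by
  classical
  unfold JX CP
  rw [Finset.mem_filter, Finset.mem_filter]
  simp

theorem JX_card (k : ℕ) : (JX k).card = (C k).card * 32 ^ len k := by
  classical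
  have h1 : ∀ j ∈ JX k, j.1 ∈ C k := fun j hj => ((mem_JX k j).1 hj).1
  rw [Finset.card_eq_sum_card_fiberwise h1]
  have h2 : ∀ v ∈ C k, ((JX k).filter (fun j => j.1 = v)).card = 32 ^ len k := by
    intro v hv
    rw [← CP_card k (Q62.CS.ext k v)]
    refine Finset.card_bij (fun j _ => j.2) ?_ ?_ ?_
    · intro j hj
      obtain ⟨h3, h4⟩ := Finset.mem_filter.1 hj
      rw [← h4]
      exact ((mem_JX k j).1 h3).2
    · intro j hj j' hj' h
      obtain ⟨h3, h4⟩ := Finset.mem_filter.1 hj
      obtain ⟨h3', h4'⟩ := Finset.mem_filter.1 hj'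
      exact Prod.ext (h4.trans h4'.symm) h
    · intro x hx
      exact ⟨(v, x), Finset.mem_filter.2 ⟨(mem_JX k _).2 ⟨hv, hx⟩, rfl⟩, rfl⟩
  rw [Finset.sum_congr rfl h2, Finset.sum_const, smul_eq_mul]

open scoped Classical in
/-- unrecovered positions -/
noncomputable def UU (k : ℕ) (x : Fin (2 * len k) → Fin 16) : Finset ℕ :=
  (range (len k)).filter (fun r => und k (er (fun n => (exd k x n : ℕ))) r)

open scoped Classical in
/-- number of codewords compatible with `x` -/
noncomputable def mx (k : ℕ) (x : Fin (2 * len k) → Fin 16) : ℕ :=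
  ((JX k).filter (fun j => j.2 = x)).card

theorem mx_le (k : ℕ) (x : Fin (2 * len k) → Fin 16) : mx k x ≤ 2 ^ (UU k x).card := by
  classical
  have h1 : (Finset.univ : Finset (UU k x → ZMod 2)).card = 2 ^ (UU k x).card := by
    rw [Finset.card_univ, Fintype.card_fun, ZMod.card, Fintype.card_coe]
  rw [← h1]
  unfold mx
  refine Finset.card_le_card_of_injOn (fun j => fun r : UU k x => Q62.CS.ext k j.1 r)
    (fun _ _ => Finset.mem_coe.2 (Finset.mem_univ _)) ?_
  intro j hj j' hj' h
  obtain ⟨h3, h4⟩ := Finset.mem_filter.1 (Finset.mem_coe.1 hj)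
  obtain ⟨h3', h4'⟩ := Finset.mem_filter.1 (Finset.mem_coe.1 hj')
  obtain ⟨a1, a2⟩ := (mem_JX k j).1 h3
  obtain ⟨b1, b2⟩ := (mem_JX k j').1 h3'
  rw [h4, mem_CP] at a2
  rw [h4', mem_CP] at b2
  rw [mem_C] at a1 b1
  have key : ∀ r < len k, Q62.CS.ext k j.1 r = Q62.CS.ext k j'.1 r := by
    intro r hr
    by_cases hu : und k (er (fun n => (exd k x n : ℕ))) r
    · have hm : r ∈ UU k x := by
        unfold UU
        rw [Finset.mem_filter]
        exact ⟨Finset.mem_range.2 hr, hu⟩
      exact congrFun h ⟨r, hm⟩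
    · exact dec k (fun n => (exd k x n : ℕ)) _ _ a1 b1 a2 b2 r hr hu
  refine Prod.ext ?_ (h4.trans h4'.symm)
  funext r
  have := key r r.2
  unfold Q62.CS.ext at this
  rw [dif_pos r.2, dif_pos r.2] at this
  exact this

theorem sum_UU (k : ℕ) : (∑ j ∈ JX k, (UU k j.2).card) * 2 ^ (k + 3) ≤
    len k * ((C k).card * 32 ^ len k) := by
  classical
  have h1 : ∀ j : (Fin (len k) → ZMod 2) × (Fin (2 * len k) → Fin 16), (UU k j.2).card =
      ∑ r ∈ range (len k), if und k (er (fun n => (exd k j.2 n : ℕ))) r then 1 else 0 := by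
    intro j
    unfold UU
    rw [Finset.card_filter]
  simp_rw [h1]
  rw [Finset.sum_comm, Finset.sum_mul]
  have h2 : ∀ r ∈ range (len k), (∑ j ∈ JX k,
      if und k (er (fun n => (exd k j.2 n : ℕ))) r then 1 else 0) * 2 ^ (k + 3) ≤
        (C k).card * 32 ^ len k := by
    intro r hr
    rw [← Finset.card_filter]
    have h3 : ∀ j ∈ (JX k).filter (fun j => und k (er (fun n => (exd k j.2 n : ℕ))) r),
        j.1 ∈ C k := fun j hj => ((mem_JX k j).1 (Finset.mem_filter.1 hj).1).1
    rw [Finset.card_eq_sum_card_fiberwise h3, Finset.sum_mul]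
    have h4 : ∀ v ∈ C k, (((JX k).filter (fun j => und k (er (fun n => (exd k j.2 n : ℕ))) r)).filter
        (fun j => j.1 = v)).card * 2 ^ (k + 3) ≤ 32 ^ len k := by
      intro v hv
      refine le_trans (Nat.mul_le_mul_right _ ?_) (UD_card k (Q62.CS.ext k v) r
        (Finset.mem_range.1 hr))
      refine Finset.card_le_card_of_injOn (fun j => j.2) ?_ ?_
      · intro j hj
        obtain ⟨c1, c2⟩ := Finset.mem_filter.1 (Finset.mem_coe.1 hj)
        obtain ⟨c3, c4⟩ := Finset.mem_filter.1 c1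
        rw [Finset.mem_coe, mem_UD, ← c2]
        exact ⟨((mem_JX k j).1 c3).2, c4⟩
      · intro j hj j' hj' h
        have c2 := (Finset.mem_filter.1 (Finset.mem_coe.1 hj)).2
        have c2' := (Finset.mem_filter.1 (Finset.mem_coe.1 hj')).2
        exact Prod.ext (c2.trans c2'.symm) h
    calc _ ≤ ∑ v ∈ C k, 32 ^ len k := Finset.sum_le_sum h4
      _ = _ := by simp
  calc _ ≤ ∑ r ∈ range (len k), (C k).card * 32 ^ len k := Finset.sum_le_sum h2
    _ = _ := by simp

theorem t_D4' : S_D4 := by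
  classical
  intro k
  refine ⟨JX_card k, ?_⟩
  have hCp := C_card_pos k
  have hJ : 0 < (JX k).card := by rw [JX_card]; positivity
  have hJr : (0 : ℝ) < (JX k).card := by exact_mod_cast hJ
  set J : ℝ := ((JX k).card : ℝ) with hJd
  have hlaw : ∀ x, law (JX k) (fun j => j.2) x = (mx k x : ℝ) / J := by
    intro x
    unfold law mx
    rw [hJd]
    refine congrArg (fun s : Finset ((Fin (len k) → ZMod 2) × (Fin (2 * len k) → Fin 16)) =>
      (s.card : ℝ) / (JX k).card) ?_
    ext j
    simp only [Finset.mem_filter]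
  have hlogJ : Real.log J = Real.log (C k).card + len k * Real.log 32 := by
    rw [hJd, JX_card]
    push_cast
    have h1 : ((C k).card : ℝ) ≠ 0 := by positivity
    rw [Real.log_mul h1 (by positivity), Real.log_pow]
  have hlog2 : 0 < Real.log 2 := Real.log_pos (by norm_num)
  -- termwise bound
  have hterm : ∀ x, (mx k x : ℝ) / J * Real.log J - (mx k x : ℝ) / J * ((UU k x).card * Real.log 2) ≤
      Real.negMulLog (law (JX k) (fun j => j.2) x) := by
    intro x
    rw [hlaw]
    rcases Nat.eq_zero_or_pos (mx k x) with h0 | h0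
    · rw [h0]; simp
    · have hm : (0 : ℝ) < mx k x := by exact_mod_cast h0
      unfold Real.negMulLog
      rw [Real.log_div hm.ne' hJr.ne']
      have h1 : Real.log (mx k x) ≤ (UU k x).card * Real.log 2 := by
        rw [← Real.log_pow]
        exact Real.log_le_log hm (by exact_mod_cast mx_le k x)
      have h2 : (0 : ℝ) ≤ mx k x / J := by positivity
      nlinarith [mul_le_mul_of_nonneg_left h1 h2]
  have hsum1 : ∑ x, (mx k x : ℝ) = J := by
    rw [hJd, Finset.card_eq_sum_card_fiberwise (f := fun j : (Fin (len k) → ZMod 2) ×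
      (Fin (2 * len k) → Fin 16) => j.2) (t := Finset.univ) (fun j _ => Finset.mem_coe.2 (Finset.mem_univ _))]
    push_cast
    rfl
  have hsum2 : ∑ x, (mx k x : ℝ) * (UU k x).card = ((∑ j ∈ JX k, (UU k j.2).card : ℕ) : ℝ) := by
    rw [← Finset.sum_fiberwise (JX k) (fun j => j.2) (fun j => (UU k j.2).card)]
    push_cast
    refine Finset.sum_congr rfl fun x _ => ?_
    rw [Finset.sum_congr rfl (fun j hj => by rw [(Finset.mem_filter.1 hj).2] :
      ∀ j ∈ (JX k).filter (fun j => j.2 = x), ((UU k j.2).card : ℝ) = ((UU k x).card : ℝ)),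
      Finset.sum_const, nsmul_eq_mul]
    rfl
  have hU : ((∑ j ∈ JX k, (UU k j.2).card : ℕ) : ℝ) ≤ J * (len k / 2 ^ (k + 3)) := by
    have h1 : ((∑ j ∈ JX k, (UU k j.2).card : ℕ) : ℝ) * 2 ^ (k + 3) ≤
        len k * ((C k).card * 32 ^ len k) := by exact_mod_cast sum_UU k
    have h2 : J = (C k).card * 32 ^ len k := by
      rw [hJd, JX_card]; push_cast; rfl
    rw [← h2] at h1
    rw [← mul_div_assoc, le_div_iff₀ (by positivity)]
    linarith
  calc Real.log (C k).card + len k * Real.log 32 - len k / 2 ^ (k + 3) * Real.log 2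
      = Real.log J - (J * (len k / 2 ^ (k + 3))) / J * Real.log 2 := by
        rw [hlogJ]; field_simp
    _ ≤ Real.log J - ((∑ j ∈ JX k, (UU k j.2).card : ℕ) : ℝ) / J * Real.log 2 := by
        gcongr
    _ = ∑ x, ((mx k x : ℝ) / J * Real.log J - (mx k x : ℝ) / J * ((UU k x).card * Real.log 2)) := by
        rw [Finset.sum_sub_distrib, ← Finset.sum_mul, ← Finset.sum_div, hsum1, div_self hJr.ne',
          one_mul, ← hsum2, Finset.sum_div, Finset.sum_mul]
        congr 1
        refine Finset.sum_congr rfl fun x _ => ?_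
        ring
    _ ≤ ∑ x, Real.negMulLog (law (JX k) (fun j => j.2) x) := Finset.sum_le_sum fun x _ => hterm x
    _ = ent (law (JX k) (fun j => j.2)) := rfl

theorem t_D4 (_a1 : S_A1) (_a2 : S_A2) (_a3 : S_A3) (_d1 : S_D1) (_d2 : S_D2) (_d3 : S_D3) :
    S_D4 := t_D4'

end Pool.Agent.Q130.CS
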