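import Pool.Agent.Q62.CS.Stm

/-! Lemma E1 of project CS (entropy of the average window). -/

open Filter Topology Finset

namespace Pool.Agent.Q130.CS
open Pool.Agent.Q62.CS

theorem law_pmf {ι κ : Type} [Fintype κ] (S : Finset ι) (hS : S.Nonempty) (f : ι → κ) :
    Pmf (law S f) := by
  classical
  refine ⟨fun k => by unfold law; positivity, ?_⟩
  have h0 : (S.card : ℝ) ≠ 0 := by
    have := Finset.card_pos.2 hS
    positivity
  unfold law
  rw [← Finset.sum_div, div_eq_one_iff_eq h0]
  have := Finset.card_eq_sum_card_fiberwise (f := f) (s := S) (t := Finset.univ)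
    (fun x _ => Finset.mem_coe.2 (Finset.mem_univ _))
  rw [this]
  push_cast
  refine Finset.sum_congr rfl fun k _ => ?_
  refine congrArg (fun s : Finset ι => (s.card : ℝ)) ?_
  ext j
  simp only [Finset.mem_filter]

theorem push_law {ι κ κ' : Type} [Fintype κ] (S : Finset ι) (f : ι → κ) (g : κ → κ') :
    push g (law S f) = law S (fun i => g (f i)) := by
  classical
  funext k
  unfold push law
  have h1 : ∀ i : κ, (if g i = k then ((S.filter (fun j => f j = i)).card : ℝ) / S.card else 0) =
      ((∑ j ∈ S, if f j = i ∧ g i = k then 1 else 0 : ℕ) : ℝ) / S.card := by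
    intro i
    by_cases h : g i = k
    · rw [if_pos h, Finset.card_filter]
      simp [h]
    · rw [if_neg h]
      simp [h]
  calc ∑ i, (if g i = k then ((S.filter (fun j => f j = i)).card : ℝ) / S.card else 0)
      = ∑ i, ((∑ j ∈ S, if f j = i ∧ g i = k then 1 else 0 : ℕ) : ℝ) / S.card :=
        Finset.sum_congr rfl fun i _ => by rw [← h1 i]
    _ = ((∑ j ∈ S, ∑ i, if f j = i ∧ g i = k then 1 else 0 : ℕ) : ℝ) / S.card := by
        rw [← Finset.sum_div, Finset.sum_comm]
        push_cast
        rfl
    _ = ((S.filter (fun j => g (f j) = k)).card : ℝ) / S.card := by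
        rw [Finset.card_filter]
        congr 2
        refine Finset.sum_congr rfl fun j _ => ?_
        rw [Finset.sum_eq_single (f j)]
        · simp
        · intro b _ hb
          rw [if_neg]
          rintro ⟨h, _⟩
          exact hb h.symm
        · intro h; exact absurd (Finset.mem_univ _) h

/-- subadditivity -/
theorem subadd (a5 : S_A5) {ι B : Type} [Fintype ι] [Fintype B] (m : ℕ) (p : ι → ℝ) (hp : Pmf p)
    (g : Fin m → ι → B) (hg : Function.Injective (fun i => fun j => g j i)) :
    ent p ≤ ∑ j, ent (push (g j) p) := by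
  classical
  have h1 := a5 (𝒜 := Unit) (A := Unit) m p (fun _ => ()) (fun _ _ => ()) g hp (by
    intro i i' h
    exact hg (congrArg Prod.snd h))
  have e0 : ∀ f : ι → Unit, ent (push f p) = 0 := by
    intro f
    unfold ent push
    rw [Fintype.sum_unique]
    have h3 : (∑ i, @ite ℝ (f i = default) (Classical.propDecidable _) (p i) 0) = 1 := by
      rw [← hp.2]
      exact Finset.sum_congr rfl fun i _ => if_pos (Subsingleton.elim _ _)
    rw [h3, Real.negMulLog_one]
  have e1 : ∀ j, ent (push (fun i => (((), g j i) : Unit × B)) p) = ent (push (g j) p) := by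
    intro j
    unfold ent
    rw [← (Equiv.punitProd B).symm.sum_comp]
    refine Finset.sum_congr rfl fun b _ => ?_
    congr 1
    unfold push
    refine Finset.sum_congr rfl fun i _ => ?_
    have : ((((), g j i) : Unit × B) = (Equiv.punitProd B).symm b) ↔ g j i = b := by
      constructor
      · intro h; exact congrArg Prod.snd h
      · intro h; rw [← h]; rfl
    by_cases h : g j i = b
    · rw [if_pos (this.2 h), if_pos h]
    · rw [if_neg (fun h' => h (this.1 h')), if_neg h]
  rw [e0, zero_add] at h1
  refine h1.trans (le_of_eq ?_)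
  refine Finset.sum_congr rfl fun j _ => ?_
  rw [e1, sub_zero]

theorem t_E1 (a2 : S_A2) (_a3 : S_A3) (a4 : S_A4) (a5 : S_A5) : S_E1 := by
  classical
  intro J β _ S y M n hS hn hnM
  let e : ℕ → ℝ := fun p => ent (law S (fun j => fun i : Fin n => y j (p + i)))
  have he : ∀ p, e p ≤ n * Real.log (Fintype.card β) := by
    intro p
    have h1 := a2 (law S (fun j => fun i : Fin n => y j (p + i))) Finset.univ (law_pmf S hS _)
      (fun i hi => absurd (Finset.mem_univ _) hi)
    rw [Finset.card_univ, Fintype.card_fun, Fintype.card_fin, Nat.cast_pow, Real.log_pow] at h1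
    exact h1
  set P := law S (fun j => fun i : Fin M => y j i) with hP
  -- one offset
  have hoff : ∀ φ < n, ent P ≤ ∑ t ∈ range ((M - φ) / n), e (φ + n * t) +
      2 * (n * Real.log (Fintype.card β)) := by
    intro φ hφ
    set m := (M - φ) / n with hm
    have hm1 : n * m ≤ M - φ := Nat.mul_div_le _ _
    have hm2 : M - φ < n * (m + 1) := by
      have := Nat.lt_mul_div_succ (M - φ) hn
      rw [hm]; exact this
    let q : ℕ → ℕ := fun t => if t < m then φ + n * t else if t = m then 0 else M - n
    have hq : ∀ t, q t + n ≤ M := by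
      intro t
      show (if t < m then φ + n * t else if t = m then 0 else M - n) + n ≤ M
      split_ifs with h1 h2
      · have : n * (t + 1) ≤ n * m := Nat.mul_le_mul_left _ h1
        rw [Nat.mul_add, mul_one] at this
        omega
      · omega
      · omega
    let g : Fin (m + 2) → (Fin M → β) → (Fin n → β) := fun t x i =>
      x ⟨q t + i, by have := hq t; have := i.2; omega⟩
    have hg : Function.Injective (fun x => fun t => g t x) := by
      intro x x' h
      funext s
      have key : ∀ (t : Fin (m + 2)) (i : ℕ) (hi : i < n), q t + i = s → x s = x' s := by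
        intro t i hi hs
        have h1 := congrFun (congrFun h t) ⟨i, hi⟩
        have h2 : x ⟨q t + i, by have := hq t; omega⟩ = x' ⟨q t + i, by have := hq t; omega⟩ := h1
        have h3 : (⟨q t + i, by have := hq t; omega⟩ : Fin M) = s := Fin.ext hs
        rw [h3] at h2
        exact h2
      have hs := s.2
      by_cases c1 : (s : ℕ) < φ
      · refine key ⟨m, by omega⟩ s (by omega) ?_
        show (if m < m then φ + n * m else if m = m then 0 else M - n) + (s : ℕ) = s
        rw [if_neg (lt_irrefl m), if_pos rfl, zero_add]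
      · by_cases c2 : (s : ℕ) < φ + n * m
        · have ht : ((s : ℕ) - φ) / n < m := by
            rw [Nat.div_lt_iff_lt_mul hn, mul_comm]; omega
          refine key ⟨((s : ℕ) - φ) / n, by omega⟩ (((s : ℕ) - φ) % n) (Nat.mod_lt _ hn) ?_
          show (if ((s : ℕ) - φ) / n < m then φ + n * (((s : ℕ) - φ) / n) else
            if ((s : ℕ) - φ) / n = m then 0 else M - n) + ((s : ℕ) - φ) % n = s
          rw [if_pos ht]
          have := Nat.div_add_mod ((s : ℕ) - φ) n
          omega
        · refine key ⟨m + 1, by omega⟩ ((s : ℕ) - (M - n)) (by omega) ?_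
          show (if m + 1 < m then φ + n * (m + 1) else if m + 1 = m then 0 else M - n) +
            ((s : ℕ) - (M - n)) = s
          rw [if_neg (by omega), if_neg (by omega)]
          rw [Nat.mul_add, mul_one] at hm2
          omega
    have h1 := subadd a5 (m + 2) P (law_pmf S hS _) g hg
    have h2 : ∀ t : Fin (m + 2), ent (push (g t) P) = e (q t) := by
      intro t
      rw [hP, push_law]
    have h3 : ∑ t : Fin (m + 2), ent (push (g t) P) = ∑ t ∈ range (m + 2), e (q t) := by
      rw [Finset.sum_range]
      exact Finset.sum_congr rfl fun t _ => h2 t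
    rw [h3, Finset.sum_range_succ, Finset.sum_range_succ] at h1
    have h4 : ∑ t ∈ range m, e (q t) = ∑ t ∈ range m, e (φ + n * t) := by
      refine Finset.sum_congr rfl fun t ht => ?_
      show e (if t < m then φ + n * t else _) = _
      rw [if_pos (Finset.mem_range.1 ht)]
    rw [h4] at h1
    linarith [he (q m), he (q (m + 1))]
  -- sum over the offsets
  have hsum : ∑ φ ∈ range n, ∑ t ∈ range ((M - φ) / n), e (φ + n * t) =
      ∑ p ∈ range (M - n + 1), e p := by
    rw [← Finset.sum_fiberwise_of_maps_to (s := range (M - n + 1)) (t := range n)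
      (g := fun p => p % n) (fun p _ => Finset.mem_range.2 (Nat.mod_lt _ hn))]
    refine Finset.sum_congr rfl fun φ hφ => ?_
    have hφ' := Finset.mem_range.1 hφ
    have hiff : ∀ t, t < (M - φ) / n ↔ φ + n * t < M - n + 1 := by
      intro t
      rw [← Nat.succ_le_iff, Nat.le_div_iff_mul_le hn]
      have : (t + 1) * n = n * t + n := by ring
      rw [Nat.succ_eq_add_one, this]
      omega
    refine Finset.sum_bij (fun t _ => φ + n * t) ?_ ?_ ?_ ?_
    · intro t ht
      rw [Finset.mem_filter, Finset.mem_range]
      refine ⟨(hiff t).1 (Finset.mem_range.1 ht), ?_⟩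
      rw [Nat.add_mul_mod_self_left, Nat.mod_eq_of_lt hφ']
    · intro t _ t' _ h
      have : n * t = n * t' := by omega
      exact Nat.eq_of_mul_eq_mul_left hn this
    · intro p hp
      obtain ⟨h1, h2⟩ := Finset.mem_filter.1 hp
      have h3 := Nat.mod_add_div p n
      rw [h2] at h3
      refine ⟨p / n, ?_, h3⟩
      rw [Finset.mem_range, hiff, h3]
      exact Finset.mem_range.1 h1
    · intro t _; rfl
  have htot : n * ent P ≤ ∑ p ∈ range (M - n + 1), e p + n * (2 * (n * Real.log (Fintype.card β))) := by
    have h1 : ∑ φ ∈ range n, ent P ≤ ∑ φ ∈ range n, (∑ t ∈ range ((M - φ) / n), e (φ + n * t) +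
        2 * (n * Real.log (Fintype.card β))) :=
      Finset.sum_le_sum fun φ hφ => hoff φ (Finset.mem_range.1 hφ)
    rw [Finset.sum_add_distrib, hsum, Finset.sum_const, Finset.sum_const, Finset.card_range,
      nsmul_eq_mul, nsmul_eq_mul] at h1
    exact h1
  have hconc := (a4 (range (M - n + 1)) (fun p => law S (fun j => fun i : Fin n => y j (p + i)))
    ⟨0, Finset.mem_range.2 (by omega)⟩ (fun p _ => law_pmf S hS _)).2
  rw [Finset.card_range] at hconc
  have hpos : (0 : ℝ) < ((M - n + 1 : ℕ) : ℝ) := by positivity
  rw [div_le_iff₀ hpos] at hconc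
  have h5 : ∑ p ∈ range (M - n + 1), e p ≤ ((M - n + 1 : ℕ) : ℝ) * ent (fun D : Fin n → β =>
      (∑ p ∈ range (M - n + 1), law S (fun j => fun i : Fin n => y j (p + i)) D) /
        ((M - n + 1 : ℕ) : ℝ)) := by
    rw [mul_comm]; exact hconc
  have h6 : (n : ℝ) * (2 * (n * Real.log (Fintype.card β))) =
      2 * n ^ 2 * Real.log (Fintype.card β) := by ring
  rw [h6] at htot
  linarith

end Pool.Agent.Q130.CS
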