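import Pool.Agent.Q130.CS.D4

/-! Lemma E2 of project CS (average digit windows of the product code). -/

open Filter Topology Finset

namespace Pool.Agent.Q130.CS
open Pool.Agent.Q62.CS

theorem card_pi (M : ℕ) (A : ℕ → Finset (Fin 16)) (S : Finset (Fin M → Fin 16))
    (hS : ∀ x, x ∈ S ↔ ∀ q : Fin M, x q ∈ A q) : S.card = ∏ q ∈ range M, (A q).card := by
  classical
  rw [Finset.prod_range, ← Fintype.card_piFinset (fun q : Fin M => A q)]
  congr 1
  ext x
  rw [hS, Fintype.mem_piFinset]

theorem card_lt_val (c : ZMod 2) :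
    (univ.filter (fun d : Fin 16 => (d : ℕ) < Q62.CS.val c)).card = Q62.CS.val c := by
  revert c; decide

theorem prod_val (k : ℕ) (v : ℕ → ZMod 2) :
    ∏ q ∈ range (2 * len k), Q62.CS.val (man v q) = 32 ^ len k := by
  classical
  rw [← CP_card k v, card_pi (2 * len k)
    (fun q => univ.filter (fun d : Fin 16 => (d : ℕ) < Q62.CS.val (man v q))) (CP k v) ?_]
  · exact Finset.prod_congr rfl fun q _ => (card_lt_val _).symm
  · intro x
    unfold CP
    simp only [Finset.mem_filter, Finset.mem_univ, true_and]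

open scoped Classical in
/-- compatible digit blocks with a given window -/
noncomputable def WD (k : ℕ) (v : ℕ → ZMod 2) (p : ℕ) {n : ℕ} (D : Fin n → Fin 16) :
    Finset (Fin (2 * len k) → Fin 16) :=
  (CP k v).filter (fun x => ∀ i : Fin n, exd k x (p + i) = D i)

theorem WD_card (k : ℕ) (v : ℕ → ZMod 2) (p n : ℕ) (hp : p + n ≤ 2 * len k)
    (D : Fin n → Fin 16) :
    ((WD k v p D).card : ℝ) =
      32 ^ len k * uu Q62.CS.val (fun i : Fin n => man v (p + i)) D := by
  classical
  let A : ℕ → Finset (Fin 16) := fun q => univ.filter (fun d : Fin 16 =>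
    (d : ℕ) < Q62.CS.val (man v q) ∧ ∀ i : Fin n, q = p + i → d = D i)
  have h1 : (WD k v p D).card = ∏ q ∈ range (2 * len k), (A q).card := by
    refine card_pi (2 * len k) A (WD k v p D) fun x => ?_
    unfold WD
    rw [Finset.mem_filter, mem_CP]
    constructor
    · rintro ⟨h1, h2⟩ q
      rw [Finset.mem_filter]
      have e : exd k x q = x q := by unfold exd; rw [dif_pos q.2]
      refine ⟨Finset.mem_univ _, ?_, ?_⟩
      · rw [← e]; exact h1 q q.2
      · intro i hi
        rw [← e, hi]; exact h2 i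
    · intro h
      refine ⟨?_, ?_⟩
      · intro q hq
        have h3 := (Finset.mem_filter.1 (h ⟨q, hq⟩)).2.1
        unfold exd
        rw [dif_pos hq]; exact h3
      · intro i
        have hq : p + (i : ℕ) < 2 * len k := by have := i.2; omega
        have h3 := (Finset.mem_filter.1 (h ⟨p + i, hq⟩)).2.2 i rfl
        unfold exd
        rw [dif_pos hq]; exact h3
  obtain ⟨s, hs⟩ : ∃ s, 2 * len k = p + (n + s) := ⟨2 * len k - (p + n), by omega⟩
  have hout : ∀ q, (∀ i : Fin n, q ≠ p + i) → (A q).card = Q62.CS.val (man v q) := by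
    intro q hq
    rw [← card_lt_val]
    congr 1
    ext d
    simp only [A, Finset.mem_filter, Finset.mem_univ, true_and]
    exact ⟨fun h => h.1, fun h => ⟨h, fun i hi => absurd hi (hq i)⟩⟩
  have hP : ∏ q ∈ range (p + (n + s)), Q62.CS.val (man v q) = 32 ^ len k := by
    rw [← hs]; exact prod_val k v
  have h1 : (WD k v p D).card = ∏ q ∈ range (p + (n + s)), (A q).card := by
    rw [← hs]; exact h1
  rw [Finset.prod_range_add, Finset.prod_range_add] at h1 hP
  have e1 : ∏ q ∈ range p, (A q).card = ∏ q ∈ range p, Q62.CS.val (man v q) :=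
    Finset.prod_congr rfl fun q hq => hout q fun i => by
      have := Finset.mem_range.1 hq; omega
  have e2 : ∏ q ∈ range s, (A (p + (n + q))).card =
      ∏ q ∈ range s, Q62.CS.val (man v (p + (n + q))) :=
    Finset.prod_congr rfl fun q hq => hout _ fun i => by
      have := i.2; omega
  rw [e1, e2] at h1
  have hvpos : ∀ c, 0 < Q62.CS.val c := by decide
  unfold uu
  by_cases hc : ∀ i : Fin n, (D i : ℕ) < Q62.CS.val (man v (p + i))
  · rw [if_pos hc]
    have e3 : ∏ i ∈ range n, (A (p + i)).card = 1 := by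
      refine Finset.prod_eq_one fun i hi => ?_
      have hi' := Finset.mem_range.1 hi
      rw [Finset.card_eq_one]
      refine ⟨D ⟨i, hi'⟩, ?_⟩
      ext d
      simp only [A, Finset.mem_filter, Finset.mem_univ, true_and, Finset.mem_singleton]
      constructor
      · rintro ⟨_, h⟩
        exact h ⟨i, hi'⟩ rfl
      · intro h
        subst h
        refine ⟨hc ⟨i, hi'⟩, fun i' hi2 => ?_⟩
        have : (i' : ℕ) = i := by omega
        have : i' = ⟨i, hi'⟩ := Fin.ext this
        rw [this]
    rw [e3] at h1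
    have e4 : (∏ i : Fin n, (Q62.CS.val (man v (p + i)) : ℝ)) =
        ((∏ i ∈ range n, Q62.CS.val (man v (p + i)) : ℕ) : ℝ) := by
      rw [Finset.prod_range]; push_cast; rfl
    have hne : ((∏ i ∈ range n, Q62.CS.val (man v (p + i)) : ℕ) : ℝ) ≠ 0 := by
      have : 0 < ∏ i ∈ range n, Q62.CS.val (man v (p + i)) :=
        Finset.prod_pos fun i _ => hvpos _
      positivity
    rw [e4, eq_mul_inv_iff_mul_eq₀ hne]
    rw [h1]
    have : (32 : ℝ) ^ len k = ((32 ^ len k : ℕ) : ℝ) := by push_cast; rfl
    rw [this, ← hP]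
    push_cast
    ring
  · rw [if_neg hc, mul_zero]
    push Not at hc
    obtain ⟨i, hi⟩ := hc
    have e3 : ∏ i ∈ range n, (A (p + i)).card = 0 := by
      refine Finset.prod_eq_zero (Finset.mem_range.2 i.2) ?_
      rw [Finset.card_eq_zero]
      ext d
      simp only [A, Finset.mem_filter, Finset.mem_univ, true_and, Finset.notMem_empty, iff_false]
      rintro ⟨h2, h3⟩
      rw [h3 i rfl] at h2
      omega
    rw [h1, e3]
    simp

theorem law_JX (k p n : ℕ) (hp : p + n ≤ 2 * len k) (D : Fin n → Fin 16) :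
    law (JX k) (fun j => fun i : Fin n => exd k j.2 (p + i)) D =
      ∑ V, law (C k) (fun v => fun i : Fin n => man (Q62.CS.ext k v) (p + i)) V *
        uu Q62.CS.val V D := by
  classical
  have hC0 : ((C k).card : ℝ) ≠ 0 := by have := C_card_pos k; positivity
  -- right hand side
  have e1 : ∀ V : Fin n → ZMod 2,
      law (C k) (fun v => fun i : Fin n => man (Q62.CS.ext k v) (p + i)) V * uu Q62.CS.val V D =
      (∑ v ∈ (C k).filter (fun v => (fun i : Fin n => man (Q62.CS.ext k v) (p + i)) = V),
        uu Q62.CS.val (fun i : Fin n => man (Q62.CS.ext k v) (p + i)) D) / (C k).card := by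
    intro V
    have : ∀ v ∈ (C k).filter (fun v => (fun i : Fin n => man (Q62.CS.ext k v) (p + i)) = V),
        uu Q62.CS.val (fun i : Fin n => man (Q62.CS.ext k v) (p + i)) D = uu Q62.CS.val V D := by
      intro v hv
      rw [(Finset.mem_filter.1 hv).2]
    rw [Finset.sum_congr rfl this, Finset.sum_const, nsmul_eq_mul]
    unfold law
    rw [div_mul_eq_mul_div]
    congr 3
    refine congrArg (fun s : Finset (Fin (len k) → ZMod 2) => s.card) ?_
    ext v
    simp only [Finset.mem_filter]
  simp_rw [e1]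
  rw [← Finset.sum_div, Finset.sum_fiberwise]
  -- left hand side
  have e0 : law (JX k) (fun j => fun i : Fin n => exd k j.2 (p + i)) D =
      (((JX k).filter (fun j => (fun i : Fin n => exd k j.2 (p + i)) = D)).card : ℝ) /
        (JX k).card := by
    unfold law
    refine congrArg (fun s : Finset ((Fin (len k) → ZMod 2) × (Fin (2 * len k) → Fin 16)) =>
      (s.card : ℝ) / (JX k).card) ?_
    ext j
    simp only [Finset.mem_filter]
  rw [e0]
  have e2 : (((JX k).filter (fun j => (fun i : Fin n => exd k j.2 (p + i)) = D)).card : ℝ) =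
      ∑ v ∈ C k, ((WD k (Q62.CS.ext k v) p D).card : ℝ) := by
    have h3 : ∀ j ∈ (JX k).filter (fun j => (fun i : Fin n => exd k j.2 (p + i)) = D),
        j.1 ∈ C k := fun j hj => ((mem_JX k j).1 (Finset.mem_filter.1 hj).1).1
    rw [Finset.card_eq_sum_card_fiberwise h3]
    push_cast
    refine Finset.sum_congr rfl fun v hv => ?_
    congr 1
    refine Finset.card_bij (fun j _ => j.2) ?_ ?_ ?_
    · intro j hj
      obtain ⟨c1, c2⟩ := Finset.mem_filter.1 hj
      obtain ⟨c3, c4⟩ := Finset.mem_filter.1 c1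
      unfold WD
      rw [Finset.mem_filter, ← c2]
      exact ⟨((mem_JX k j).1 c3).2, fun i => congrFun c4 i⟩
    · intro j hj j' hj' h
      have c2 := (Finset.mem_filter.1 hj).2
      have c2' := (Finset.mem_filter.1 hj').2
      exact Prod.ext (c2.trans c2'.symm) h
    · intro x hx
      unfold WD at hx
      obtain ⟨c1, c2⟩ := Finset.mem_filter.1 hx
      exact ⟨(v, x), Finset.mem_filter.2 ⟨Finset.mem_filter.2
        ⟨(mem_JX k _).2 ⟨hv, c1⟩, funext c2⟩, rfl⟩, rfl⟩
  rw [e2, JX_card]
  simp_rw [WD_card k _ p n hp D]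
  rw [← Finset.mul_sum]
  push_cast
  have h32 : (32 : ℝ) ^ len k ≠ 0 := by positivity
  field_simp

theorem t_E2 (_d3 : S_D3) (_d4 : S_D4) : S_E2 := by
  intro k n hn D
  unfold avx avq
  have h1 : ∀ p ∈ range (2 * len k - n + 1),
      law (JX k) (fun j => fun i : Fin n => exd k j.2 (p + i)) D =
      ∑ V, law (C k) (fun v => fun i : Fin n => man (Q62.CS.ext k v) (p + i)) V *
        uu Q62.CS.val V D := fun p hp => law_JX k p n (by have := Finset.mem_range.1 hp; omega) D
  rw [Finset.sum_congr rfl h1, Finset.sum_comm, Finset.sum_div]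
  refine Finset.sum_congr rfl fun V _ => ?_
  rw [← Finset.sum_mul]
  ring

end Pool.Agent.Q130.CS
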