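import Pool.Agent.Q130.CS.G1
import Pool.Agent.Q130.CS.D4
import Pool.Agent.Q130.CS.E1

/-! Lemma E3 of project CS (lower bounds for the entropies). -/

open Filter Topology Finset

namespace Pool.Agent.Q130.CS
open Pool.Agent.Q62.CS

theorem ent_inj {ι κ : Type} [Fintype κ] (S : Finset ι) (hS : S.Nonempty) (f : ι → κ)
    (hf : Set.InjOn f S) : ent (law S f) = Real.log S.card := by
  classical
  have h0 : (0 : ℝ) < S.card := by exact_mod_cast Finset.card_pos.2 hS
  unfold ent
  have h1 : ∀ k ∉ S.image f, Real.negMulLog (law S f k) = 0 := by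
    intro k hk
    have : law S f k = 0 := by
      unfold law
      have : (S.filter (fun j => f j = k)).card = 0 := by
        rw [Finset.card_eq_zero, Finset.filter_eq_empty_iff]
        intro j hj h
        exact hk (Finset.mem_image.2 ⟨j, hj, h⟩)
      have h' : (@Finset.filter ι (fun j => f j = k) (fun a => Classical.propDecidable _) S).card = 0 := by
        convert this
      rw [h']
      simp
    rw [this, Real.negMulLog_zero]
  rw [← Finset.sum_subset (Finset.subset_univ (S.image f)) (fun k _ hk => h1 k hk),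
    Finset.sum_image hf]
  have h2 : ∀ j ∈ S, Real.negMulLog (law S f (f j)) = Real.log S.card / S.card := by
    intro j hj
    have : law S f (f j) = 1 / S.card := by
      unfold law
      have : (S.filter (fun j' => f j' = f j)).card = 1 := by
        rw [Finset.card_eq_one]
        refine ⟨j, ?_⟩
        ext j'
        rw [Finset.mem_filter, Finset.mem_singleton]
        constructor
        · rintro ⟨h1, h2⟩
          exact hf h1 hj h2
        · rintro rfl
          exact ⟨hj, rfl⟩
      have h' : (@Finset.filter ι (fun j' => f j' = f j) (fun a => Classical.propDecidable _) S).card = 1 := by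
        convert this
      rw [h']
      simp
    rw [this]
    unfold Real.negMulLog
    rw [one_div, Real.log_inv]
    ring
  rw [Finset.sum_congr rfl h2, Finset.sum_const, nsmul_eq_mul]
  field_simp

theorem ent_tendsto {ι : Type} [Fintype ι] (p : ℕ → ι → ℝ) (q : ι → ℝ)
    (h : ∀ i, Tendsto (fun k => p k i) atTop (𝓝 (q i))) :
    Tendsto (fun k => ent (p k)) atTop (𝓝 (ent q)) := by
  unfold ent
  exact tendsto_finsetSum _ fun i _ => (Real.continuous_negMulLog.tendsto (q i)).comp (h i)

theorem ent_nonneg' {ι : Type} [Fintype ι] (p : ι → ℝ) (h0 : ∀ i, 0 ≤ p i) (h1 : ∀ i, p i ≤ 1) :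
    0 ≤ ent p := Finset.sum_nonneg fun i _ => Real.negMulLog_nonneg (h0 i) (h1 i)

theorem M_atTop : Tendsto (fun k => ((2 * len k : ℕ) : ℝ)) atTop atTop := by
  have h1 : Tendsto (fun k => 2 * len k) atTop atTop :=
    tendsto_atTop_mono (fun k => by have := len_pos k; show k ≤ _; omega) tendsto_id
  exact tendsto_natCast_atTop_atTop.comp h1

theorem t_E3 (_d1 : S_D1) (_d4 : S_D4) (e1 : S_E1) (e2 : S_E2) : S_E3 := by
  classical
  intro h mu hh hmu n
  rcases Nat.eq_zero_or_pos n with h0 | hn
  · subst h0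
    have hmu0 : ∀ V, 0 ≤ mu 0 V ∧ mu 0 V ≤ 1 := fun V =>
      ⟨ge_of_tendsto' (hmu 0 V) fun k => avq_nonneg k 0 V,
        le_of_tendsto' (hmu 0 V) fun k => avq_le_one k 0 V⟩
    refine ⟨?_, ?_⟩
    · have := ent_nonneg' (mu 0) (fun V => (hmu0 V).1) (fun V => (hmu0 V).2)
      simpa using this
    · have hu : ∀ (V : Fin 0 → ZMod 2) (D : Fin 0 → Fin 16), uu Q62.CS.val V D = 1 := by
        intro V D
        unfold uu
        rw [if_pos (fun i => i.elim0)]
        simp
      have := ent_nonneg' (fun D : Fin 0 → Fin 16 => ∑ V, mu 0 V * uu Q62.CS.val V D) (by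
        intro D
        refine Finset.sum_nonneg fun V _ => ?_
        rw [hu, mul_one]; exact (hmu0 V).1) (by
        intro D
        rw [Fintype.sum_unique]
        rw [hu, mul_one]; exact (hmu0 _).2)
      simpa using this
  -- the limit of the right hand side
  have hM := M_atTop
  have hMinv : ∀ c : ℝ, Tendsto (fun k => c / ((2 * len k : ℕ) : ℝ)) atTop (𝓝 0) :=
    fun c => tendsto_const_nhds.div_atTop hM
  have hratio : Tendsto (fun k => ((2 * len k - n + 1 : ℕ) : ℝ) / ((2 * len k : ℕ) : ℝ)) atTop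
      (𝓝 1) := by
    have h1 := (hMinv (-(n : ℝ) + 1)).const_add 1
    rw [add_zero] at h1
    refine h1.congr' ?_
    filter_upwards [hM.eventually_ge_atTop (n : ℝ)] with k hk
    have hk' : n ≤ 2 * len k := by exact_mod_cast hk
    have hM0 : ((2 * len k : ℕ) : ℝ) ≠ 0 := by have := len_pos' k; positivity
    rw [Nat.cast_add, Nat.cast_sub hk', Nat.cast_one]
    field_simp
    ring
  have hCne : ∀ k, (C k).Nonempty := fun k => Finset.card_pos.1 (C_card_pos k)
  refine ⟨?_, ?_⟩
  · -- letters
    have hlim : Tendsto (fun k => ((2 * len k - n + 1 : ℕ) : ℝ) / ((2 * len k : ℕ) : ℝ) *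
        ent (avq k n) + (2 * n ^ 2 * Real.log 2) / ((2 * len k : ℕ) : ℝ)) atTop
        (𝓝 (1 * ent (mu n) + 0)) :=
      (hratio.mul (ent_tendsto _ _ (hmu n))).add (hMinv _)
    rw [one_mul, add_zero] at hlim
    refine le_of_tendsto_of_tendsto (hh.const_mul (n : ℝ)) hlim ?_
    filter_upwards [hM.eventually_ge_atTop (n : ℝ)] with k hk
    have hk' : n ≤ 2 * len k := by exact_mod_cast hk
    have hM0 : (0 : ℝ) < ((2 * len k : ℕ) : ℝ) := by have := len_pos' k; positivity
    have h1 := e1 (C k) (fun v i => man (Q62.CS.ext k v) i) (2 * len k) n (hCne k) hn hk'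
    have h2 : ent (law (C k) (fun v => fun i : Fin (2 * len k) => man (Q62.CS.ext k v) i)) =
        Real.log (C k).card := by
      refine ent_inj (C k) (hCne k) _ ?_
      intro v _ v' _ hvv
      funext r
      have h3 := congrFun hvv ⟨2 * r, by have := r.2; omega⟩
      have h4 : man (Q62.CS.ext k v) (2 * r) = man (Q62.CS.ext k v') (2 * r) := h3
      unfold man at h4
      rw [show 2 * (r : ℕ) / 2 = r by omega] at h4
      have h5 := add_right_cancel h4
      unfold Q62.CS.ext at h5
      rw [dif_pos r.2, dif_pos r.2] at h5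
      exact h5
    rw [h2, ZMod.card] at h1
    have h3 : avq k n = fun D : Fin n → ZMod 2 => (∑ p ∈ range (2 * len k - n + 1),
      law (C k) (fun v => fun i : Fin n => man (Q62.CS.ext k v) (p + i)) D) /
        ((2 * len k - n + 1 : ℕ) : ℝ) := rfl
    rw [← h3] at h1
    have e3 : (2 * (len k : ℝ)) = ((2 * len k : ℕ) : ℝ) := by push_cast; rfl
    rw [e3, ← mul_div_assoc, div_mul_eq_mul_div, ← add_div]
    exact div_le_div_of_nonneg_right (by push_cast at h1 ⊢; exact h1) hM0.le
  · -- digits
    have hnu : ∀ D : Fin n → Fin 16, Tendsto (fun k => avx k n D) atTop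
        (𝓝 (∑ V, mu n V * uu Q62.CS.val V D)) := by
      intro D
      have h1 : Tendsto (fun k => ∑ V, avq k n V * uu Q62.CS.val V D) atTop
          (𝓝 (∑ V, mu n V * uu Q62.CS.val V D)) :=
        tendsto_finsetSum _ fun V _ => (hmu n V).mul_const _
      refine h1.congr' ?_
      filter_upwards [hM.eventually_ge_atTop (n : ℝ)] with k hk
      exact (e2 k n (by exact_mod_cast hk) D).symm
    have hlim : Tendsto (fun k => ((2 * len k - n + 1 : ℕ) : ℝ) / ((2 * len k : ℕ) : ℝ) *
        ent (avx k n) + (2 * n ^ 2 * Real.log 16) / ((2 * len k : ℕ) : ℝ)) atTop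
        (𝓝 (1 * ent (fun D : Fin n → Fin 16 => ∑ V, mu n V * uu Q62.CS.val V D) + 0)) :=
      (hratio.mul (ent_tendsto _ _ hnu)).add (hMinv _)
    rw [one_mul, add_zero] at hlim
    have h2pow : Tendsto (fun k : ℕ => (1 / 2 : ℝ) ^ (k + 4) * Real.log 2) atTop (𝓝 (0 * Real.log 2)) := by
      refine Tendsto.mul_const _ ?_
      exact (tendsto_pow_atTop_nhds_zero_of_lt_one (by norm_num) (by norm_num)).comp
        (tendsto_add_atTop_nat 4)
    have hleft : Tendsto (fun k => (n : ℝ) * (Real.log (C k).card / (2 * len k) + Real.log 32 / 2 -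
        (1 / 2 : ℝ) ^ (k + 4) * Real.log 2)) atTop
        (𝓝 (n * (h + Real.log 32 / 2 - 0 * Real.log 2))) :=
      ((hh.add_const _).sub h2pow).const_mul _
    have e32 : (n : ℝ) * (h + Real.log 32 / 2 - 0 * Real.log 2) = n * (h + 5 / 2 * Real.log 2) := by
      rw [show (32 : ℝ) = 2 ^ 5 by norm_num, Real.log_pow]
      push_cast
      ring
    rw [e32] at hleft
    refine le_of_tendsto_of_tendsto hleft hlim ?_
    filter_upwards [hM.eventually_ge_atTop (n : ℝ)] with k hk
    have hk' : n ≤ 2 * len k := by exact_mod_cast hk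
    have hl0 : (0 : ℝ) < (len k : ℝ) := by have := len_pos' k; positivity
    have hM0 : (0 : ℝ) < ((2 * len k : ℕ) : ℝ) := by have := len_pos' k; positivity
    have hJne : (JX k).Nonempty := by
      rw [← Finset.card_pos, JX_card]
      have := C_card_pos k
      positivity
    have h1 := e1 (JX k) (fun j i => exd k j.2 i) (2 * len k) n hJne hn hk'
    have h2 : (fun (j : (Fin (len k) → ZMod 2) × (Fin (2 * len k) → Fin 16)) =>
        fun i : Fin (2 * len k) => exd k j.2 i) = fun j => j.2 := by
      funext j i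
      unfold exd
      rw [dif_pos i.2]
    rw [h2, Fintype.card_fin] at h1
    have h3 : avx k n = fun D : Fin n → Fin 16 => (∑ p ∈ range (2 * len k - n + 1),
      law (JX k) (fun j => fun i : Fin n => exd k j.2 (p + i)) D) /
        ((2 * len k - n + 1 : ℕ) : ℝ) := rfl
    rw [← h3] at h1
    have h4 := (t_D4' k).2
    have h5 := mul_le_mul_of_nonneg_left h4 (Nat.cast_nonneg (α := ℝ) n)
    have h6 := h5.trans h1
    have e5 : (n : ℝ) * (Real.log (C k).card / (2 * len k) + Real.log 32 / 2 -
        (1 / 2 : ℝ) ^ (k + 4) * Real.log 2) =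
        (n * (Real.log (C k).card + len k * Real.log 32 - len k / 2 ^ (k + 3) * Real.log 2)) /
          ((2 * len k : ℕ) : ℝ) := by
      have : (1 / 2 : ℝ) ^ (k + 4) = 1 / (2 * 2 ^ (k + 3)) := by
        rw [one_div_pow, pow_succ 2 (k + 3), mul_comm]
      rw [this]
      push_cast
      field_simp
    have e6 : ((2 * len k - n + 1 : ℕ) : ℝ) / ((2 * len k : ℕ) : ℝ) * ent (avx k n) +
        (2 * n ^ 2 * Real.log 16) / ((2 * len k : ℕ) : ℝ) =
        (((2 * len k - n + 1 : ℕ) : ℝ) * ent (avx k n) + 2 * n ^ 2 * Real.log 16) /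
          ((2 * len k : ℕ) : ℝ) := by ring
    rw [e5, e6]
    exact div_le_div_of_nonneg_right (by push_cast at h6 ⊢; exact h6) hM0.le

end Pool.Agent.Q130.CS
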