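import Pool.Agent.Q130.CS.Bas

/-! Lemma F1 of project CS (independence of two blocks). -/

open Filter Topology Finset

namespace Pool.Agent.Q130.CS
open Pool.Agent.Q62.CS

/-- mixed radix digits -/
def dg (m n : ℕ) : ℕ := n / len m % rad m

theorem rad_pos (m : ℕ) : 0 < rad m := by unfold rad; positivity

theorem rad_ge (m : ℕ) : 4 ≤ rad m := by
  unfold rad
  calc 4 = 2 ^ 2 := by norm_num
    _ ≤ 2 ^ (m + 2) := Nat.pow_le_pow_right (by norm_num) (by omega)

theorem len_pos' (k : ℕ) : 0 < len k := by have := len_pos k; omega

theorem len_succ (m : ℕ) : len (m + 1) = len m * rad m := by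
  show rad m * len m = _
  ring

theorem len_dvd {m k : ℕ} (h : m ≤ k) : len m ∣ len k := by
  induction k, h using Nat.le_induction with
  | base => exact dvd_rfl
  | succ k _ ih => rw [len_succ]; exact ih.mul_right _

theorem div_succ (m n : ℕ) : n / len (m + 1) = n / len m / rad m := by
  rw [len_succ, Nat.div_div_eq_div_mul]

theorem div_eq_of {m m' : ℕ} (h : m ≤ m') (n n' : ℕ) (he : n / len m = n' / len m) :
    n / len m' = n' / len m' := by
  induction m', h using Nat.le_induction with
  | base => exact he
  | succ k _ ih => rw [div_succ, div_succ, ih]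

theorem dg_eq_of {m m' : ℕ} (h : m ≤ m') (n n' : ℕ) (he : n / len m = n' / len m) :
    dg m' n = dg m' n' := by
  unfold dg
  rw [div_eq_of h n n' he]

theorem dg_low {m m' : ℕ} (h : m' < m) (c r : ℕ) : dg m' (c * len m + r) = dg m' r := by
  unfold dg
  obtain ⟨L, hL⟩ := len_dvd (show m' + 1 ≤ m from h)
  rw [hL, len_succ]
  have e : c * (len m' * rad m' * L) + r = len m' * (rad m' * (c * L)) + r := by ring
  rw [e, Nat.mul_add_div (len_pos' m'), Nat.mul_add_mod]

theorem mod_low {m k : ℕ} (h : k ≤ m) (c r : ℕ) : (c * len m + r) % len k = r % len k := by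
  obtain ⟨L, hL⟩ := len_dvd h
  rw [hL]
  have e : c * (len k * L) + r = len k * (c * L) + r := by ring
  rw [e, Nat.mul_add_mod]

theorem exists_dg {k : ℕ} {x x' : ℕ} (h : x / len k ≠ x' / len k) : ∃ m, k ≤ m ∧ dg m x ≠ dg m x' := by
  by_contra hcon
  push Not at hcon
  have key : ∀ d, ∀ m, k ≤ m → x / len (m + d) = x' / len (m + d) → x / len m = x' / len m := by
    intro d
    induction d with
    | zero => intro m _ h; exact h
    | succ d ih =>
      intro m hm h'
      have h2 : x / len (m + 1) = x' / len (m + 1) := ih (m + 1) (by omega)
        (by rw [show m + 1 + d = m + (d + 1) by ring]; exact h')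
      rw [div_succ, div_succ] at h2
      have h3 : dg m x = dg m x' := hcon m hm
      unfold dg at h3
      rw [← Nat.div_add_mod (x / len m) (rad m), ← Nat.div_add_mod (x' / len m) (rad m), h2, h3]
  refine h (key (x + x') k le_rfl ?_)
  have h1 := len_pos (k + (x + x'))
  rw [Nat.div_eq_of_lt (by omega), Nat.div_eq_of_lt (by omega)]

/-- a codeword with block `v` at `t` and `0` at `t'` -/
theorem single (k t t' : ℕ) (htt : t ≠ t') (v : Fin (len k) → ZMod 2) (hv : v ∈ C k) :
    ∃ w ∈ Cinf, blk k w t = v ∧ blk k w t' = fun _ => 0 := by
  classical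
  have hIs : IsC k (Q62.CS.ext k v) := by
    unfold C at hv
    exact (Finset.mem_filter.1 hv).2
  have hlk := len_pos' k
  have hdiv : ∀ t r, r < len k → (t * len k + r) / len k = t := by
    intro t r hr
    rw [mul_comm, Nat.mul_add_div hlk, Nat.div_eq_of_lt hr, add_zero]
  have hne : (t * len k + 0) / len k ≠ (t' * len k + 0) / len k := by
    rw [hdiv t 0 hlk, hdiv t' 0 hlk]; exact htt
  obtain ⟨m₀, hm₀, hdg⟩ := exists_dg hne
  set a : ℕ → ℕ := fun m => dg m (t * len k + 0) with ha
  -- the second digit
  have hb : ∀ m, ∃ b, b < rad m ∧ b ≠ a m ∧ (m = m₀ → b ≠ dg m (t' * len k + 0)) := by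
    intro m
    have h4 := rad_ge m
    have : ∃ b ∈ ({0, 1, 2} : Finset ℕ), b ≠ a m ∧ b ≠ dg m (t' * len k + 0) := by
      by_contra hc
      push Not at hc
      have h0 := hc 0 (by simp)
      have h1 := hc 1 (by simp)
      have h2 := hc 2 (by simp)
      by_cases c0 : 0 = a m
      · have d1 := h1 (by omega)
        have d2 := h2 (by omega)
        omega
      · have d0 := h0 c0
        by_cases c1 : 1 = a m
        · have d2 := h2 (by omega)
          omega
        · have d1 := h1 c1
          omega
    obtain ⟨b, hb, hb1, hb2⟩ := this
    refine ⟨b, ?_, hb1, fun _ => hb2⟩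
    simp only [Finset.mem_insert, Finset.mem_singleton] at hb
    omega
  choose b hb1 hb2 hb3 using hb
  let cond : ℕ → Prop := fun n => ∀ m, k ≤ m → dg m n = a m ∨ dg m n = b m
  let w : ℕ → ZMod 2 := fun n => if cond n then Q62.CS.ext k v (n % len k) else 0
  have ha1 : ∀ m, a m < rad m := fun m => Nat.mod_lt _ (rad_pos m)
  refine ⟨w, ?_, ?_, ?_⟩
  · -- parity checks
    intro m c r hr
    -- quotients of the positions
    have hq : ∀ j, (c * len (m + 1) + j * len m + r) / len m = c * rad m + j := by
      intro j
      have e : c * len (m + 1) + j * len m + r = len m * (c * rad m + j) + r := by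
        rw [len_succ]; ring
      rw [e, Nat.mul_add_div (len_pos' m), Nat.div_eq_of_lt hr, add_zero]
    have hq1 : ∀ j, j < rad m → (c * len (m + 1) + j * len m + r) / len (m + 1) = c := by
      intro j hj
      rw [div_succ, hq, mul_comm c, Nat.mul_add_div (rad_pos m), Nat.div_eq_of_lt hj, add_zero]
    have hdgm : ∀ j, j < rad m → dg m (c * len (m + 1) + j * len m + r) = j := by
      intro j hj
      unfold dg
      rw [hq, mul_comm c, Nat.mul_add_mod, Nat.mod_eq_of_lt hj]
    have hhigh : ∀ m', m < m' → ∀ j, j < rad m → dg m' (c * len (m + 1) + j * len m + r) =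
        dg m' (c * len (m + 1) + 0 * len m + r) := by
      intro m' hm' j hj
      exact dg_eq_of (m := m + 1) hm' _ _ (by rw [hq1 j hj, hq1 0 (rad_pos m)])
    rcases Nat.lt_or_ge m k with hmk | hmk
    · -- low level: inside of a block of level `k`
      have hcond : ∀ j, j < rad m → (cond (c * len (m + 1) + j * len m + r) ↔
          cond (c * len (m + 1) + 0 * len m + r)) := by
        intro j hj
        refine forall_congr' fun m' => forall_congr' fun hm' => ?_
        rw [hhigh m' (by omega) j hj]
      obtain ⟨L, hL⟩ := len_dvd (show m + 1 ≤ k from hmk)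
      have hL0 : 0 < L := by
        rcases Nat.eq_zero_or_pos L with h | h
        · rw [h, mul_zero] at hL; omega
        · exact h
      have hl1 := len_pos' (m + 1)
      have hlt : ∀ j, j < rad m → j * len m + r < len (m + 1) := by
        intro j hj
        rw [len_succ]
        calc j * len m + r < j * len m + len m := by omega
          _ = (j + 1) * len m := by ring
          _ ≤ rad m * len m := Nat.mul_le_mul_right _ hj
          _ = len m * rad m := by ring
      have hmod : ∀ j, j < rad m → (c * len (m + 1) + j * len m + r) % len k =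
          (c % L) * len (m + 1) + j * len m + r := by
        intro j hj
        have e : c * len (m + 1) + j * len m + r =
            len k * (c / L) + ((c % L) * len (m + 1) + j * len m + r) := by
          rw [hL]
          have := Nat.div_add_mod c L
          calc c * len (m + 1) + j * len m + r = (L * (c / L) + c % L) * len (m + 1) + j * len m + r := by
                rw [this]
            _ = _ := by ring
        rw [e, Nat.mul_add_mod, Nat.mod_eq_of_lt]
        have h1 := hlt j hj
        have h2 : c % L + 1 ≤ L := Nat.mod_lt c hL0
        calc c % L * len (m + 1) + j * len m + r < c % L * len (m + 1) + len (m + 1) := by omega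
          _ = (c % L + 1) * len (m + 1) := by ring
          _ ≤ L * len (m + 1) := Nat.mul_le_mul_right _ h2
          _ = len k := by rw [hL]; ring
      by_cases hc0 : cond (c * len (m + 1) + 0 * len m + r)
      · have : ∀ j ∈ range (rad m), w (c * len (m + 1) + j * len m + r) =
            Q62.CS.ext k v ((c % L) * len (m + 1) + j * len m + r) := by
          intro j hj
          have hj' := Finset.mem_range.1 hj
          show (if cond _ then _ else _) = _
          rw [if_pos ((hcond j hj').2 hc0), hmod j hj']
        rw [Finset.sum_congr rfl this]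
        refine hIs m hmk (c % L) r ?_ hr
        have h2 : c % L + 1 ≤ L := Nat.mod_lt c hL0
        calc (c % L + 1) * len (m + 1) ≤ L * len (m + 1) := Nat.mul_le_mul_right _ h2
          _ = len k := by rw [hL]; ring
      · refine Finset.sum_eq_zero fun j hj => ?_
        have hj' := Finset.mem_range.1 hj
        show (if cond _ then _ else _) = _
        rw [if_neg (fun h => hc0 ((hcond j hj').1 h))]
    · -- high level: two equal summands
      have hlow : ∀ m', m' < m → ∀ j, dg m' (c * len (m + 1) + j * len m + r) = dg m' r := by
        intro m' hm' j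
        have e : c * len (m + 1) + j * len m + r = (c * rad m + j) * len m + r := by
          rw [len_succ]; ring
        rw [e, dg_low hm']
      have hmod : ∀ j, (c * len (m + 1) + j * len m + r) % len k = r % len k := by
        intro j
        have e : c * len (m + 1) + j * len m + r = (c * rad m + j) * len m + r := by
          rw [len_succ]; ring
        rw [e, mod_low hmk]
      let rest : Prop := ∀ m', k ≤ m' → m' ≠ m →
        dg m' (c * len (m + 1) + 0 * len m + r) = a m' ∨
          dg m' (c * len (m + 1) + 0 * len m + r) = b m'
      have hcond : ∀ j, j < rad m → (cond (c * len (m + 1) + j * len m + r) ↔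
          (j = a m ∨ j = b m) ∧ rest) := by
        intro j hj
        constructor
        · intro h
          refine ⟨?_, ?_⟩
          · have := h m hmk
            rw [hdgm j hj] at this
            exact this
          · intro m' hm' hne
            have h' := h m' hm'
            rcases Nat.lt_or_gt_of_ne hne with hlt | hgt
            · rw [hlow m' hlt] at h' ⊢; exact h'
            · rw [hhigh m' hgt j hj] at h'; exact h'
        · rintro ⟨h1, h2⟩ m' hm'
          by_cases hne : m' = m
          · subst hne
            rw [hdgm j hj]; exact h1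
          · have h' := h2 m' hm' hne
            rcases Nat.lt_or_gt_of_ne hne with hlt | hgt
            · rw [hlow m' hlt] at h' ⊢; exact h'
            · rw [hhigh m' hgt j hj]; exact h'
      by_cases hrest : rest
      · have hw : ∀ j ∈ range (rad m), w (c * len (m + 1) + j * len m + r) =
            (if j = a m then Q62.CS.ext k v (r % len k) else 0) +
              (if j = b m then Q62.CS.ext k v (r % len k) else 0) := by
          intro j hj
          have hj' := Finset.mem_range.1 hj
          show (if cond _ then _ else _) = _
          rw [hmod j]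
          by_cases h1 : j = a m
          · have h2 : j ≠ b m := by rw [h1]; exact (hb2 m).symm
            rw [if_pos ((hcond j hj').2 ⟨Or.inl h1, hrest⟩), if_pos h1, if_neg h2, add_zero]
          · by_cases h2 : j = b m
            · rw [if_pos ((hcond j hj').2 ⟨Or.inr h2, hrest⟩), if_neg h1, if_pos h2, zero_add]
            · rw [if_neg, if_neg h1, if_neg h2, add_zero]
              intro h
              rcases ((hcond j hj').1 h).1 with h | h
              · exact h1 h
              · exact h2 h
        rw [Finset.sum_congr rfl hw, Finset.sum_add_distrib, Finset.sum_ite_eq',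
          Finset.sum_ite_eq', if_pos (Finset.mem_range.2 (ha1 m)),
          if_pos (Finset.mem_range.2 (hb1 m))]
        exact CharTwo.add_self_eq_zero _
      · refine Finset.sum_eq_zero fun j hj => ?_
        have hj' := Finset.mem_range.1 hj
        show (if cond _ then _ else _) = _
        rw [if_neg (fun h => hrest ((hcond j hj').1 h).2)]
  · -- the block `t`
    funext r
    have h1 : cond (t * len k + r) := by
      intro m hm
      left
      exact dg_eq_of hm _ _ (by rw [hdiv t r r.2, hdiv t 0 hlk])
    show (if cond _ then _ else _) = _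
    rw [if_pos h1, mul_comm t, Nat.mul_add_mod, Nat.mod_eq_of_lt r.2]
    unfold Q62.CS.ext
    rw [dif_pos r.2]
  · -- the block `t'`
    funext r
    show (if cond _ then _ else _) = _
    rw [if_neg]
    intro h
    have h1 := h m₀ hm₀
    have h2 : dg m₀ (t' * len k + r) = dg m₀ (t' * len k + 0) :=
      dg_eq_of hm₀ _ _ (by rw [hdiv t' r r.2, hdiv t' 0 hlk])
    rw [h2] at h1
    rcases h1 with h1 | h1
    · exact hdg h1.symm
    · exact hb3 m₀ rfl h1.symm

theorem t_F1 (_d0 : S_D0) : S_F1 := by
  intro k t t' htt v hv v' hv'
  obtain ⟨w1, h1, h2, h3⟩ := single k t t' htt v hv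
  obtain ⟨w2, h4, h5, h6⟩ := single k t' t (Ne.symm htt) v' hv'
  refine ⟨fun n => w1 n + w2 n, ?_, ?_, ?_⟩
  · intro m a r hr
    rw [Finset.sum_add_distrib, h1 m a r hr, h4 m a r hr, add_zero]
  · funext r
    have e1 := congrFun h2 r
    have e2 := congrFun h6 r
    show w1 _ + w2 _ = _
    have e1' : w1 (t * len k + r) = v r := e1
    have e2' : w2 (t * len k + r) = 0 := e2
    rw [e1', e2', add_zero]
  · funext r
    have e1 := congrFun h3 r
    have e2 := congrFun h5 r
    show w1 _ + w2 _ = _
    have e1' : w1 (t' * len k + r) = 0 := e1
    have e2' : w2 (t' * len k + r) = v' r := e2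
    rw [e1', e2', zero_add]

end Pool.Agent.Q130.CS
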