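import Pool.Agent.Q130.CS.Bas

/-! Lemma F2 of project CS (random codeword: Haar measure on the group of infinite codewords). -/

open Filter Topology MeasureTheory Finset

namespace Pool.Agent.Q130.CS
open Pool.Agent.Q62.CS

/-- the group of infinite codewords -/
def CG : AddSubgroup (ℕ → ZMod 2) where
  carrier := Cinf
  add_mem' := by
    intro w w' h h' k a r hr
    show ∑ j ∈ range (rad k), (w _ + w' _) = 0
    rw [Finset.sum_add_distrib, h k a r hr, h' k a r hr, add_zero]
  zero_mem' := by
    intro k a r _
    exact Finset.sum_eq_zero fun j _ => rfl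
  neg_mem' := by
    intro w h k a r hr
    show ∑ j ∈ range (rad k), (- w _) = 0
    rw [Finset.sum_neg_distrib, h k a r hr, neg_zero]

theorem CG_closed : IsClosed ((CG : AddSubgroup (ℕ → ZMod 2)) : Set (ℕ → ZMod 2)) := by
  have : ((CG : AddSubgroup (ℕ → ZMod 2)) : Set (ℕ → ZMod 2)) =
      ⋂ k, ⋂ a, ⋂ r, ⋂ _ : r < len k,
        {w : ℕ → ZMod 2 | ∑ j ∈ range (rad k), w (a * len (k + 1) + j * len k + r) = 0} := by
    ext w
    simp only [Set.mem_iInter]
    exact Iff.rfl
  rw [this]
  refine isClosed_iInter fun k => isClosed_iInter fun a => isClosed_iInter fun r =>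
    isClosed_iInter fun _ => ?_
  exact isClosed_eq (continuous_finsetSum _ fun j _ => continuous_apply _) continuous_const

theorem CG_open (n : ℕ) (c : ZMod 2) : IsOpen {w : CG | w.1 n = c} := by
  have hc : Continuous (fun w : CG => w.1 n) := (continuous_apply n).comp continuous_subtype_val
  exact (isOpen_discrete {c}).preimage hc

theorem t_F2 (d0 : S_D0) (f1 : S_F1) : S_F2 := by
  classical
  have hcomp : CompactSpace CG := isCompact_iff_compactSpace.1 CG_closed.isCompact
  let _ : MeasurableSpace CG := borel CG
  have : BorelSpace CG := ⟨rfl⟩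
  let K₀ : TopologicalSpace.PositiveCompacts CG := ⊤
  let P : Measure CG := Measure.addHaarMeasure K₀
  have hP1 : P Set.univ = 1 := by
    have := Measure.addHaarMeasure_self (K₀ := K₀)
    exact this
  have hP : IsProbabilityMeasure P := ⟨hP1⟩
  refine ⟨CG, inferInstance, P, fun w => w.1, hP, fun w => w.2, ?_, ?_⟩
  · intro n c
    exact (CG_open n c).measurableSet
  · intro k t t' htt
    let E : (Fin (len k) → ZMod 2) → (Fin (len k) → ZMod 2) → Set CG :=
      fun v v' => {w | blk k w.1 t = v ∧ blk k w.1 t' = v'}
    have hbm : ∀ s (v : Fin (len k) → ZMod 2), MeasurableSet {w : CG | blk k w.1 s = v} := by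
      intro s v
      have : {w : CG | blk k w.1 s = v} = ⋂ r : Fin (len k), {w : CG | w.1 (s * len k + r) = v r} := by
        ext w
        simp only [Set.mem_ofPred_eq, Set.mem_iInter]
        exact ⟨fun h r => congrFun h r, fun h => funext h⟩
      rw [this]
      refine MeasurableSet.iInter fun r => ?_
      exact (CG_open _ _).measurableSet
    have hE : ∀ v v', MeasurableSet (E v v') := fun v v' => (hbm t v).inter (hbm t' v')
    have h0 : (0 : Fin (len k) → ZMod 2) ∈ C k := by
      have h1 : blk k (0 : ℕ → ZMod 2) 0 ∈ C k := (d0.2.2 0 CG.zero_mem k 0).2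
      exact h1
    -- translates
    have htr : ∀ v ∈ C k, ∀ v' ∈ C k, P.real (E v v') = P.real (E 0 0) := by
      intro v hv v' hv'
      obtain ⟨g, hg, hg1, hg2⟩ := f1 k t t' htt v hv v' hv'
      let g' : CG := ⟨g, hg⟩
      have h1 : P ((fun w => g' + w) ⁻¹' (E v v')) = P (E v v') := measure_preimage_add P g' _
      have h2 : (fun w => g' + w) ⁻¹' (E v v') = E 0 0 := by
        ext w
        have e1 : ∀ s, blk k (g' + w).1 s = blk k g s + blk k w.1 s := fun s => rfl
        show (blk k (g' + w).1 t = v ∧ blk k (g' + w).1 t' = v') ↔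
          (blk k w.1 t = 0 ∧ blk k w.1 t' = 0)
        rw [e1, e1, hg1, hg2]
        simp
      unfold Measure.real
      rw [← h1, h2]
    have hmem : ∀ (w : CG) s, blk k w.1 s ∈ C k := fun w s => (d0.2.2 w.1 w.2 k s).2
    -- decomposition
    have hrow : ∀ v, P.real {w : CG | blk k w.1 t = v} = ∑ v' ∈ C k, P.real (E v v') := by
      intro v
      rw [← measureReal_biUnion_finset]
      · congr 1
        ext w
        simp only [Set.mem_ofPred_eq, Set.mem_iUnion]
        constructor
        · intro h
          exact ⟨blk k w.1 t', hmem w t', h, rfl⟩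
        · rintro ⟨v', _, h⟩
          exact h.1
      · intro x _ y _ hxy
        rw [Function.onFun, Set.disjoint_left]
        intro w h1 h2
        exact hxy (h1.2.symm.trans h2.2)
      · intro v' _
        exact hE v v'
    have htot : (1 : ℝ) = ∑ v ∈ C k, P.real {w : CG | blk k w.1 t = v} := by
      rw [← measureReal_biUnion_finset]
      · have : (⋃ v ∈ C k, {w : CG | blk k w.1 t = v}) = Set.univ := by
          ext w
          simp only [Set.mem_iUnion, Set.mem_univ, iff_true]
          exact ⟨blk k w.1 t, hmem w t, rfl⟩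
        rw [this]
        simp
      · intro x _ y _ hxy
        rw [Function.onFun, Set.disjoint_left]
        intro w h1 h2
        exact hxy (h1.symm.trans h2)
      · intro v _
        exact hbm t v
    have hrow' : ∀ v ∈ C k, P.real {w : CG | blk k w.1 t = v} = (C k).card * P.real (E 0 0) := by
      intro v hv
      rw [hrow v, Finset.sum_congr rfl (fun v' hv' => htr v hv v' hv'), Finset.sum_const,
        nsmul_eq_mul]
    rw [Finset.sum_congr rfl hrow', Finset.sum_const, nsmul_eq_mul] at htot
    have hC : ((C k).card : ℝ) ≠ 0 := by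
      have : 0 < (C k).card := Finset.card_pos.2 ⟨_, h0⟩
      positivity
    have hE0 : P.real (E 0 0) = 1 / (C k).card * (1 / (C k).card) := by
      field_simp
      linarith
    intro v hv v' hv'
    refine ⟨?_, ?_⟩
    · have := hrow' v hv
      rw [hE0] at this
      refine this.trans ?_
      field_simp
    · have := htr v hv v' hv'
      rw [hE0] at this
      exact this

end Pool.Agent.Q130.CS
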