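import Pool.Agent.Q130.CS.Bas

/-! Lemma F3 of project CS (existence of an equidistributed infinite codeword). -/

open Filter Topology MeasureTheory Finset ProbabilityTheory

namespace Pool.Agent.Q130.CS
open Pool.Agent.Q62.CS

theorem indep_ind {Ω : Type} {m : MeasurableSpace Ω} (P : Measure Ω) [IsProbabilityMeasure P]
    (A B : Set Ω) (hA : MeasurableSet A) (hB : MeasurableSet B)
    (h : P (A ∩ B) = P A * P B) :
    IndepFun (A.indicator (fun _ => (1 : ℝ))) (B.indicator (fun _ => (1 : ℝ))) P := by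
  have h1 : IndepSet A B P := (indepSet_iff_measure_inter_eq_mul hA hB P).2 h
  have h2 : Indep (MeasurableSpace.generateFrom {A}) (MeasurableSpace.generateFrom {B}) P := h1
  have key : ∀ S : Set Ω, MeasurableSpace.comap (S.indicator (fun _ => (1 : ℝ))) inferInstance ≤
      MeasurableSpace.generateFrom {S} := by
    intro S
    have : Measurable[MeasurableSpace.generateFrom {S}] (S.indicator (fun _ => (1 : ℝ))) :=
      (@measurable_const _ _ _ (MeasurableSpace.generateFrom {S}) _).indicator
        (MeasurableSpace.measurableSet_generateFrom (Set.mem_singleton S))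
    exact this.comap_le
  exact indep_of_indep_of_le_left (indep_of_indep_of_le_right h2 (key B)) (key A)

theorem ident_ind {Ω : Type} {m : MeasurableSpace Ω} (P : Measure Ω) [IsProbabilityMeasure P]
    (A B : Set Ω) (hA : MeasurableSet A) (hB : MeasurableSet B) (h : P A = P B) :
    IdentDistrib (A.indicator (fun _ => (1 : ℝ))) (B.indicator (fun _ => (1 : ℝ))) P P := by
  have mA : Measurable (A.indicator (fun _ => (1 : ℝ))) := measurable_const.indicator hA
  have mB : Measurable (B.indicator (fun _ => (1 : ℝ))) := measurable_const.indicator hB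
  refine ⟨mA.aemeasurable, mB.aemeasurable, ?_⟩
  have hc : P Aᶜ = P Bᶜ := by rw [measure_compl hA (measure_ne_top _ _),
    measure_compl hB (measure_ne_top _ _), h]
  ext S hS
  rw [Measure.map_apply mA hS, Measure.map_apply mB hS]
  have key : ∀ U : Set Ω, (U.indicator (fun _ => (1 : ℝ))) ⁻¹' S =
      {ω | (ω ∈ U ∧ (1 : ℝ) ∈ S) ∨ (ω ∉ U ∧ (0 : ℝ) ∈ S)} := by
    intro U
    ext ω
    simp only [Set.mem_preimage, Set.mem_ofPred_eq]
    by_cases hω : ω ∈ U
    · simp [hω]
    · simp [hω]
  rw [key, key]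
  by_cases h1 : (1 : ℝ) ∈ S <;> by_cases h0 : (0 : ℝ) ∈ S
  · have e : ∀ U : Set Ω, {ω | (ω ∈ U ∧ (1 : ℝ) ∈ S) ∨ (ω ∉ U ∧ (0 : ℝ) ∈ S)} = Set.univ := by
      intro U; ext ω; simp [h1, h0]; tauto
    rw [e, e]
  · have e : ∀ U : Set Ω, {ω | (ω ∈ U ∧ (1 : ℝ) ∈ S) ∨ (ω ∉ U ∧ (0 : ℝ) ∈ S)} = U := by
      intro U; ext ω; simp [h1, h0]
    rw [e, e, h]
  · have e : ∀ U : Set Ω, {ω | (ω ∈ U ∧ (1 : ℝ) ∈ S) ∨ (ω ∉ U ∧ (0 : ℝ) ∈ S)} = Uᶜ := by
      intro U; ext ω; simp [h1, h0]
    rw [e, e, hc]
  · have e : ∀ U : Set Ω, {ω | (ω ∈ U ∧ (1 : ℝ) ∈ S) ∨ (ω ∉ U ∧ (0 : ℝ) ∈ S)} = ∅ := by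
      intro U; ext ω; simp [h1, h0]
    rw [e, e]

theorem t_F3 (f2 : S_F2) : S_F3 := by
  classical
  obtain ⟨Ω, mΩ, P, W, hP, hW, hm, hprob⟩ := f2
  -- measurability of the events
  have hms : ∀ k t (v : Fin (len k) → ZMod 2), MeasurableSet {ω | blk k (W ω) t = v} := by
    intro k t v
    have : {ω | blk k (W ω) t = v} = ⋂ r : Fin (len k), {ω | W ω (t * len k + r) = v r} := by
      ext ω
      simp only [Set.mem_ofPred_eq, Set.mem_iInter]
      exact ⟨fun h r => congrFun h r, fun h => funext h⟩
    rw [this]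
    exact MeasurableSet.iInter fun r => hm _ _
  have key : ∀ᵐ ω ∂P, ∀ k, ∀ v : Fin (len k) → ZMod 2, v ∈ C k →
      Tendsto (fun T => frq (fun t => blk k (W ω) t) (fun _ : Fin 1 => v) T) atTop
        (𝓝 (1 / (C k).card)) := by
    rw [ae_all_iff]
    intro k
    rw [ae_all_iff]
    intro v
    by_cases hv : v ∈ C k
    · let A : ℕ → Set Ω := fun t => {ω | blk k (W ω) t = v}
      have hA : ∀ t, MeasurableSet (A t) := fun t => hms k t v
      have hPr : ∀ t, P.real (A t) = 1 / (C k).card := fun t =>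
        (hprob k t (t + 1) (by omega) v hv v hv).1
      have hPA : ∀ t t', P (A t) = P (A t') := by
        intro t t'
        have := (hPr t).trans (hPr t').symm
        exact (ENNReal.toReal_eq_toReal_iff' (measure_ne_top _ _) (measure_ne_top _ _)).1 this
      have h1 := strong_law_ae_real (μ := P) (fun t => (A t).indicator (fun _ => (1 : ℝ)))
        ((integrable_const (1 : ℝ)).indicator (hA 0))
        (fun t t' htt => by
          refine indep_ind P (A t) (A t') (hA t) (hA t') ?_
          have h2 := (hprob k t t' htt v hv v hv).2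
          have h3 : P.real (A t ∩ A t') = P.real (A t) * P.real (A t') := by
            rw [hPr t, hPr t']; exact h2
          unfold Measure.real at h3
          rw [← ENNReal.toReal_mul] at h3
          exact (ENNReal.toReal_eq_toReal_iff' (measure_ne_top _ _)
            (ENNReal.mul_ne_top (measure_ne_top _ _) (measure_ne_top _ _))).1 h3)
        (fun t => ident_ind P (A t) (A 0) (hA t) (hA 0) (hPA t 0))
      filter_upwards [h1] with ω hω _
      have e1 : ∫ ω, (A 0).indicator (fun _ => (1 : ℝ)) ω ∂P = 1 / (C k).card := by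
        rw [integral_indicator_const (1 : ℝ) (hA 0), hPr 0, smul_eq_mul, mul_one]
      rw [e1] at hω
      refine hω.congr fun T => ?_
      rw [frq_eq]
      congr 1
      refine Finset.sum_congr rfl fun t _ => ?_
      unfold gg
      by_cases h : ω ∈ A t
      · rw [Set.indicator_of_mem h, if_pos]
        intro i
        have : (i : ℕ) = 0 := by omega
        rw [this]; exact h
      · rw [Set.indicator_of_notMem h, if_neg]
        intro h'
        exact h (show blk k (W ω) t = v by simpa using h' 0)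
    · exact Eventually.of_forall fun ω h => absurd h hv
  obtain ⟨ω, hω⟩ := key.exists
  exact ⟨W ω, hW ω, fun k v hv => hω k v hv⟩

end Pool.Agent.Q130.CS
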