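import Pool.Agent.Q130.CS.Bas

/-! Lemma G1 of project CS (window frequencies). -/

open Filter Topology Finset

namespace Pool.Agent.Q130.CS
open Pool.Agent.Q62.CS

/-- the sum of the indicators of the windows inside of the blocks -/
noncomputable def HH (w : ℕ → ZMod 2) (k : ℕ) {n : ℕ} (V : Fin n → ZMod 2) (R T : ℕ) : ℝ :=
  ∑ t ∈ range T, ∑ p ∈ range R, gg (man w) V (t * (2 * len k) + p)

theorem law_eq (k p : ℕ) {n : ℕ} (V : Fin n → ZMod 2) :
    law (C k) (fun v => fun i : Fin n => man (Q62.CS.ext k v) (p + i)) V =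
      (∑ v ∈ C k, gg (man (Q62.CS.ext k v)) V p) / (C k).card := by
  unfold law gg
  rw [Finset.card_filter]
  push_cast
  congr 1
  refine Finset.sum_congr rfl fun v _ => ?_
  by_cases h : ∀ i : Fin n, man (Q62.CS.ext k v) (p + i) = V i
  · rw [if_pos (funext h), if_pos h]
  · rw [if_neg (fun h' => h (fun i => congrFun h' i)), if_neg h]

/-- the windows inside of the blocks: limit -/
theorem HH_lim (d0 : S_D0) (w : ℕ → ZMod 2) (hw : w ∈ Cinf) (he : EQ w) (k : ℕ) {n : ℕ}
    (V : Fin n → ZMod 2) (R : ℕ) (hR : R + n ≤ 2 * len k + 1) :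
    Tendsto (fun T : ℕ => HH w k V R T / T) atTop
      (𝓝 (∑ p ∈ range R, law (C k) (fun v => fun i : Fin n => man (Q62.CS.ext k v) (p + i)) V)) := by
  classical
  have hblk : ∀ t, blk k w t ∈ C k := fun t => (d0.2.2 w hw k t).2
  have e1 : ∀ T : ℕ, HH w k V R T / T = ∑ v ∈ C k,
      frq (fun t => blk k w t) (fun _ : Fin 1 => v) T *
        ∑ p ∈ range R, gg (man (Q62.CS.ext k v)) V p := by
    intro T
    unfold HH
    have : ∀ t ∈ range T, (∑ p ∈ range R, gg (man w) V (t * (2 * len k) + p)) =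
        ∑ p ∈ range R, gg (man (Q62.CS.ext k (blk k w t))) V p := by
      intro t _
      refine Finset.sum_congr rfl fun p hp => ?_
      exact gg_blk w k t p V (by have := Finset.mem_range.1 hp; omega)
    rw [Finset.sum_congr rfl this]
    rw [← Finset.sum_fiberwise_of_maps_to (s := range T) (t := C k) (g := fun t => blk k w t)
      (fun t _ => hblk t)]
    rw [Finset.sum_div]
    refine Finset.sum_congr rfl fun v _ => ?_
    have : ∀ t ∈ (range T).filter (fun t => blk k w t = v),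
        (∑ p ∈ range R, gg (man (Q62.CS.ext k (blk k w t))) V p) =
          ∑ p ∈ range R, gg (man (Q62.CS.ext k v)) V p := by
      intro t ht
      rw [(Finset.mem_filter.1 ht).2]
    rw [Finset.sum_congr rfl this, Finset.sum_const, nsmul_eq_mul]
    unfold frq
    rw [mul_div_right_comm]
    congr 2
    refine congrArg (fun s : Finset ℕ => (s.card : ℝ)) ?_
    ext t
    simp
  have e4 : (∑ p ∈ range R, law (C k) (fun v => fun i : Fin n => man (Q62.CS.ext k v) (p + i)) V)
      = ∑ v ∈ C k, 1 / (C k).card * ∑ p ∈ range R, gg (man (Q62.CS.ext k v)) V p := by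
    simp_rw [law_eq]
    rw [← Finset.sum_div, Finset.sum_comm, Finset.sum_div]
    refine Finset.sum_congr rfl fun v _ => ?_
    ring
  rw [e4]
  simp_rw [e1]
  exact tendsto_finsetSum _ fun v hv => (he k v hv).mul_const _

/-- deterministic comparison -/
theorem cmp (w : ℕ → ZMod 2) (k : ℕ) {n : ℕ} (V : Fin n → ZMod 2) (hn : 0 < n)
    (hnM : n ≤ 2 * len k) (a : ℝ) (ha0 : 0 ≤ a) (ha1 : a ≤ 1) (T : ℕ) :
    |(∑ j ∈ range T, gg (man w) V j) - a * T| ≤
      |HH w k V (2 * len k - n + 1) (T / (2 * len k)) -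
        (2 * len k - n + 1 : ℕ) * a * (T / (2 * len k) : ℕ)| + 2 * n * (T / (2 * len k) : ℕ) +
        2 * (2 * len k : ℕ) := by
  set M := 2 * len k with hM
  set R := M - n + 1 with hR
  set T' := T / M with hT'
  have hM0 : 0 < M := by omega
  have hRM : R + (n - 1) = M := by omega
  have hdm : T' * M + T % M = T := by rw [hT']; exact Nat.div_add_mod' T M
  have hmod : T % M < M := Nat.mod_lt _ hM0
  have s1 : ∑ j ∈ range T, gg (man w) V j = ∑ j ∈ range (T' * M), gg (man w) V j +
      ∑ j ∈ range (T % M), gg (man w) V (T' * M + j) := by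
    conv_lhs => rw [← hdm]
    rw [Finset.sum_range_add]
  have s2 : ∑ j ∈ range (T' * M), gg (man w) V j = HH w k V R T' +
      ∑ t ∈ range T', ∑ p ∈ range (n - 1), gg (man w) V (t * M + (R + p)) := by
    rw [sum_blocks]
    unfold HH
    rw [← Finset.sum_add_distrib]
    refine Finset.sum_congr rfl fun t _ => ?_
    conv_lhs => rw [← hRM]
    rw [Finset.sum_range_add, hRM]
  have b1 : 0 ≤ ∑ j ∈ range (T % M), gg (man w) V (T' * M + j) :=
    Finset.sum_nonneg fun j _ => gg_nonneg _ _ _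
  have b2 : ∑ j ∈ range (T % M), gg (man w) V (T' * M + j) ≤ M := by
    calc _ ≤ ∑ j ∈ range (T % M), (1 : ℝ) := Finset.sum_le_sum fun j _ => gg_le_one _ _ _
      _ = (T % M : ℕ) := by simp
      _ ≤ M := by exact_mod_cast hmod.le
  have b3 : 0 ≤ ∑ t ∈ range T', ∑ p ∈ range (n - 1), gg (man w) V (t * M + (R + p)) :=
    Finset.sum_nonneg fun t _ => Finset.sum_nonneg fun j _ => gg_nonneg _ _ _
  have b4 : ∑ t ∈ range T', ∑ p ∈ range (n - 1), gg (man w) V (t * M + (R + p)) ≤ n * T' := by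
    calc _ ≤ ∑ t ∈ range T', ∑ p ∈ range (n - 1), (1 : ℝ) :=
          Finset.sum_le_sum fun t _ => Finset.sum_le_sum fun j _ => gg_le_one _ _ _
      _ = T' * (n - 1 : ℕ) := by simp
      _ ≤ T' * n := by
          apply mul_le_mul_of_nonneg_left _ (Nat.cast_nonneg _)
          exact_mod_cast (by omega)
      _ = n * T' := mul_comm _ _
  have hTc : (T : ℝ) = T' * M + (T % M : ℕ) := by exact_mod_cast hdm.symm
  have hMc : (M : ℝ) = R + (n - 1 : ℕ) := by exact_mod_cast hRM.symm
  have hn1 : ((n - 1 : ℕ) : ℝ) ≤ n := by exact_mod_cast (by omega)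
  have hn0 : (0 : ℝ) ≤ ((n - 1 : ℕ) : ℝ) := Nat.cast_nonneg _
  have hT0 : (0 : ℝ) ≤ (T' : ℝ) := Nat.cast_nonneg _
  have hmc : ((T % M : ℕ) : ℝ) ≤ M := by exact_mod_cast hmod.le
  have hmc0 : (0 : ℝ) ≤ ((T % M : ℕ) : ℝ) := Nat.cast_nonneg _
  have key : (∑ j ∈ range T, gg (man w) V j) - a * T =
      (HH w k V R T' - R * a * T') +
      (∑ t ∈ range T', ∑ p ∈ range (n - 1), gg (man w) V (t * M + (R + p)) -
        a * (n - 1 : ℕ) * T') +
      (∑ j ∈ range (T % M), gg (man w) V (T' * M + j) - a * (T % M : ℕ)) := by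
    rw [s1, s2, hTc, hMc]; ring
  rw [key]
  have c1 : |∑ t ∈ range T', ∑ p ∈ range (n - 1), gg (man w) V (t * M + (R + p)) -
        a * (n - 1 : ℕ) * T'| ≤ 2 * n * T' := by
    have h1 : 0 ≤ a * (n - 1 : ℕ) * T' := by positivity
    have h2 : a * (n - 1 : ℕ) * T' ≤ n * T' := by
      apply mul_le_mul_of_nonneg_right _ hT0
      calc a * (n - 1 : ℕ) ≤ 1 * n := mul_le_mul ha1 hn1 hn0 zero_le_one
        _ = n := one_mul _
    have h3 : (0 : ℝ) ≤ n * T' := by positivity
    rw [abs_le]; constructor <;> nlinarith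
  have c2 : |∑ j ∈ range (T % M), gg (man w) V (T' * M + j) - a * (T % M : ℕ)| ≤ 2 * (M : ℕ) := by
    have h1 : 0 ≤ a * ((T % M : ℕ) : ℝ) := by positivity
    have h2 : a * ((T % M : ℕ) : ℝ) ≤ M := by
      calc a * ((T % M : ℕ) : ℝ) ≤ 1 * M := mul_le_mul ha1 hmc hmc0 zero_le_one
        _ = M := one_mul _
    have h3 : (0 : ℝ) ≤ M := Nat.cast_nonneg _
    rw [abs_le]; constructor <;> nlinarith
  calc _ ≤ |HH w k V R T' - R * a * T'| + |∑ t ∈ range T', ∑ p ∈ range (n - 1),
        gg (man w) V (t * M + (R + p)) - a * (n - 1 : ℕ) * T'| +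
        |∑ j ∈ range (T % M), gg (man w) V (T' * M + j) - a * (T % M : ℕ)| := by
        refine (abs_add_le _ _).trans ?_
        gcongr
        exact abs_add_le _ _
    _ ≤ _ := by gcongr

theorem avq_nonneg (k n : ℕ) (V : Fin n → ZMod 2) : 0 ≤ avq k n V := by
  unfold avq law
  positivity

theorem law_le_one {ι κ : Type} (J : Finset ι) (f : ι → κ) (x : κ) : law J f x ≤ 1 := by
  classical
  unfold law
  rcases Nat.eq_zero_or_pos J.card with h | h
  · simp [h]
  · rw [div_le_one (by exact_mod_cast h)]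
    exact_mod_cast Finset.card_filter_le _ _

theorem avq_le_one (k n : ℕ) (V : Fin n → ZMod 2) : avq k n V ≤ 1 := by
  unfold avq
  rw [div_le_one (by positivity)]
  calc _ ≤ ∑ p ∈ range (2 * len k - n + 1), (1 : ℝ) :=
        Finset.sum_le_sum fun p _ => law_le_one _ _ _
    _ = _ := by simp

/-- for every level the frequencies are finally close to the average law -/
theorem close (d0 : S_D0) (w : ℕ → ZMod 2) (hw : w ∈ Cinf) (he : EQ w) {n : ℕ}
    (V : Fin n → ZMod 2) (hn : 0 < n) (ε : ℝ) (hε : 0 < ε) :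
    ∀ᶠ k in atTop, ∀ᶠ T in atTop, |frq (man w) V T - avq k n V| ≤ ε := by
  have hlen : Tendsto (fun k => ((2 * len k : ℕ) : ℝ)) atTop atTop := by
    have h1 : Tendsto (fun k => 2 * len k) atTop atTop :=
      tendsto_atTop_mono (fun k => by have := len_pos k; show k ≤ _; omega) tendsto_id
    exact tendsto_natCast_atTop_atTop.comp h1
  filter_upwards [hlen.eventually_ge_atTop (n : ℝ),
    hlen.eventually_ge_atTop (2 * (2 * n + 1) / ε)] with k hk1 hk2
  have hnM : n ≤ 2 * len k := by exact_mod_cast hk1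
  have hM0 : 0 < 2 * len k := by omega
  have hM0r : (0 : ℝ) < ((2 * len k : ℕ) : ℝ) := by exact_mod_cast hM0
  set M := 2 * len k with hM
  set R := M - n + 1 with hR
  have hlim := HH_lim d0 w hw he k V R (by omega)
  have hsum : (∑ p ∈ range R, law (C k) (fun v => fun i : Fin n => man (Q62.CS.ext k v) (p + i)) V)
      = R * avq k n V := by
    have hR0 : (R : ℝ) ≠ 0 := by
      have : 0 < R := by omega
      positivity
    unfold avq
    rw [← hM, ← hR]
    field_simp
  rw [hsum] at hlim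
  have hev : ∀ᶠ T' : ℕ in atTop, |HH w k V R T' - R * avq k n V * T'| ≤ 1 * T' := by
    have := (Metric.tendsto_nhds.1 hlim) 1 one_pos
    filter_upwards [this, eventually_gt_atTop 0] with T' h1 h2
    have hT0 : (0 : ℝ) < T' := by exact_mod_cast h2
    rw [Real.dist_eq] at h1
    have e : HH w k V R T' - R * avq k n V * T' = (HH w k V R T' / T' - R * avq k n V) * T' := by
      field_simp
    rw [e, abs_mul, abs_of_pos hT0]
    gcongr
  have hdiv : Tendsto (fun T : ℕ => T / M) atTop atTop := Nat.tendsto_div_const_atTop hM0.ne'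
  have hTr : Tendsto (fun T : ℕ => (T : ℝ)) atTop atTop := tendsto_natCast_atTop_atTop
  filter_upwards [hdiv.eventually hev, eventually_gt_atTop 0,
    hTr.eventually_ge_atTop (2 * (2 * M) / ε)] with T h1 h2 h3
  have hT0 : (0 : ℝ) < T := by exact_mod_cast h2
  rw [frq_eq]
  have e : (∑ j ∈ range T, gg (man w) V j) / (T : ℝ) - avq k n V =
      ((∑ j ∈ range T, gg (man w) V j) - avq k n V * T) / T := by
    field_simp
  rw [e, abs_div, abs_of_pos hT0, div_le_iff₀ hT0]
  refine (cmp w k V hn hnM _ (avq_nonneg k n V) (avq_le_one k n V) T).trans ?_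
  rw [← hM, ← hR]
  have h4 : ((T / M : ℕ) : ℝ) ≤ T / M := Nat.cast_div_le
  have h5 : (2 * (n : ℝ) + 1) * (T / M : ℕ) ≤ ε / 2 * T := by
    calc (2 * (n : ℝ) + 1) * (T / M : ℕ) ≤ (2 * n + 1) * (T / M) := by gcongr
      _ = (2 * n + 1) / M * T := by ring
      _ ≤ ε / 2 * T := by
        refine mul_le_mul_of_nonneg_right ?_ hT0.le
        rw [div_le_iff₀ hM0r]
        rw [div_le_iff₀ hε] at hk2
        linarith
  have h6 : 2 * (M : ℝ) ≤ ε / 2 * T := by
    rw [div_le_iff₀ hε] at h3
    linarith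
  have h7 : |HH w k V R (T / M) - R * avq k n V * (T / M : ℕ)| ≤ 1 * (T / M : ℕ) := h1
  linarith

/-- double limit -/
theorem dbl (f : ℕ → ℝ) (a : ℕ → ℝ)
    (h : ∀ ε : ℝ, 0 < ε → ∀ᶠ k in atTop, ∀ᶠ T in atTop, |f T - a k| ≤ ε) :
    ∃ L : ℝ, Tendsto f atTop (𝓝 L) ∧ Tendsto a atTop (𝓝 L) := by
  have hc : CauchySeq a := by
    rw [Metric.cauchySeq_iff']
    intro ε hε
    obtain ⟨K, hK⟩ := eventually_atTop.1 (h (ε / 4) (by linarith))
    refine ⟨K, fun k hk => ?_⟩
    obtain ⟨T, h1, h2⟩ := ((hK k hk).and (hK K le_rfl)).exists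
    rw [Real.dist_eq]
    have : a k - a K = -(f T - a k) + (f T - a K) := by ring
    rw [this]
    calc _ ≤ |-(f T - a k)| + |f T - a K| := abs_add_le _ _
      _ < ε := by rw [abs_neg]; linarith
  obtain ⟨L, hL⟩ := cauchySeq_tendsto_of_complete hc
  refine ⟨L, ?_, hL⟩
  rw [Metric.tendsto_nhds]
  intro ε hε
  obtain ⟨k, h1, h2⟩ := ((h (ε / 2) (by linarith)).and
    (Metric.tendsto_nhds.1 hL (ε / 2) (by linarith))).exists
  filter_upwards [h1] with T hT
  rw [Real.dist_eq] at h2 ⊢
  have : f T - L = (f T - a k) + (a k - L) := by ring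
  rw [this]
  calc _ ≤ |f T - a k| + |a k - L| := abs_add_le _ _
    _ < ε := by linarith

/-- shifts -/
theorem shift_diff (g : ℕ → ℝ) (h0 : ∀ j, 0 ≤ g j) (h1 : ∀ j, g j ≤ 1) (s T : ℕ) :
    |∑ j ∈ range T, g (j + s) - ∑ j ∈ range T, g j| ≤ s := by
  have e1 : ∑ j ∈ range (s + T), g j = ∑ j ∈ range s, g j + ∑ j ∈ range T, g (s + j) :=
    Finset.sum_range_add _ _ _
  have e2 : ∑ j ∈ range (s + T), g j = ∑ j ∈ range T, g j + ∑ j ∈ range s, g (T + j) := by
    rw [add_comm s T]; exact Finset.sum_range_add _ _ _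
  have e3 : ∑ j ∈ range T, g (j + s) = ∑ j ∈ range T, g (s + j) :=
    Finset.sum_congr rfl fun j _ => by rw [add_comm]
  have b1 : 0 ≤ ∑ j ∈ range s, g j := Finset.sum_nonneg fun j _ => h0 _
  have b2 : ∑ j ∈ range s, g j ≤ s := by
    calc _ ≤ ∑ j ∈ range s, (1 : ℝ) := Finset.sum_le_sum fun j _ => h1 _
      _ = s := by simp
  have b3 : 0 ≤ ∑ j ∈ range s, g (T + j) := Finset.sum_nonneg fun j _ => h0 _
  have b4 : ∑ j ∈ range s, g (T + j) ≤ s := by
    calc _ ≤ ∑ j ∈ range s, (1 : ℝ) := Finset.sum_le_sum fun j _ => h1 _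
      _ = s := by simp
  rw [e3, abs_le]
  constructor <;> linarith

theorem shift_lim (z : ℕ → ZMod 2) {n : ℕ} (V : Fin n → ZMod 2) (L : ℝ)
    (h : Tendsto (frq z V) atTop (𝓝 L)) (s : ℕ) :
    Tendsto (frq (fun j => z (j + s)) V) atTop (𝓝 L) := by
  have hd : Tendsto (fun T : ℕ => frq (fun j => z (j + s)) V T - frq z V T) atTop (𝓝 0) := by
    have hs : Tendsto (fun T : ℕ => (s : ℝ) / T) atTop (𝓝 0) :=
      tendsto_const_div_atTop_nhds_zero_nat _
    refine squeeze_zero_norm (fun T => ?_) hs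
    rw [frq_eq, frq_eq, ← sub_div, norm_div, Real.norm_eq_abs, Real.norm_eq_abs,
      abs_of_nonneg (Nat.cast_nonneg T : (0 : ℝ) ≤ T)]
    refine div_le_div_of_nonneg_right ?_ (Nat.cast_nonneg T)
    have : ∑ j ∈ range T, gg (fun j => z (j + s)) V j = ∑ j ∈ range T, gg z V (j + s) := by
      refine Finset.sum_congr rfl fun j _ => ?_
      unfold gg
      have hh : (∀ i : Fin n, z (j + i + s) = V i) ↔ (∀ i : Fin n, z (j + s + i) = V i) := by
        refine forall_congr' fun i => ?_
        rw [show j + (i : ℕ) + s = j + s + i by ring]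
      by_cases h : ∀ i : Fin n, z (j + s + i) = V i
      · rw [if_pos (hh.mpr h), if_pos h]
      · rw [if_neg (fun h' => h (hh.mp h')), if_neg h]
    rw [this]
    exact shift_diff _ (gg_nonneg z V) (gg_le_one z V) s T
  have := hd.add h
  simpa using this

theorem t_G1 (d0 : S_D0) : S_G1 := by
  intro w hw he
  have key : ∀ (n : ℕ) (V : Fin n → ZMod 2), ∃ L : ℝ, Tendsto (frq (man w) V) atTop (𝓝 L) ∧
      Tendsto (fun k => avq k n V) atTop (𝓝 L) := by
    intro n V
    rcases Nat.eq_zero_or_pos n with h0 | hn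
    · subst h0
      refine ⟨1, ?_, ?_⟩
      · refine tendsto_const_nhds.congr' ?_
        filter_upwards [eventually_gt_atTop 0] with T hT
        have hT0 : (T : ℝ) ≠ 0 := by positivity
        rw [frq_eq]
        unfold gg
        simp [hT0]
      · have hC : ∀ k, ((C k).card : ℝ) ≠ 0 := by
          intro k
          have : 0 < (C k).card := Finset.card_pos.2 ⟨_, (d0.2.2 w hw k 0).2⟩
          positivity
        have : ∀ k, avq k 0 V = 1 := by
          intro k
          unfold avq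
          simp_rw [law_eq]
          have : ∀ (v : Fin (len k) → ZMod 2) (p : ℕ), gg (man (Q62.CS.ext k v)) V p = 1 := by
            intro v p
            unfold gg
            rw [if_pos (fun i => i.elim0)]
          simp_rw [this]
          have h2 := hC k
          have h3 : ((2 * len k - 0 + 1 : ℕ) : ℝ) ≠ 0 := by positivity
          simp only [Finset.sum_const, nsmul_eq_mul, mul_one, Finset.card_range]
          rw [div_self h2, mul_one, div_self h3]
        simp_rw [this]
        exact tendsto_const_nhds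
    · exact dbl _ _ (fun ε hε => close d0 w hw he V hn ε hε)
  choose mu h1 h2 using key
  exact ⟨mu, fun n V => ⟨fun s => shift_lim (man w) V _ (h1 n V) s, h2 n V⟩⟩

end Pool.Agent.Q130.CS
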