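import Pool.Agent.Q130.CS.Bas

/-! Lemma G2 of project CS (occurring windows have positive frequency). -/

open Filter Topology Finset

namespace Pool.Agent.Q130.CS
open Pool.Agent.Q62.CS

theorem t_G2 (d0 : S_D0) : S_G2 := by
  classical
  intro w hw he mu hmu n V hV
  obtain ⟨j, hj⟩ := hV
  -- a level with the window inside of the first block
  obtain ⟨k, hk⟩ : ∃ k, j + n < 2 * len k := ⟨j + n, by have := len_pos (j + n); omega⟩
  set M := 2 * len k with hM
  have hM0 : 0 < M := by omega
  set v := blk k w 0 with hv
  have hvC : v ∈ C k := (d0.2.2 w hw k 0).2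
  have hC0 : 0 < (C k).card := Finset.card_pos.2 ⟨v, hvC⟩
  have hj' : ∀ t, blk k w t = v → ∀ i : Fin n, man w (t * M + j + i) = V i := by
    intro t ht i
    have h1 := man_blk w k t (j + i) (by have := i.2; omega)
    have h2 := man_blk w k 0 (j + i) (by have := i.2; omega)
    rw [ht] at h1
    rw [← hv, ← h1] at h2
    rw [Nat.add_assoc, ← h2, Nat.zero_mul, Nat.zero_add]
    exact hj i
  -- comparison along the multiples of `M`
  have hle : ∀ T : ℕ, frq (fun t => blk k w t) (fun _ : Fin 1 => v) T / M ≤ frq (man w) V (T * M) := by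
    intro T
    rcases Nat.eq_zero_or_pos T with h0 | hT
    · subst h0
      simp [frq]
    have hTr : (0 : ℝ) < T := by exact_mod_cast hT
    have hMr : (0 : ℝ) < M := by exact_mod_cast hM0
    rw [frq_eq, frq_eq, sum_blocks, div_div]
    push_cast
    refine div_le_div_of_nonneg_right ?_ (by positivity)
    refine Finset.sum_le_sum fun t _ => ?_
    by_cases h : blk k w t = v
    · calc gg (fun t => blk k w t) (fun _ : Fin 1 => v) t ≤ 1 := gg_le_one _ _ _
        _ = gg (man w) V (t * M + j) := by
            unfold gg; rw [if_pos (hj' t h)]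
        _ ≤ ∑ p ∈ range M, gg (man w) V (t * M + p) :=
            Finset.single_le_sum (f := fun p => gg (man w) V (t * M + p))
              (fun p _ => gg_nonneg _ _ _) (Finset.mem_range.2 (by omega))
    · have : gg (fun t => blk k w t) (fun _ : Fin 1 => v) t = 0 := by
        unfold gg
        rw [if_neg]
        intro h'
        exact h (by simpa using h' 0)
      rw [this]
      exact Finset.sum_nonneg fun p _ => gg_nonneg _ _ _
  have hsub : Tendsto (fun T : ℕ => frq (man w) V (T * M)) atTop (𝓝 (mu n V)) :=
    (hmu n V).comp (tendsto_id.atTop_mul_const' hM0)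
  have hb : Tendsto (fun T : ℕ => frq (fun t => blk k w t) (fun _ : Fin 1 => v) T / M) atTop
      (𝓝 (1 / (C k).card / M)) := (he k v hvC).div_const _
  have h3 := le_of_tendsto_of_tendsto' hb hsub hle
  refine lt_of_lt_of_le ?_ h3
  positivity

end Pool.Agent.Q130.CS
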