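import Pool.Agent.Q130.CS.G1

/-! Lemma H1 of project CS (the invariant measure of a sequence with window frequencies). -/

open Filter Topology MeasureTheory Finset

namespace Pool.Agent.Q130.CS
open Pool.Agent.Q62.CS

section
variable {α : Type} [Fintype α] [TopologicalSpace α] [DiscreteTopology α]

/-- uniform continuity -/
theorem unif (F : (ℕ → α) → ℝ) (hF : Continuous F) (ε : ℝ) (hε : 0 < ε) :
    ∃ n, ∀ y y' : ℕ → α, (∀ i < n, y i = y' i) → |F y - F y'| < ε := by
  by_contra hcon
  push Not at hcon
  choose Y Y' h1 h2 using hcon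
  have hc : IsCompact (Set.univ : Set (ℕ → α)) := isCompact_univ
  let U : Ultrafilter ℕ := hyperfilter ℕ
  obtain ⟨L, -, hL⟩ := hc.ultrafilter_le_nhds (U.map Y) (by simp)
  have hY : Tendsto Y U (𝓝 L) := hL
  have hY' : Tendsto Y' U (𝓝 L) := by
    rw [tendsto_pi_nhds] at hY ⊢
    intro i
    refine (hY i).congr' ?_
    have : ∀ᶠ n in (U : Filter ℕ), i < n := Nat.hyperfilter_le_atTop (eventually_gt_atTop i)
    filter_upwards [this] with n hn
    exact h1 n i hn
  have hd : Tendsto (fun n => |F (Y n) - F (Y' n)|) U (𝓝 |F L - F L|) :=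
    (((hF.tendsto L).comp hY).sub ((hF.tendsto L).comp hY')).abs
  rw [sub_self, abs_zero] at hd
  have := ge_of_tendsto' hd h2
  linarith

/-- averages -/
noncomputable def av (z : ℕ → α) (F : (ℕ → α) → ℝ) (N : ℕ) : ℝ :=
  (∑ j ∈ range N, F (fun i => z (j + i))) / N

theorem av_diff (z : ℕ → α) (F G : (ℕ → α) → ℝ) (ε : ℝ) (hε : 0 ≤ ε)
    (h : ∀ y, |F y - G y| ≤ ε) (N : ℕ) : |av z F N - av z G N| ≤ ε := by
  unfold av
  rcases Nat.eq_zero_or_pos N with h0 | h0
  · subst h0; simpa using hε
  have hN : (0 : ℝ) < N := by exact_mod_cast h0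
  rw [← sub_div, ← Finset.sum_sub_distrib, abs_div, abs_of_pos hN, div_le_iff₀ hN]
  calc _ ≤ ∑ j ∈ range N, |F (fun i => z (j + i)) - G (fun i => z (j + i))| :=
        Finset.abs_sum_le_sum_abs _ _
    _ ≤ ∑ j ∈ range N, ε := Finset.sum_le_sum fun j _ => h _
    _ = ε * N := by simp [mul_comm]

/-- functions of finitely many coordinates -/
theorem av_fin (z : ℕ → α) (mu : ∀ n, (Fin n → α) → ℝ)
    (hmu : ∀ n (V : Fin n → α), Tendsto (frq z V) atTop (𝓝 (mu n V))) (n : ℕ)
    (Φ : (Fin n → α) → ℝ) :
    Tendsto (av z (fun y => Φ (fun i : Fin n => y i))) atTop (𝓝 (∑ V, mu n V * Φ V)) := by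
  classical
  have e : ∀ N : ℕ, av z (fun y => Φ (fun i : Fin n => y i)) N = ∑ V, frq z V N * Φ V := by
    intro N
    unfold av
    have e1 : ∑ j ∈ range N, Φ (fun i : Fin n => z (j + i)) =
        ∑ V, ∑ j ∈ range N, gg z V j * Φ V := by
      rw [Finset.sum_comm]
      refine Finset.sum_congr rfl fun j _ => ?_
      rw [Finset.sum_eq_single (fun i : Fin n => z (j + i))]
      · unfold gg
        rw [if_pos (fun i => rfl), one_mul]
      · intro V _ hV
        unfold gg
        rw [if_neg, zero_mul]
        intro h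
        exact hV (funext fun i => (h i).symm)
      · intro h; exact absurd (Finset.mem_univ _) h
    rw [e1, Finset.sum_div]
    refine Finset.sum_congr rfl fun V _ => ?_
    rw [frq_eq, ← Finset.sum_mul]
    ring
  have : av z (fun y => Φ (fun i : Fin n => y i)) = fun N => ∑ V, frq z V N * Φ V := funext e
  rw [this]
  exact tendsto_finsetSum _ fun V _ => (hmu n V).mul_const _

theorem av_conv (z : ℕ → α) (mu : ∀ n, (Fin n → α) → ℝ)
    (hmu : ∀ n (V : Fin n → α), Tendsto (frq z V) atTop (𝓝 (mu n V)))
    (F : (ℕ → α) → ℝ) (hF : Continuous F) : ∃ L : ℝ, Tendsto (av z F) atTop (𝓝 L) := by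
  let Φ : ∀ n : ℕ, (Fin n → α) → ℝ := fun n V => F (fun i => if h : i < n then V ⟨i, h⟩ else z i)
  obtain ⟨L, hL, -⟩ := dbl (av z F) (fun k => ∑ V, mu k V * Φ k V) (by
    intro ε hε
    obtain ⟨n, hn⟩ := unif F hF (ε / 2) (by linarith)
    filter_upwards [eventually_ge_atTop n] with k hk
    have h1 := av_fin z mu hmu k (Φ k)
    filter_upwards [Metric.tendsto_nhds.1 h1 (ε / 2) (by linarith)] with T hT
    rw [Real.dist_eq] at hT
    have h2 := av_diff z F (fun y => Φ k (fun i : Fin k => y i)) (ε / 2) (by linarith) (by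
      intro y
      refine (hn _ _ ?_).le
      intro i hi
      simp [show i < k by omega]) T
    have e : av z F T - ∑ V, mu k V * Φ k V =
      (av z F T - av z (fun y => Φ k (fun i : Fin k => y i)) T) +
      (av z (fun y => Φ k (fun i : Fin k => y i)) T - ∑ V, mu k V * Φ k V) := by ring
    rw [e]
    refine (abs_add_le _ _).trans ?_
    linarith)
  exact ⟨L, hL⟩

theorem av_shift (z : ℕ → α) (F : (ℕ → α) → ℝ) (C : ℝ) (hC : ∀ y, |F y| ≤ C) (s : ℕ) :
    Tendsto (fun N => av z (fun y => F (fun i => y (i + s))) N - av z F N) atTop (𝓝 0) := by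
  have hC0 : 0 ≤ C := (abs_nonneg _).trans (hC z)
  have hs : Tendsto (fun N : ℕ => (2 * C * s) / (N : ℝ)) atTop (𝓝 0) :=
    tendsto_const_div_atTop_nhds_zero_nat _
  refine squeeze_zero_norm (fun N => ?_) hs
  unfold av
  rw [← sub_div, norm_div, Real.norm_eq_abs, Real.norm_eq_abs,
    abs_of_nonneg (Nat.cast_nonneg N : (0 : ℝ) ≤ N)]
  refine div_le_div_of_nonneg_right ?_ (Nat.cast_nonneg N)
  have e0 : ∀ j, F (fun i => z (j + (i + s))) = (fun j => F (fun i => z (j + i))) (s + j) := by
    intro j
    show F (fun i => z (j + (i + s))) = F (fun i => z (s + j + i))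
    congr 1; funext i; congr 1; ring
  have e1 : ∑ j ∈ range (s + N), F (fun i => z (j + i)) = ∑ j ∈ range s, F (fun i => z (j + i)) +
      ∑ j ∈ range N, F (fun i => z (s + j + i)) := Finset.sum_range_add _ _ _
  have e2 : ∑ j ∈ range (s + N), F (fun i => z (j + i)) = ∑ j ∈ range N, F (fun i => z (j + i)) +
      ∑ j ∈ range s, F (fun i => z (N + j + i)) := by
    rw [add_comm s N]; exact Finset.sum_range_add _ _ _
  have e3 : ∑ j ∈ range N, F (fun i => z (j + (i + s))) = ∑ j ∈ range N, F (fun i => z (s + j + i)) :=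
    Finset.sum_congr rfl fun j _ => e0 j
  have b1 : |∑ j ∈ range s, F (fun i => z (j + i))| ≤ C * s := by
    calc _ ≤ ∑ j ∈ range s, |F (fun i => z (j + i))| := Finset.abs_sum_le_sum_abs _ _
      _ ≤ ∑ j ∈ range s, C := Finset.sum_le_sum fun j _ => hC _
      _ = C * s := by simp [mul_comm]
  have b2 : |∑ j ∈ range s, F (fun i => z (N + j + i))| ≤ C * s := by
    calc _ ≤ ∑ j ∈ range s, |F (fun i => z (N + j + i))| := Finset.abs_sum_le_sum_abs _ _
      _ ≤ ∑ j ∈ range s, C := Finset.sum_le_sum fun j _ => hC _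
      _ = C * s := by simp [mul_comm]
  rw [abs_le] at b1 b2 ⊢
  rw [e3]
  constructor <;> linarith [b1.1, b1.2, b2.1, b2.2]

end

theorem t_H1 : S_H1 := by
  classical
  intro α _ _ _ _ _ z mu hmu
  have hc := fun F hF => av_conv z mu hmu F hF
  choose L hL using hc
  have hT2 : T2Space (ℕ → α) := inferInstance
  have hLC : LocallyCompactSpace (ℕ → α) := inferInstance
  have hB : BorelSpace (ℕ → α) := inferInstance
  let Λ0 : CompactlySupportedContinuousMap (ℕ → α) ℝ →ₗ[ℝ] ℝ :=
    { toFun := fun f => L f f.continuous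
      map_add' := by
        intro f g
        have h1 := (hL f f.continuous).add (hL g g.continuous)
        refine tendsto_nhds_unique (hL (f + g) (f + g).continuous) (h1.congr fun N => ?_)
        unfold av
        rw [← add_div, ← Finset.sum_add_distrib]
        rfl
      map_smul' := by
        intro c f
        have h1 := (hL f f.continuous).const_mul c
        refine tendsto_nhds_unique (hL (c • f) (c • f).continuous) (h1.congr fun N => ?_)
        unfold av
        rw [← mul_div_assoc, Finset.mul_sum]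
        rfl }
  let Λ : CompactlySupportedContinuousMap (ℕ → α) ℝ →ₚ[ℝ] ℝ := PositiveLinearMap.mk₀ Λ0 (by
    intro f hf
    refine ge_of_tendsto' (hL f f.continuous) fun N => ?_
    unfold av
    exact div_nonneg (Finset.sum_nonneg fun j _ => hf _) (Nat.cast_nonneg N))
  let μ := RealRMK.rieszMeasure Λ
  have hfin : IsFiniteMeasure μ := inferInstance
  have hint : ∀ F : (ℕ → α) → ℝ, ∀ hF : Continuous F, ∫ y, F y ∂μ = L F hF := by
    intro F hF
    let f : CompactlySupportedContinuousMap (ℕ → α) ℝ :=
      ⟨⟨F, hF⟩, HasCompactSupport.of_compactSpace F⟩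
    exact RealRMK.integral_rieszMeasure Λ f
  have hprob : IsProbabilityMeasure μ := by
    have h1 := hint (fun _ => 1) continuous_const
    have h2 : L (fun _ => 1) continuous_const = 1 := by
      refine tendsto_nhds_unique (hL _ _) ?_
      refine tendsto_const_nhds.congr' ?_
      filter_upwards [eventually_gt_atTop 0] with N hN
      unfold av
      have : (N : ℝ) ≠ 0 := by positivity
      simp [this]
    rw [h2] at h1
    simp only [integral_const, smul_eq_mul, mul_one] at h1
    constructor
    have h3 : (μ Set.univ).toReal = 1 := h1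
    rw [← ENNReal.ofReal_toReal (measure_ne_top μ Set.univ), h3, ENNReal.ofReal_one]
  have hcl : ∀ n (V : Fin n → α), IsClopen {y : ℕ → α | ∀ i : Fin n, y i = V i} := by
    intro n V
    have : {y : ℕ → α | ∀ i : Fin n, y i = V i} = ⋂ i : Fin n, (fun y : ℕ → α => y i) ⁻¹' {V i} := by
      ext y; simp
    rw [this]
    exact isClopen_iInter_of_finite fun i =>
      (isClopen_discrete {V i}).preimage (continuous_apply (i : ℕ))
  refine ⟨μ, hprob, ?_, ?_, ?_⟩
  · intro n V
    set S : Set (ℕ → α) := {y | ∀ i : Fin n, y i = V i} with hS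
    have hcont : Continuous (S.indicator (fun _ => (1 : ℝ))) :=
      (hcl n V).continuous_indicator continuous_const |>.congr (fun _ => rfl)
    have h1 := hint _ hcont
    rw [integral_indicator_const (1 : ℝ) (hcl n V).1.measurableSet] at h1
    have h2 : L _ hcont = mu n V := by
      refine tendsto_nhds_unique (hL _ hcont) ((hmu n V).congr fun N => ?_)
      rw [frq_eq]
      unfold av
      congr 1
      refine Finset.sum_congr rfl fun j _ => ?_
      unfold gg
      by_cases h : ∀ i : Fin n, z (j + i) = V i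
      · rw [if_pos h, Set.indicator_of_mem]; exact h
      · rw [if_neg h, Set.indicator_of_notMem]; exact h
    rw [h2, smul_eq_mul, mul_one] at h1
    exact h1
  · have hsc : Continuous (fun (y : ℕ → α) (i : ℕ) => y (i + 1)) :=
      continuous_pi fun i => continuous_apply (i + 1)
    refine ⟨hsc.measurable, ?_⟩
    have : IsFiniteMeasure (μ.map (fun (y : ℕ → α) (i : ℕ) => y (i + 1))) :=
      Measure.isFiniteMeasure_map _ _
    have hmet : TopologicalSpace.PseudoMetrizableSpace (ℕ → α) := inferInstance
    refine ext_of_forall_integral_eq_of_IsFiniteMeasure fun f => ?_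
    rw [integral_map hsc.measurable.aemeasurable f.continuous.aestronglyMeasurable,
      hint f f.continuous, hint (fun y => f (fun i => y (i + 1))) (f.continuous.comp hsc)]
    have h1 := av_shift z f ‖f‖ (fun y => f.norm_coe_le_norm y) 1
    have h2 := h1.add (hL f f.continuous)
    rw [zero_add] at h2
    refine tendsto_nhds_unique (hL _ (f.continuous.comp hsc)) (h2.congr fun N => ?_)
    show _ = av z (fun y => f fun i => y (i + 1)) N
    ring
  · intro F hF
    rw [hint F hF]
    exact hL F hF

end Pool.Agent.Q130.CS
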