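import Pool.Agent.Q130.CS.H1

/-! Lemma H2 of project CS (dynamical generation). -/

open Filter Topology MeasureTheory Finset

namespace Pool.Agent.Q130.CS
open Pool.Agent.Q62.CS

section
variable {α : Type} [Fintype α] [TopologicalSpace α] [DiscreteTopology α]
  [MeasurableSpace α] [BorelSpace α]

/-- cylinder -/
def cyl (n : ℕ) (V : Fin n → α) : Set (ℕ → α) := {y | ∀ i : Fin n, y i = V i}

theorem cyl_clopen (n : ℕ) (V : Fin n → α) : IsClopen (cyl n V) := by
  have : cyl n V = ⋂ i : Fin n, (fun y : ℕ → α => y i) ⁻¹' {V i} := by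
    ext y; simp [cyl]
  rw [this]
  exact isClopen_iInter_of_finite fun i =>
    (isClopen_discrete {V i}).preimage (continuous_apply (i : ℕ))

/-- the support -/
def KK (mu : ∀ n, (Fin n → α) → ℝ) : Set (ℕ → α) := {y | ∀ n, 0 < mu n (fun i : Fin n => y i)}

theorem KK_compl (mu : ∀ n, (Fin n → α) → ℝ) :
    (KK mu)ᶜ = ⋃ n, ⋃ V : {V : Fin n → α // ¬ 0 < mu n V}, cyl n V.1 := by
  ext y
  simp only [KK, Set.mem_compl_iff, Set.mem_setOf_eq, not_forall, Set.mem_iUnion, cyl]
  constructor
  · rintro ⟨n, h⟩
    exact ⟨n, ⟨fun i : Fin n => y i, h⟩, fun i => rfl⟩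
  · rintro ⟨n, ⟨V, hV⟩, h⟩
    refine ⟨n, ?_⟩
    have : (fun i : Fin n => y i) = V := funext h
    rw [this]; exact hV

theorem KK_closed (mu : ∀ n, (Fin n → α) → ℝ) : IsClosed (KK mu) := by
  rw [← isOpen_compl_iff, KK_compl]
  exact isOpen_iUnion fun n => isOpen_iUnion fun V => (cyl_clopen n V.1).2

variable (mu : ∀ n, (Fin n → α) → ℝ) (ν : Measure (ℕ → α))

theorem KK_full [IsProbabilityMeasure ν]
    (hν : ∀ n (V : Fin n → α), ν.real {y | ∀ i : Fin n, y i = V i} = mu n V) :
    ν (KK mu)ᶜ = 0 := by
  rw [KK_compl]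
  refine measure_iUnion_null fun n => measure_iUnion_null fun V => ?_
  have h1 : ν.real (cyl n V.1) = mu n V.1 := hν n V.1
  have h2 : ν.real (cyl n V.1) ≤ 0 := by rw [h1]; exact not_lt.1 V.2
  have h3 : ν.real (cyl n V.1) = 0 := le_antisymm h2 measureReal_nonneg
  exact (measureReal_eq_zero_iff).1 h3

/-- the shift -/
def sh (y : ℕ → α) : ℕ → α := fun i => y (i + 1)

omit [Fintype α] [DiscreteTopology α] [MeasurableSpace α] [BorelSpace α] in
theorem sh_cont : Continuous (sh : (ℕ → α) → (ℕ → α)) :=
  continuous_pi fun i => continuous_apply (i + 1)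

theorem KK_shift [IsProbabilityMeasure ν]
    (hν : ∀ n (V : Fin n → α), ν.real {y | ∀ i : Fin n, y i = V i} = mu n V)
    (hmp : MeasurePreserving (fun (y : ℕ → α) (i : ℕ) => y (i + 1)) ν ν) (y : ℕ → α)
    (hy : y ∈ KK mu) : sh y ∈ KK mu := by
  intro n
  refine lt_of_lt_of_le (hy (n + 1)) ?_
  rw [← hν, ← hν]
  have h1 : ν.real {y' : ℕ → α | ∀ i : Fin n, y' i = sh y i} =
      ν.real ((fun (y : ℕ → α) (i : ℕ) => y (i + 1)) ⁻¹' {y' | ∀ i : Fin n, y' i = sh y i}) := by
    have h2 := hmp.measure_preimage
      (cyl_clopen n (fun i : Fin n => sh y i)).1.measurableSet.nullMeasurableSet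
    exact (congrArg ENNReal.toReal h2).symm
  rw [h1]
  refine measureReal_mono ?_ (measure_ne_top _ _)
  intro y' h i
  exact h i.succ

end

theorem t_H2 (h1 : S_H1) : S_H2 := by
  classical
  intro α _ val z mu c hval hval2 hmu hpos hc hent
  letI : TopologicalSpace α := ⊥
  have : DiscreteTopology α := ⟨rfl⟩
  letI : MeasurableSpace α := ⊤
  have : DiscreteMeasurableSpace α := ⟨fun _ => trivial⟩
  have : BorelSpace α := inferInstance
  obtain ⟨ν, hprob, hν, hmp, hgen⟩ := h1 z mu hmu
  have hK := KK_closed mu
  have hfull := KK_full mu ν hν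
  have hemb : MeasurableEmbedding (Subtype.val : KK mu → (ℕ → α)) :=
    MeasurableEmbedding.subtype_coe hK.measurableSet
  -- the measure
  set μ : Measure (KK mu) := ν.comap Subtype.val with hμ
  have hmap : μ.map Subtype.val = ν := by
    rw [hμ, hemb.map_comap, Subtype.range_coe]
    exact Measure.restrict_eq_self_of_ae_mem (by
      rw [ae_iff]; exact hfull)
  have hcomap : ∀ ρ : Measure (KK mu), (ρ.map Subtype.val).comap Subtype.val = ρ :=
    fun ρ => hemb.comap_map ρ
  have hmprob : IsProbabilityMeasure μ := by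
    constructor
    have : μ Set.univ = (μ.map Subtype.val) Set.univ := by
      rw [hemb.map_apply]; rfl
    rw [this, hmap]
    exact measure_univ
  -- the dynamics
  let T : KK mu → KK mu := fun y => ⟨sh y.1, KK_shift mu ν hν hmp y.1 y.2⟩
  have hTc : Continuous T := (sh_cont.comp continuous_subtype_val).subtype_mk _
  have hTi : ∀ (n : ℕ) (y : KK mu) (i : ℕ), (T^[n] y).1 i = y.1 (i + n) := by
    intro n
    induction n with
    | zero => intro y i; rfl
    | succ n ih =>
      intro y i
      rw [Function.iterate_succ_apply, ih (T y) i]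
      show y.1 (i + n + 1) = y.1 (i + (n + 1))
      rfl
  have hTm : MeasurePreserving T μ μ := by
    refine ⟨hTc.measurable, ?_⟩
    rw [← hcomap (μ.map T), ← hcomap μ]
    congr 1
    rw [hmap, Measure.map_map measurable_subtype_coe hTc.measurable]
    have : (Subtype.val ∘ T : KK mu → (ℕ → α)) = sh ∘ Subtype.val := rfl
    rw [this, ← Measure.map_map sh_cont.measurable measurable_subtype_coe, hmap]
    exact hmp.map_eq
  let f : KK mu → ℕ := fun y => val (y.1 0)
  have hfc : Continuous f :=
    (continuous_of_discreteTopology (f := val)).comp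
      ((continuous_apply 0).comp continuous_subtype_val)
  have hz : z ∈ KK mu := by
    intro n
    exact hpos n _ ⟨0, fun i => by simp⟩
  have hfT : ∀ n y, f (T^[n] y) = val (y.1 n) := by
    intro n y
    show val ((T^[n] y).1 0) = _
    rw [hTi]; simp
  have : PolishSpace (ℕ → α) := {}
  have : PolishSpace (KK mu) := hK.polishSpace
  refine ⟨KK mu, inferInstance, inferInstance, inferInstance, inferInstance, μ, T, f, ⟨z, hz⟩,
    hmprob, ?_, hTc, hTm, hfc, fun y => hval2 _, ?_, ?_, ?_, ?_⟩
  · -- open sets have positive measure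
    intro U hU ⟨y, hy⟩
    obtain ⟨U', hU', hUU⟩ := isOpen_induced_iff.1 hU
    have hyU : y.1 ∈ U' := by rw [← hUU] at hy; exact hy
    obtain ⟨I, u, hu1, hu2⟩ := isOpen_pi_iff.1 hU' y.1 hyU
    set n := I.sup id + 1 with hn
    have hsub : (Subtype.val ⁻¹' (cyl n (fun i : Fin n => y.1 i)) : Set (KK mu)) ⊆ U := by
      intro y' hy'
      rw [← hUU]
      refine hu2 ?_
      intro i hi
      have hi2 : i < n := by
        have := Finset.le_sup (f := id) (Finset.mem_coe.1 hi)
        simp only [id] at this
        omega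
      have := hy' ⟨i, hi2⟩
      simp only at this
      rw [this]
      exact (hu1 i (Finset.mem_coe.1 hi)).2
    refine lt_of_lt_of_le ?_ (measure_mono hsub)
    have e1 : μ (Subtype.val ⁻¹' (cyl n (fun i : Fin n => y.1 i))) =
        ν (cyl n (fun i : Fin n => y.1 i)) := by
      rw [← hemb.map_apply, hmap]
    rw [e1]
    have h2 : 0 < ν.real (cyl n (fun i : Fin n => y.1 i)) := by
      have := hν n (fun i : Fin n => y.1 i)
      unfold cyl
      rw [this]
      exact y.2 n
    exact (ENNReal.toReal_pos_iff.1 h2).1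
  · -- the topology
    apply le_antisymm
    · refine le_generateFrom ?_
      rintro s ⟨n, m, rfl⟩
      exact (isOpen_discrete {m}).preimage (hfc.comp (hTc.iterate n))
    · rw [show (instTopologicalSpaceSubtype : TopologicalSpace (KK mu)) =
        TopologicalSpace.induced Subtype.val Pi.topologicalSpace from rfl,
        ← continuous_iff_le_induced]
      letI : TopologicalSpace (KK mu) :=
        TopologicalSpace.generateFrom {s | ∃ n m : ℕ, s = {y | f (T^[n] y) = m}}
      refine @continuous_pi _ _ _ _ _ _ fun i => ?_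
      rw [continuous_discrete_rng]
      intro a
      refine TopologicalSpace.isOpen_generateFrom_of_mem ⟨i, val a, ?_⟩
      ext y
      simp only [Set.mem_preimage, Set.mem_singleton_iff, Set.mem_setOf_eq, hfT]
      exact ⟨fun h => by rw [h], fun h => hval h⟩
  · -- the generic point
    intro F hF _
    obtain ⟨G, hG⟩ := ContinuousMap.exists_extension (e := (Subtype.val : KK mu → (ℕ → α)))
      hK.isClosedEmbedding_subtypeVal ⟨F, hF⟩
    have hGF : ∀ y : KK mu, G y.1 = F y := fun y => by
      have := congrArg (fun g => g y) hG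
      exact this
    have h2 := hgen (fun y => G (sh y)) (G.continuous.comp sh_cont)
    have e1 : ∫ y, G (sh y) ∂ν = ∫ y, F y ∂μ := by
      have h3 : ∫ y, G y ∂(ν.map sh) = ∫ y, G (sh y) ∂ν :=
        integral_map sh_cont.measurable.aemeasurable G.continuous.aestronglyMeasurable
      have h4 : ν.map sh = ν := hmp.map_eq
      rw [← h3, h4]
      conv_lhs => rw [← hmap]
      rw [hemb.integral_map]
      exact integral_congr_ae (Eventually.of_forall fun y => hGF y)
    rw [e1] at h2
    refine h2.congr fun N => ?_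
    congr 1
    refine Finset.sum_congr rfl fun j _ => ?_
    rw [← hGF]
    congr 1
    funext i
    rw [hTi]
    show z (j + (i + 1)) = z (i + (j + 1))
    congr 1; ring
  · intro i
    rw [hfT]
  · -- entropy
    let e : α ≃ Fin (Fintype.card α) := Fintype.equivFin α
    let ξ : KK mu → Fin (Fintype.card α) := fun y => e (y.1 0)
    have hξ : Measurable ξ := by
      have : Continuous ξ := (continuous_of_discreteTopology (f := e)).comp
        ((continuous_apply 0).comp continuous_subtype_val)
      exact this.measurable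
    have hpe : ∀ n : ℕ, partEnt μ (fun y => fun j : Fin n => ξ (T^[j] y)) = ent (mu n) := by
      intro n
      unfold partEnt ent
      rw [← (Equiv.arrowCongr (Equiv.refl (Fin n)) e).sum_comp]
      refine Finset.sum_congr rfl fun V _ => ?_
      congr 1
      rw [← hν n V]
      have h3 : ((fun y => fun j : Fin n => ξ (T^[j] y)) ⁻¹'
          {(Equiv.arrowCongr (Equiv.refl (Fin n)) e) V} : Set (KK mu)) =
          Subtype.val ⁻¹' (cyl n V) := by
        ext y
        simp only [Set.mem_preimage, Set.mem_singleton_iff, cyl, Set.mem_setOf_eq]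
        constructor
        · intro h i
          have h4 := congrFun h i
          have h5 : e ((T^[i] y).1 0) = e (V i) := h4
          have h6 := e.injective h5
          rw [hTi] at h6
          simpa using h6
        · intro h
          funext i
          show e ((T^[i] y).1 0) = e (V i)
          rw [hTi]
          have := h i
          simp [this]
      rw [h3]
      unfold Measure.real
      rw [← hemb.map_apply, hmap]
      rfl
    refine lt_of_lt_of_le (b := ((c : ℝ) : EReal)) (EReal.coe_pos.2 hc) ?_
    refine le_trans ?_ (le_iSup_of_le (Fintype.card α) (le_iSup_of_le ξ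
      (le_iSup_of_le hξ le_rfl)))
    have h3 : (c : EReal) = limsup (fun _ : ℕ => (c : EReal)) atTop := (limsup_const _).symm
    rw [h3]
    refine limsup_le_limsup ?_
    filter_upwards [eventually_gt_atTop 0] with n hn
    have hn0 : (0 : ℝ) < n := by exact_mod_cast hn
    rw [EReal.coe_le_coe_iff, hpe n, le_div_iff₀ hn0]
    exact hent n

end Pool.Agent.Q130.CS
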